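import Mathlib

set_option autoImplicit false

/-!
Bar-joint frameworks in the plane with a polyhedral norm whose unit ball is a quadrilateral.
-/

namespace Pool.Agent.H615Z.IsoDefs

/-- The vertices `a, b, -a, -b`, in cyclic order, of a centrally symmetric quadrilateral. -/
def vert (a b : Fin 2 → ℝ) : Fin 4 → (Fin 2 → ℝ) := ![a, b, -a, -b]

/-- The centrally symmetric convex quadrilateral `P` with vertices `a, b, -a, -b`. -/
def quad (a b : Fin 2 → ℝ) : Set (Fin 2 → ℝ) := convexHull ℝ (Set.range (vert a b))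

/-- The four facets (edges) of `P`. -/
def facet (a b : Fin 2 → ℝ) (i : Fin 4) : Set (Fin 2 → ℝ) :=
  segment ℝ (vert a b i) (vert a b (i + 1))

/-- `x` lies in the cone over the relative interior of the `i`-th facet. -/
def InCone (a b : Fin 2 → ℝ) (i : Fin 4) (x : Fin 2 → ℝ) : Prop :=
  ∃ t : ℝ, 0 < t ∧ ∃ z ∈ openSegment ℝ (vert a b i) (vert a b (i + 1)), x = t • z

variable {V : Type*}

/-- Every edge vector lies in the cone over the relative interior of a facet. -/
def WellPositioned (a b : Fin 2 → ℝ) (G : SimpleGraph V) (p : V → Fin 2 → ℝ) : Prop :=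
  ∀ v w, G.Adj v w → ∃ i, InCone a b i (p v - p w)

/-- `u` is an infinitesimal flex: for each edge `vw`, the linear functional equal to `1` on the
facet of the edge vector kills `u v - u w`. -/
def IsFlex (a b : Fin 2 → ℝ) (G : SimpleGraph V) (p u : V → Fin 2 → ℝ) : Prop :=
  ∀ v w, G.Adj v w → ∀ (i : Fin 4) (φ : (Fin 2 → ℝ) →ₗ[ℝ] ℝ), InCone a b i (p v - p w) →
    (∀ z ∈ facet a b i, φ z = 1) → φ (u v - u w) = 0

/-- Well-positioned, and every infinitesimal flex is constant. -/
def InfRigid (a b : Fin 2 → ℝ) (G : SimpleGraph V) (p : V → Fin 2 → ℝ) : Prop :=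
  WellPositioned a b G p ∧ ∀ u, IsFlex a b G p u → ∀ v w, u v = u w

/-- Infinitesimally rigid, and no longer so after deleting any edge. -/
def Isostatic (a b : Fin 2 → ℝ) (G : SimpleGraph V) (p : V → Fin 2 → ℝ) : Prop :=
  InfRigid a b G p ∧ ∀ e ∈ G.edgeSet, ¬ InfRigid a b (G.deleteEdges {e}) p

/-- `(2,2)`-tight: `|E| = 2|V| - 2`, and `|E(H)| ≤ 2|V(H)| - 2` for subgraphs with a vertex. -/
def Tight22 (G : SimpleGraph V) : Prop :=
  G.edgeSet.ncard + 2 = 2 * Nat.card V ∧
    ∀ H : G.Subgraph, H.verts.Nonempty → H.edgeSet.ncard + 2 ≤ 2 * H.verts.ncard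

end Pool.Agent.H615Z.IsoDefs
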