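import Mathlib

set_option autoImplicit false

namespace Pool.Agent.H615Z.Iso

open Finset

variable {V : Type*} [DecidableEq V]

/-- Adjacency: red or blue. -/
def Adj (s : V → V) (R : V → V → Prop) (u w : V) : Prop := R u w ∨ R (s u) (s w)

open Classical in
/-- Neighbours inside a set. -/
noncomputable def nb (s : V → V) (R : V → V → Prop) (T : Finset V) (u : V) : Finset V :=
  T.filter (Adj s R u)

open Classical in
/-- Adjacent ordered pairs between two sets. -/
noncomputable def prs (s : V → V) (R : V → V → Prop) (T T' : Finset V) : Finset (V × V) :=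
  (T ×ˢ T').filter (fun p => Adj s R p.1 p.2)

/-- Twice the number of edges inside a set. -/
noncomputable def D (s : V → V) (R : V → V → Prop) (T : Finset V) : ℕ := (prs s R T T).card

omit [DecidableEq V] in
lemma mem_nb {s : V → V} {R : V → V → Prop} {T : Finset V} {u w : V} :
    w ∈ nb s R T u ↔ w ∈ T ∧ Adj s R u w := by
  unfold nb; simp

omit [DecidableEq V] in
lemma mem_prs {s : V → V} {R : V → V → Prop} {T T' : Finset V} {p : V × V} :
    p ∈ prs s R T T' ↔ p.1 ∈ T ∧ p.2 ∈ T' ∧ Adj s R p.1 p.2 := by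
  unfold prs; simp [and_assoc]

/-- The basic axioms. -/
structure Pre (s : V → V) (R : V → V → Prop) : Prop where
  inv : ∀ u, s (s u) = u
  symm : ∀ u w, R u w → R w u
  irr : ∀ u, ¬ R u u

/-- A symmetric sparse coloured graph on the vertex set `S`. -/
structure Good (s : V → V) (S : Finset V) (R : V → V → Prop) : Prop extends Pre s R where
  mem : ∀ u ∈ S, s u ∈ S
  nc : ∀ u ∈ S, ∀ w ∈ S, R u w → ¬ R (s u) (s w)
  sparse : ∀ T ⊆ S, T.Nonempty → D s R T + 4 ≤ 4 * T.card

variable {s : V → V} {R : V → V → Prop}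

omit [DecidableEq V] in
lemma Pre.adj_symm (h : Pre s R) {u w : V} (a : Adj s R u w) : Adj s R w u :=
  a.elim (fun r => Or.inl (h.symm _ _ r)) (fun r => Or.inr (h.symm _ _ r))

omit [DecidableEq V] in
lemma Pre.adj_irr (h : Pre s R) (u : V) : ¬ Adj s R u u :=
  fun a => a.elim (h.irr _) (h.irr _)

omit [DecidableEq V] in
lemma Pre.adj_ne (h : Pre s R) {u w : V} (a : Adj s R u w) : u ≠ w :=
  fun e => h.adj_irr u (e ▸ a)

omit [DecidableEq V] in
lemma Pre.adj_s (h : Pre s R) {u w : V} (a : Adj s R u w) : Adj s R (s u) (s w) := by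
  rcases a with r | r
  · right; rw [h.inv, h.inv]; exact r
  · left; exact r

omit [DecidableEq V] in
lemma Pre.adj_s_iff (h : Pre s R) {u w : V} : Adj s R (s u) (s w) ↔ Adj s R u w :=
  ⟨fun a => by have := h.adj_s a; rwa [h.inv, h.inv] at this, h.adj_s⟩

omit [DecidableEq V] in
lemma Pre.inj (h : Pre s R) : Function.Injective s :=
  Function.LeftInverse.injective h.inv

omit [DecidableEq V] in
lemma Good.not_adj_s {S : Finset V} (h : Good s S R) {u : V} (hu : u ∈ S) : ¬ Adj s R u (s u) := by
  intro a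
  have key : ∀ v ∈ S, ¬ R v (s v) := by
    intro v hv r
    have := h.nc v hv (s v) (h.mem v hv) r
    rw [h.inv] at this
    exact this (h.symm _ _ r)
  rcases a with r | r
  · exact key u hu r
  · exact key (s u) (h.mem u hu) r

omit [DecidableEq V] in
lemma Good.not_adj_fixed {S : Finset V} (h : Good s S R) {u w : V} (hu : u ∈ S) (hw : w ∈ S)
    (fu : s u = u) (fw : s w = w) : ¬ Adj s R u w := by
  intro a
  have r : R u w := by
    rcases a with r | r
    · exact r
    · rwa [fu, fw] at r
  have := h.nc u hu w hw r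
  rw [fu, fw] at this
  exact this r

omit [DecidableEq V] in
lemma Good.restrict {S : Finset V} (h : Good s S R) {S' : Finset V} (hS : S' ⊆ S)
    (hm : ∀ u ∈ S', s u ∈ S') : Good s S' R where
  toPre := h.toPre
  mem := hm
  nc := fun u hu w hw => h.nc u (hS hu) w (hS hw)
  sparse := fun T hT => h.sparse T (hT.trans hS)

omit [DecidableEq V] in
lemma D_eq_sum (T : Finset V) : D s R T = ∑ u ∈ T, (nb s R T u).card := by
  classical
  unfold D
  rw [card_eq_sum_card_fiberwise (f := Prod.fst) (t := T) (fun p hp => (mem_prs.1 hp).1)]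
  apply sum_congr rfl
  intro u hu
  apply card_bij (fun p _ => p.2)
  · intro p hp
    rw [mem_filter, mem_prs] at hp
    rw [mem_nb, ← hp.2]
    exact ⟨hp.1.2.1, hp.1.2.2⟩
  · intro p hp q hq e
    rw [mem_filter] at hp hq
    exact Prod.ext (hp.2.trans hq.2.symm) e
  · intro w hw
    rw [mem_nb] at hw
    exact ⟨(u, w), mem_filter.2 ⟨mem_prs.2 ⟨hu, hw.1, hw.2⟩, rfl⟩, rfl⟩

lemma D_supermod (h : Pre s R) (T T' : Finset V) :
    D s R T + D s R T' + 2 * (prs s R (T \ T') (T' \ T)).card
      ≤ D s R (T ∪ T') + D s R (T ∩ T') := by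
  unfold D
  have h1 := card_union_add_card_inter (prs s R T T) (prs s R T' T')
  have h2 : prs s R T T ∩ prs s R T' T' = prs s R (T ∩ T') (T ∩ T') := by
    ext p; simp only [mem_inter, mem_prs]; tauto
  have h3 : (prs s R (T' \ T) (T \ T')).card = (prs s R (T \ T') (T' \ T)).card := by
    apply card_bij (fun p _ => p.swap)
    · intro p hp
      rw [mem_prs] at hp ⊢
      exact ⟨hp.2.1, hp.1, h.adj_symm hp.2.2⟩
    · intro p _ q _ e
      exact Prod.swap_injective e
    · intro p hp
      rw [mem_prs] at hp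
      exact ⟨p.swap, mem_prs.2 ⟨hp.2.1, hp.1, h.adj_symm hp.2.2⟩, by simp⟩
  have d1 : Disjoint (prs s R (T \ T') (T' \ T)) (prs s R (T' \ T) (T \ T')) := by
    rw [disjoint_left]
    intro p hp hq
    simp only [mem_prs, mem_sdiff] at hp hq
    tauto
  have d2 : Disjoint (prs s R T T ∪ prs s R T' T')
      (prs s R (T \ T') (T' \ T) ∪ prs s R (T' \ T) (T \ T')) := by
    rw [disjoint_left]
    intro p hp hq
    simp only [mem_union, mem_prs, mem_sdiff] at hp hq
    tauto
  have h4 : (prs s R T T ∪ prs s R T' T') ∪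
      (prs s R (T \ T') (T' \ T) ∪ prs s R (T' \ T) (T \ T')) ⊆ prs s R (T ∪ T') (T ∪ T') := by
    intro p hp
    simp only [mem_union, mem_prs, mem_sdiff] at hp ⊢
    tauto
  have h5 := card_le_card h4
  rw [card_union_of_disjoint d2, card_union_of_disjoint d1, h3] at h5
  rw [h2] at h1
  omega

omit [DecidableEq V] in
lemma D_singleton (h : Pre s R) (w : V) : D s R {w} = 0 := by
  unfold D
  rw [card_eq_zero]
  ext p
  simp only [mem_prs, mem_singleton, notMem_empty, iff_false]
  rintro ⟨h1, h2, h3⟩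
  rw [h1, h2] at h3
  exact h.adj_irr w h3

omit [DecidableEq V] in
lemma D_empty : D s R (∅ : Finset V) = 0 := by
  unfold D
  rw [card_eq_zero]
  ext p
  simp [mem_prs]

lemma D_insert (h : Pre s R) {T : Finset V} {w : V} (hw : w ∉ T) :
    D s R (insert w T) = D s R T + 2 * (nb s R T w).card := by
  rw [D_eq_sum, D_eq_sum, sum_insert hw]
  have h1 : nb s R (insert w T) w = nb s R T w := by
    ext u
    simp only [mem_nb, mem_insert]
    constructor
    · rintro ⟨rfl | h1, h2⟩
      · exact absurd h2 (h.adj_irr _)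
      · exact ⟨h1, h2⟩
    · rintro ⟨h1, h2⟩
      exact ⟨Or.inr h1, h2⟩
  classical
  have h2 : ∀ u ∈ T, (nb s R (insert w T) u).card
      = (nb s R T u).card + if Adj s R w u then 1 else 0 := by
    intro u _
    split_ifs with ha
    · have : nb s R (insert w T) u = insert w (nb s R T u) := by
        ext x
        simp only [mem_nb, mem_insert]
        constructor
        · rintro ⟨rfl | h1, h2⟩
          · exact Or.inl rfl
          · exact Or.inr ⟨h1, h2⟩
        · rintro (rfl | ⟨h1, h2⟩)
          · exact ⟨Or.inl rfl, h.adj_symm ha⟩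
          · exact ⟨Or.inr h1, h2⟩
      rw [this, card_insert_of_notMem (fun hh => hw (mem_nb.1 hh).1)]
    · have : nb s R (insert w T) u = nb s R T u := by
        ext x
        simp only [mem_nb, mem_insert]
        constructor
        · rintro ⟨rfl | h1, h2⟩
          · exact absurd (h.adj_symm h2) ha
          · exact ⟨h1, h2⟩
        · rintro ⟨h1, h2⟩
          exact ⟨Or.inr h1, h2⟩
      rw [this, add_zero]
  rw [h1, sum_congr rfl h2, sum_add_distrib, ← card_filter]
  have h3 : T.filter (fun u => Adj s R w u) = nb s R T w := by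
    ext x; simp [mem_nb]
  rw [h3]
  omega

lemma D_insert_ge (h : Pre s R) {T : Finset V} {w : V} (hw : w ∉ T) {N : Finset V} (hN : N ⊆ T)
    (ha : ∀ u ∈ N, Adj s R w u) : D s R T + 2 * N.card ≤ D s R (insert w T) := by
  rw [D_insert h hw]
  have : N ⊆ nb s R T w := fun u hu => mem_nb.2 ⟨hN hu, ha u hu⟩
  have := card_le_card this
  omega

lemma mem_image_s (h : Pre s R) {T : Finset V} {u : V} : u ∈ T.image s ↔ s u ∈ T := by
  rw [mem_image]
  constructor
  · rintro ⟨a, ha, rfl⟩; rwa [h.inv]
  · intro hu; exact ⟨s u, hu, h.inv u⟩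

lemma card_image_s (h : Pre s R) (T : Finset V) : (T.image s).card = T.card :=
  card_image_of_injective _ h.inj

lemma D_image (h : Pre s R) (T : Finset V) : D s R (T.image s) = D s R T := by
  unfold D
  apply card_bij (fun p _ => (s p.1, s p.2))
  · intro p hp
    rw [mem_prs, mem_image_s h, mem_image_s h] at hp
    exact mem_prs.2 ⟨hp.1, hp.2.1, h.adj_s hp.2.2⟩
  · intro p _ q _ e
    simp only [Prod.mk.injEq] at e
    exact Prod.ext (h.inj e.1) (h.inj e.2)
  · intro p hp
    rw [mem_prs] at hp
    refine ⟨(s p.1, s p.2), mem_prs.2 ⟨?_, ?_, h.adj_s hp.2.2⟩, by simp [h.inv]⟩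
    · rw [mem_image_s h, h.inv]; exact hp.1
    · rw [mem_image_s h, h.inv]; exact hp.2.1

lemma nb_card_s (h : Pre s R) {T : Finset V} (hT : ∀ u ∈ T, s u ∈ T) (v : V) :
    (nb s R T (s v)).card = (nb s R T v).card := by
  apply card_bij (fun u _ => s u)
  · intro u hu
    rw [mem_nb] at hu ⊢
    have := h.adj_s hu.2
    rw [h.inv] at this
    exact ⟨hT u hu.1, this⟩
  · intro p _ q _ e
    exact h.inj e
  · intro u hu
    rw [mem_nb] at hu
    exact ⟨s u, mem_nb.2 ⟨hT u hu.1, h.adj_s hu.2⟩, h.inv u⟩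

lemma even_card_of_invol {α : Type*} (A : Finset α) (f : α → α) (hm : ∀ a ∈ A, f a ∈ A)
    (hi : ∀ a ∈ A, f (f a) = a) (hn : ∀ a ∈ A, f a ≠ a) : Even A.card := by
  have h := Finset.sum_involution (s := A) (f := fun _ => (1 : ZMod 2)) (fun a _ => f a)
    (fun a _ => by decide) (fun a ha _ => hn a ha) hm hi
  rw [sum_const, nsmul_eq_mul, mul_one] at h
  exact (ZMod.natCast_eq_zero_iff_even).1 h

omit [DecidableEq V] in
lemma D_even (h : Pre s R) (T : Finset V) : Even (D s R T) := by
  apply even_card_of_invol _ Prod.swap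
  · intro p hp
    rw [mem_prs] at hp ⊢
    exact ⟨hp.2.1, hp.1, h.adj_symm hp.2.2⟩
  · intro p _; simp
  · intro p hp e
    rw [mem_prs] at hp
    have : p.2 = p.1 := congrArg Prod.fst e
    exact h.adj_ne hp.2.2 this.symm

omit [DecidableEq V] in
lemma Good.four_dvd {S : Finset V} (h : Good s S R) {T : Finset V} (hT : T ⊆ S)
    (hm : ∀ u ∈ T, s u ∈ T) : 4 ∣ D s R T := by
  classical
  unfold D
  have h1 := card_filter_add_card_filter_not (s := prs s R T T) (fun p => R p.1 p.2)
  have h2 : ((prs s R T T).filter (fun p => ¬ R p.1 p.2)).card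
      = ((prs s R T T).filter (fun p => R p.1 p.2)).card := by
    apply card_bij (fun p _ => (s p.1, s p.2))
    · intro p hp
      rw [mem_filter, mem_prs] at hp ⊢
      exact ⟨⟨hm _ hp.1.1, hm _ hp.1.2.1, h.adj_s hp.1.2.2⟩, hp.1.2.2.resolve_left hp.2⟩
    · intro p _ q _ e
      simp only [Prod.mk.injEq] at e
      exact Prod.ext (h.inj e.1) (h.inj e.2)
    · intro p hp
      rw [mem_filter, mem_prs] at hp
      refine ⟨(s p.1, s p.2), mem_filter.2 ⟨mem_prs.2 ⟨hm _ hp.1.1, hm _ hp.1.2.1,
        h.adj_s hp.1.2.2⟩, h.nc _ (hT hp.1.1) _ (hT hp.1.2.1) hp.2⟩, by simp [h.inv]⟩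
  have h3 : Even ((prs s R T T).filter (fun p => R p.1 p.2)).card := by
    apply even_card_of_invol _ Prod.swap
    · intro p hp
      rw [mem_filter, mem_prs] at hp ⊢
      exact ⟨⟨hp.1.2.1, hp.1.1, h.adj_symm hp.1.2.2⟩, h.symm _ _ hp.2⟩
    · intro p _; simp
    · intro p hp e
      rw [mem_filter, mem_prs] at hp
      have : p.2 = p.1 := congrArg Prod.fst e
      exact h.adj_ne hp.1.2.2 this.symm
  obtain ⟨k, hk⟩ := h3
  exact ⟨k, by omega⟩

omit [DecidableEq V] in
lemma Good.nb_even {S : Finset V} (h : Good s S R) {v : V} (hv : v ∈ S) (fv : s v = v) :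
    Even (nb s R S v).card := by
  apply even_card_of_invol _ s
  · intro u hu
    rw [mem_nb] at hu ⊢
    have := h.adj_s hu.2
    rw [fv] at this
    exact ⟨h.mem u hu.1, this⟩
  · intro u _; exact h.inv u
  · intro u hu e
    rw [mem_nb] at hu
    exact h.not_adj_fixed hv hu.1 fv e hu.2

/-- A tight set. -/
def Tight (s : V → V) (R : V → V → Prop) (T : Finset V) : Prop := 4 * T.card ≤ D s R T + 4

lemma Tight.image (h : Pre s R) {T : Finset V} (t : Tight s R T) : Tight s R (T.image s) := by
  unfold Tight at *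
  rwa [D_image h, card_image_s h]

lemma Good.tight_union {S : Finset V} (h : Good s S R) {T T' : Finset V} (hT : T ⊆ S)
    (t : Tight s R T) (t' : Tight s R T') (hne : (T ∩ T').Nonempty) : Tight s R (T ∪ T') := by
  unfold Tight at *
  have h1 := D_supermod h.toPre T T'
  have h2 := h.sparse (T ∩ T') (inter_subset_left.trans hT) hne
  have h3 := card_union_add_card_inter T T'
  omega

lemma Good.tight_insert (h : Pre s R) {T : Finset V} (t : Tight s R T) {w : V} (hw : w ∉ T)
    (h2 : 2 ≤ (nb s R T w).card) : Tight s R (insert w T) := by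
  unfold Tight at *
  rw [D_insert h hw, card_insert_of_notMem hw]
  omega

lemma Good.nb_le_two {S : Finset V} (h : Good s S R) {T : Finset V} (hT : T ⊆ S)
    (t : Tight s R T) {w : V} (hwS : w ∈ S) (hw : w ∉ T) : (nb s R T w).card ≤ 2 := by
  unfold Tight at *
  have := h.sparse (insert w T) (insert_subset hwS hT) (insert_nonempty _ _)
  rw [D_insert h.toPre hw, card_insert_of_notMem hw] at this
  omega

/-- If no set with two or more points is tight, sets meeting their mirror image in two or more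
points have deficiency at least eight. -/
lemma Good.deficit {S : Finset V} (h : Good s S R)
    (hnt : ∀ T ⊆ S, 2 ≤ T.card → ¬ Tight s R T) {T : Finset V} (hT : T ⊆ S)
    (h2 : 2 ≤ (T ∩ T.image s).card) : D s R T + 8 ≤ 4 * T.card := by
  have hsT : T.image s ⊆ S := fun u hu => by
    have := h.mem _ (hT ((mem_image_s h.toPre).1 hu))
    rwa [h.inv] at this
  have a1 := D_supermod h.toPre T (T.image s)
  have a2 := card_union_add_card_inter T (T.image s)
  rw [D_image h.toPre] at a1
  rw [card_image_s h.toPre] at a2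
  have a3 := hnt (T ∩ T.image s) (inter_subset_left.trans hT) h2
  have a4 := hnt (T ∪ T.image s) (union_subset hT hsT)
    (le_trans h2 (card_le_card (inter_subset_left.trans subset_union_left)))
  have a5 : 4 ∣ D s R (T ∩ T.image s) := by
    apply h.four_dvd (inter_subset_left.trans hT)
    intro u hu
    rw [mem_inter, mem_image_s h.toPre] at hu ⊢
    rw [h.inv]
    exact hu.symm
  have a6 : 4 ∣ D s R (T ∪ T.image s) := by
    apply h.four_dvd (union_subset hT hsT)
    intro u hu
    rw [mem_union, mem_image_s h.toPre] at hu ⊢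
    rw [h.inv]
    exact hu.symm
  have a7 := D_even h.toPre T
  unfold Tight at a3 a4
  obtain ⟨k, hk⟩ := a7
  omega

end Pool.Agent.H615Z.Iso
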