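import Mathlib

set_option autoImplicit false

namespace Pool.Agent.H615Z.Iso

open Finset Filter Topology

lemma exists_Ioo_notMem {a b : ℝ} (h : a < b) (F : Finset ℝ) : ∃ x, a < x ∧ x < b ∧ x ∉ F := by
  obtain ⟨x, hx, hF⟩ := (Set.Ioo_infinite h).exists_notMem_finset F
  exact ⟨x, hx.1, hx.2, hF⟩

lemma exists_gt_notMem (a : ℝ) (F : Finset ℝ) : ∃ x, a < x ∧ x ∉ F := by
  obtain ⟨x, h1, _, h2⟩ := exists_Ioo_notMem (by linarith : a < a + 1) F
  exact ⟨x, h1, h2⟩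

lemma exists_lt_notMem (a : ℝ) (F : Finset ℝ) : ∃ x, x < a ∧ x ∉ F := by
  obtain ⟨x, _, h1, h2⟩ := exists_Ioo_notMem (by linarith : a - 1 < a) F
  exact ⟨x, h1, h2⟩

/-- A point concordant with finitely many given points. -/
lemma geo_red {V : Type*} (A : Finset V) (X Y : V → ℝ) (FX FY : Finset ℝ) :
    ∃ x y, x ∉ FX ∧ y ∉ FY ∧ ∀ u ∈ A, 0 < (x - X u) * (y - Y u) := by
  obtain ⟨bx, hbx⟩ := (A.image X).bddAbove
  obtain ⟨by', hby⟩ := (A.image Y).bddAbove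
  obtain ⟨x, hx, hx'⟩ := exists_gt_notMem bx FX
  obtain ⟨y, hy, hy'⟩ := exists_gt_notMem by' FY
  refine ⟨x, y, hx', hy', fun u hu => ?_⟩
  have h1 : X u ≤ bx := hbx (by simp; exact ⟨u, hu, rfl⟩)
  have h2 : Y u ≤ by' := hby (by simp; exact ⟨u, hu, rfl⟩)
  apply mul_pos <;> linarith

/-- A point discordant with finitely many given points. -/
lemma geo_blue {V : Type*} (A : Finset V) (X Y : V → ℝ) (FX FY : Finset ℝ) :
    ∃ x y, x ∉ FX ∧ y ∉ FY ∧ ∀ u ∈ A, (x - X u) * (y - Y u) < 0 := by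
  obtain ⟨x, y, h1, h2, h3⟩ := geo_red A X (fun u => -Y u) FX (FY.image (fun t => -t))
  refine ⟨x, -y, h1, fun h => h2 (mem_image.2 ⟨-y, h, by ring⟩), fun u hu => ?_⟩
  have := h3 u hu
  nlinarith

/-- The configurations of three points which allow a point concordant with the first two and
discordant with the third. -/
def NotBad (xa ya xb yb xc yc : ℝ) : Prop :=
  (0 < (xa - xb) * (ya - yb) ∧ ¬ (xc = xa ∧ yc = ya) ∧ ¬ (xc = xb ∧ yc = yb)) ∨
    (xc < xa ∧ xc < xb) ∨ (xa < xc ∧ xb < xc) ∨ (yc < ya ∧ yc < yb) ∨ (ya < yc ∧ yb < yc)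

lemma geo3_out {xa ya xb yb xc yc : ℝ}
    (h : (xc < xa ∧ xc < xb) ∨ (xa < xc ∧ xb < xc) ∨ (yc < ya ∧ yc < yb) ∨ (ya < yc ∧ yb < yc))
    (FX FY : Finset ℝ) :
    ∃ x y, x ∉ FX ∧ y ∉ FY ∧ 0 < (x - xa) * (y - ya) ∧ 0 < (x - xb) * (y - yb) ∧
      (x - xc) * (y - yc) < 0 := by
  rcases h with h | h | h | h
  · obtain ⟨x, h1, h2, h3⟩ := exists_Ioo_notMem (lt_min h.1 h.2) FX
    obtain ⟨y, h4, h5⟩ := exists_lt_notMem (min yc (min ya yb)) FY
    simp only [lt_min_iff] at h2 h4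
    refine ⟨x, y, h3, h5, ?_, ?_, ?_⟩
    · apply mul_pos_of_neg_of_neg <;> linarith [h2.1, h4.2.1]
    · apply mul_pos_of_neg_of_neg <;> linarith [h2.2, h4.2.2]
    · apply mul_neg_of_pos_of_neg <;> linarith [h4.1]
  · obtain ⟨x, h1, h2, h3⟩ := exists_Ioo_notMem (max_lt h.1 h.2) FX
    obtain ⟨y, h4, h5⟩ := exists_gt_notMem (max yc (max ya yb)) FY
    simp only [max_lt_iff] at h1 h4
    refine ⟨x, y, h3, h5, ?_, ?_, ?_⟩
    · apply mul_pos <;> linarith [h1.1, h4.2.1]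
    · apply mul_pos <;> linarith [h1.2, h4.2.2]
    · apply mul_neg_of_neg_of_pos <;> linarith [h4.1]
  · obtain ⟨y, h1, h2, h3⟩ := exists_Ioo_notMem (lt_min h.1 h.2) FY
    obtain ⟨x, h4, h5⟩ := exists_lt_notMem (min xc (min xa xb)) FX
    simp only [lt_min_iff] at h2 h4
    refine ⟨x, y, h5, h3, ?_, ?_, ?_⟩
    · apply mul_pos_of_neg_of_neg <;> linarith [h2.1, h4.2.1]
    · apply mul_pos_of_neg_of_neg <;> linarith [h2.2, h4.2.2]
    · apply mul_neg_of_neg_of_pos <;> linarith [h4.1]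
  · obtain ⟨y, h1, h2, h3⟩ := exists_Ioo_notMem (max_lt h.1 h.2) FY
    obtain ⟨x, h4, h5⟩ := exists_gt_notMem (max xc (max xa xb)) FX
    simp only [max_lt_iff] at h1 h4
    refine ⟨x, y, h5, h3, ?_, ?_, ?_⟩
    · apply mul_pos <;> linarith [h1.1, h4.2.1]
    · apply mul_pos <;> linarith [h1.2, h4.2.2]
    · apply mul_neg_of_pos_of_neg <;> linarith [h4.1]

lemma geo3_in {xa ya xb yb xc yc : ℝ} (hx : xa < xb) (hy : ya < yb)
    (ha : ¬ (xc = xa ∧ yc = ya)) (hb : ¬ (xc = xb ∧ yc = yb)) (FX FY : Finset ℝ) :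
    ∃ x y, x ∉ FX ∧ y ∉ FY ∧ 0 < (x - xa) * (y - ya) ∧ 0 < (x - xb) * (y - yb) ∧
      (x - xc) * (y - yc) < 0 := by
  by_cases hout : (xc < xa ∧ xc < xb) ∨ (xa < xc ∧ xb < xc) ∨ (yc < ya ∧ yc < yb) ∨
      (ya < yc ∧ yb < yc)
  · exact geo3_out hout FX FY
  have h1 : xa ≤ xc := by
    by_contra h; push Not at h; exact hout (Or.inl ⟨h, by linarith⟩)
  have h2 : xc ≤ xb := by
    by_contra h; push Not at h; exact hout (Or.inr (Or.inl ⟨by linarith, h⟩))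
  have h3 : ya ≤ yc := by
    by_contra h; push Not at h; exact hout (Or.inr (Or.inr (Or.inl ⟨h, by linarith⟩)))
  have h4 : yc ≤ yb := by
    by_contra h; push Not at h; exact hout (Or.inr (Or.inr (Or.inr ⟨by linarith, h⟩)))
  by_cases hc : xa < xc ∧ yc < yb
  · obtain ⟨x, k1, k2, k3⟩ := exists_Ioo_notMem hc.1 FX
    obtain ⟨y, k4, k5, k6⟩ := exists_Ioo_notMem hc.2 FY
    refine ⟨x, y, k3, k6, ?_, ?_, ?_⟩
    · apply mul_pos <;> linarith
    · apply mul_pos_of_neg_of_neg <;> linarith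
    · apply mul_neg_of_neg_of_pos <;> linarith
  · have hc2 : xc < xb ∧ ya < yc := by
      rcases eq_or_lt_of_le h1 with e1 | e1
      · refine ⟨by linarith, lt_of_le_of_ne h3 (fun e => ha ⟨e1.symm, e.symm⟩)⟩
      · have e2 : yc = yb := by
          by_contra e; exact hc ⟨e1, lt_of_le_of_ne h4 e⟩
        refine ⟨lt_of_le_of_ne h2 (fun e => hb ⟨e, e2⟩), by linarith⟩
    obtain ⟨x, k1, k2, k3⟩ := exists_Ioo_notMem hc2.1 FX
    obtain ⟨y, k4, k5, k6⟩ := exists_Ioo_notMem hc2.2 FY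
    refine ⟨x, y, k3, k6, ?_, ?_, ?_⟩
    · apply mul_pos <;> linarith
    · apply mul_pos_of_neg_of_neg <;> linarith
    · apply mul_neg_of_pos_of_neg <;> linarith

lemma geo3 {xa ya xb yb xc yc : ℝ} (h : NotBad xa ya xb yb xc yc) (FX FY : Finset ℝ) :
    ∃ x y, x ∉ FX ∧ y ∉ FY ∧ 0 < (x - xa) * (y - ya) ∧ 0 < (x - xb) * (y - yb) ∧
      (x - xc) * (y - yc) < 0 := by
  rcases h with ⟨h, ha, hb⟩ | h
  · rcases mul_pos_iff.1 h with ⟨h1, h2⟩ | ⟨h1, h2⟩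
    · obtain ⟨x, y, k1, k2, k3, k4, k5⟩ :=
        geo3_in (xa := xb) (ya := yb) (xb := xa) (yb := ya) (by linarith) (by linarith) hb ha FX FY
      exact ⟨x, y, k1, k2, k4, k3, k5⟩
    · exact geo3_in (by linarith) (by linarith) ha hb FX FY
  · exact geo3_out h FX FY

lemma NotBad.swap {xa ya xb yb xc yc : ℝ} (h : NotBad xa ya xb yb xc yc) :
    NotBad xb yb xa ya xc yc := by
  rcases h with ⟨h, ha, hb⟩ | h | h | h | h
  · exact Or.inl ⟨by nlinarith, hb, ha⟩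
  · exact Or.inr (Or.inl h.symm)
  · exact Or.inr (Or.inr (Or.inl h.symm))
  · exact Or.inr (Or.inr (Or.inr (Or.inl h.symm)))
  · exact Or.inr (Or.inr (Or.inr (Or.inr h.symm)))

lemma notBad_of_ac {xa ya xb yb xc yc : ℝ} (h : 0 < (xa - xc) * (ya - yc))
    (hb : ¬ (xc = xb ∧ yc = yb)) : NotBad xa ya xb yb xc yc := by
  by_cases hout : (xc < xa ∧ xc < xb) ∨ (xa < xc ∧ xb < xc) ∨ (yc < ya ∧ yc < yb) ∨
      (ya < yc ∧ yb < yc)
  · exact Or.inr hout
  left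
  refine ⟨?_, fun e => by rw [e.1] at h; simp at h, hb⟩
  push Not at hout
  obtain ⟨k1, k2, k3, k4⟩ := hout
  rcases mul_pos_iff.1 h with ⟨h1, h2⟩ | ⟨h1, h2⟩
  · have := k1 (by linarith)
    have := k3 (by linarith)
    apply mul_pos <;> linarith
  · have := k2 (by linarith)
    have := k4 (by linarith)
    apply mul_pos_of_neg_of_neg <;> linarith

lemma notBad_self {xa ya xc yc : ℝ} (h : ¬ (xc = xa ∧ yc = ya)) : NotBad xa ya xa ya xc yc := by
  right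
  rcases lt_trichotomy xc xa with h1 | h1 | h1
  · exact Or.inl ⟨h1, h1⟩
  · rcases lt_trichotomy yc ya with h2 | h2 | h2
    · exact Or.inr (Or.inr (Or.inl ⟨h2, h2⟩))
    · exact absurd ⟨h1, h2⟩ h
    · exact Or.inr (Or.inr (Or.inr ⟨h2, h2⟩))
  · exact Or.inr (Or.inl ⟨h1, h1⟩)

/-- Small perturbations keep finitely many strict inequalities. -/
lemma eventually_order {V : Type*} (S : Finset V) (f g : V → ℝ) :
    ∀ᶠ ε in 𝓝[>] (0 : ℝ), ∀ u ∈ S, ∀ w ∈ S, f u < f w → f u + ε * g u < f w + ε * g w := by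
  rw [Filter.eventually_all_finset]
  intro u _
  rw [Filter.eventually_all_finset]
  intro w _
  by_cases h : f u < f w
  · have hc : Continuous (fun ε : ℝ => (f w + ε * g w) - (f u + ε * g u)) := by fun_prop
    have h0 : 0 < (f w + 0 * g w) - (f u + 0 * g u) := by linarith
    have := (hc.tendsto 0).eventually (lt_mem_nhds h0)
    filter_upwards [nhdsWithin_le_nhds this] with ε hε _
    linarith
  · exact Filter.Eventually.of_forall (fun _ h' => absurd h' h)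

lemma exists_eps {V : Type*} (S : Finset V) (f g f' g' : V → ℝ) :
    ∃ ε : ℝ, 0 < ε ∧ (∀ u ∈ S, ∀ w ∈ S, f u < f w → f u + ε * g u < f w + ε * g w) ∧
      (∀ u ∈ S, ∀ w ∈ S, f' u < f' w → f' u + ε * g' u < f' w + ε * g' w) := by
  have h := ((eventually_order S f g).and (eventually_order S f' g')).and self_mem_nhdsWithin
  obtain ⟨ε, ⟨h1, h2⟩, h3⟩ := h.exists
  exact ⟨ε, h3, h1, h2⟩

end Pool.Agent.H615Z.Iso
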