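import Mathlib
import Pool.Agent.H615Z.IsoGeo
import Pool.Agent.H615Z.IsoCount

set_option autoImplicit false

namespace Pool.Agent.H615Z.Iso

open Finset

variable {V : Type*} [DecidableEq V]

/-- A generic mirror-symmetric placement in which red edges have positive slope. -/
structure Rl (s : V → V) (S : Finset V) (R : V → V → Prop) (X Y : V → ℝ) : Prop where
  xs : ∀ u ∈ S, X (s u) = X u
  ys : ∀ u ∈ S, Y (s u) = - Y u
  xi : ∀ u ∈ S, ∀ w ∈ S, X u = X w → u = w ∨ u = s w
  yn : ∀ u ∈ S, s u ≠ u → Y u ≠ 0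
  red : ∀ u ∈ S, ∀ w ∈ S, R u w → 0 < (X u - X w) * (Y u - Y w)

/-- Existence of a placement. -/
def Rable (s : V → V) (S : Finset V) (R : V → V → Prop) : Prop := ∃ X Y, Rl s S R X Y

variable {s : V → V} {R : V → V → Prop} {S : Finset V} {X Y : V → ℝ}

omit [DecidableEq V] in
lemma Rl.blue (r : Rl s S R X Y) (hm : ∀ u ∈ S, s u ∈ S) {u w : V} (hu : u ∈ S) (hw : w ∈ S)
    (b : R (s u) (s w)) : (X u - X w) * (Y u - Y w) < 0 := by
  have := r.red _ (hm u hu) _ (hm w hw) b
  rw [r.xs u hu, r.xs w hw, r.ys u hu, r.ys w hw] at this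
  nlinarith

omit [DecidableEq V] in
lemma Rl.yfix (r : Rl s S R X Y) {u : V} (hu : u ∈ S) (fu : s u = u) : Y u = 0 := by
  have := r.ys u hu
  rw [fu] at this
  linarith

omit [DecidableEq V] in
lemma Rl.ne_pt (r : Rl s S R X Y) {u w : V} (hu : u ∈ S) (hw : w ∈ S) (hne : u ≠ w) :
    ¬ (X u = X w ∧ Y u = Y w) := by
  rintro ⟨h1, h2⟩
  rcases r.xi u hu w hw h1 with e | e
  · exact hne e
  · have h3 := r.ys w hw
    rw [← e] at h3
    have h4 := r.yn w hw (fun e' => hne (e.trans e'))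
    apply h4; linarith

omit [DecidableEq V] in
lemma Rl.mono {R' : V → V → Prop} (r : Rl s S R' X Y) (h : ∀ u ∈ S, ∀ w ∈ S, R u w → R' u w) :
    Rl s S R X Y :=
  ⟨r.xs, r.ys, r.xi, r.yn, fun u hu w hw a => r.red u hu w hw (h u hu w hw a)⟩

lemma Good.mem_erase2 (h : Good s S R) (v : V) :
    ∀ u ∈ (S.erase v).erase (s v), s u ∈ (S.erase v).erase (s v) := by
  intro u hu
  simp only [mem_erase] at hu ⊢
  refine ⟨fun e => hu.2.1 (h.inj e), fun e => hu.1 ?_, h.mem u hu.2.2⟩
  rw [← e, h.inv]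

lemma Good.mem_erase1 (h : Good s S R) {v : V} (fv : s v = v) :
    ∀ u ∈ S.erase v, s u ∈ S.erase v := by
  intro u hu
  simp only [mem_erase] at hu ⊢
  refine ⟨fun e => hu.1 (h.inj (e.trans fv.symm)), h.mem u hu.2⟩

/-- Adding a pair of mirror vertices. -/
lemma Good.ext_pair (h : Good s S R) {v : V} (hv : v ∈ S) (nv : s v ≠ v)
    (r : Rl s ((S.erase v).erase (s v)) R X Y) (x y : ℝ)
    (hx : x ∉ ((S.erase v).erase (s v)).image X) (hy : y ≠ 0)
    (hr : ∀ u ∈ (S.erase v).erase (s v), R v u → 0 < (x - X u) * (y - Y u))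
    (hb : ∀ u ∈ (S.erase v).erase (s v), R (s v) (s u) → (x - X u) * (y - Y u) < 0) :
    Rable s S R := by
  set S' := (S.erase v).erase (s v) with hS'
  have hm := h.mem_erase2 v
  have mem' : ∀ u ∈ S, u ≠ v → u ≠ s v → u ∈ S' := fun u hu h1 h2 => by
    simp [hS', h1, h2, hu]
  have nm : ∀ u ∈ S', u ≠ v ∧ u ≠ s v := fun u hu => by
    simp only [hS', mem_erase] at hu; exact ⟨hu.2.1, hu.1⟩
  have hx' : ∀ u ∈ S', x ≠ X u := fun u hu e => hx (mem_image.2 ⟨u, hu, e.symm⟩)
  set X' : V → ℝ := fun u => if u = v ∨ u = s v then x else X u with hX'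
  set Y' : V → ℝ := fun u => if u = v then y else if u = s v then -y else Y u with hY'
  have Xv : X' v = x := by simp [hX']
  have Xsv : X' (s v) = x := by simp [hX']
  have Yv : Y' v = y := by simp [hY']
  have Ysv : Y' (s v) = -y := by simp [hY', nv]
  have Xo : ∀ u ∈ S', X' u = X u := fun u hu => by simp [hX', nm u hu]
  have Yo : ∀ u ∈ S', Y' u = Y u := fun u hu => by simp [hY', nm u hu]
  have tri : ∀ u ∈ S, u = v ∨ u = s v ∨ u ∈ S' := fun u hu => by
    by_cases h1 : u = v
    · exact Or.inl h1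
    · by_cases h2 : u = s v
      · exact Or.inr (Or.inl h2)
      · exact Or.inr (Or.inr (mem' u hu h1 h2))
  have key : ∀ u, (u = v ∨ u = s v) → ∀ w ∈ S, R u w → 0 < (X' u - X' w) * (Y' u - Y' w) := by
    rintro u (rfl | rfl) w hw a
    · have hw' : w ∈ S' := mem' w hw (fun e => h.irr _ (e ▸ a))
        (fun e => h.not_adj_s hv (Or.inl (e ▸ a)))
      rw [Xv, Yv, Xo w hw', Yo w hw']
      exact hr w hw' a
    · have hw' : w ∈ S' := mem' w hw
        (fun e => h.not_adj_s hv (Or.inl (h.symm _ _ (e ▸ a)))) (fun e => h.irr _ (e ▸ a))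
      rw [Xsv, Ysv, Xo w hw', Yo w hw']
      have := hb (s w) (hm w hw') (by rw [h.inv]; exact a)
      rw [r.xs w hw', r.ys w hw'] at this
      nlinarith
  refine ⟨X', Y', ?_, ?_, ?_, ?_, ?_⟩
  · intro u hu
    rcases tri u hu with rfl | rfl | hu'
    · rw [Xv, Xsv]
    · rw [h.inv, Xv, Xsv]
    · rw [Xo u hu', Xo _ (hm u hu'), r.xs u hu']
  · intro u hu
    rcases tri u hu with rfl | rfl | hu'
    · rw [Yv, Ysv]
    · rw [h.inv, Yv, Ysv, neg_neg]
    · rw [Yo u hu', Yo _ (hm u hu'), r.ys u hu']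
  · intro u hu w hw e
    rcases tri u hu with rfl | rfl | hu' <;> rcases tri w hw with rfl | rfl | hw'
    · exact Or.inl rfl
    · exact Or.inr (h.inv _).symm
    · rw [Xv, Xo w hw'] at e; exact absurd e (hx' w hw')
    · exact Or.inr rfl
    · exact Or.inl rfl
    · rw [Xsv, Xo w hw'] at e; exact absurd e (hx' w hw')
    · rw [Xv, Xo u hu'] at e; exact absurd e.symm (hx' u hu')
    · rw [Xsv, Xo u hu'] at e; exact absurd e.symm (hx' u hu')
    · rw [Xo u hu', Xo w hw'] at e; exact r.xi u hu' w hw' e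
  · intro u hu nu
    rcases tri u hu with rfl | rfl | hu'
    · rwa [Yv]
    · rw [Ysv]; exact neg_ne_zero.2 hy
    · rw [Yo u hu']; exact r.yn u hu' nu
  · intro u hu w hw a
    rcases tri u hu with e | e | hu'
    · exact key u (Or.inl e) w hw a
    · exact key u (Or.inr e) w hw a
    · rcases tri w hw with e | e | hw'
      · have := key w (Or.inl e) u hu (h.symm _ _ a); nlinarith
      · have := key w (Or.inr e) u hu (h.symm _ _ a); nlinarith
      · rw [Xo u hu', Xo w hw', Yo u hu', Yo w hw']; exact r.red u hu' w hw' a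

/-- Adding a vertex on the mirror. -/
lemma Good.ext_fix (h : Good s S R) {v : V} (fv : s v = v)
    (r : Rl s (S.erase v) R X Y) (x : ℝ) (hx : x ∉ (S.erase v).image X)
    (hr : ∀ u ∈ S.erase v, R v u → 0 < (x - X u) * (0 - Y u)) : Rable s S R := by
  set S' := S.erase v with hS'
  have hm := h.mem_erase1 fv
  have nm : ∀ u ∈ S', u ≠ v := fun u hu => ne_of_mem_erase hu
  have hx' : ∀ u ∈ S', x ≠ X u := fun u hu e => hx (mem_image.2 ⟨u, hu, e.symm⟩)
  set X' : V → ℝ := fun u => if u = v then x else X u with hX'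
  set Y' : V → ℝ := fun u => if u = v then 0 else Y u with hY'
  have Xv : X' v = x := by simp [hX']
  have Yv : Y' v = 0 := by simp [hY']
  have Xo : ∀ u ∈ S', X' u = X u := fun u hu => by simp [hX', nm u hu]
  have Yo : ∀ u ∈ S', Y' u = Y u := fun u hu => by simp [hY', nm u hu]
  have tri : ∀ u ∈ S, u = v ∨ u ∈ S' := fun u hu => by
    by_cases h1 : u = v
    · exact Or.inl h1
    · exact Or.inr (mem_erase.2 ⟨h1, hu⟩)
  have key : ∀ w ∈ S, R v w → 0 < (X' v - X' w) * (Y' v - Y' w) := by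
    intro w hw a
    have hw' : w ∈ S' := mem_erase.2 ⟨fun e => h.irr _ (e ▸ a), hw⟩
    rw [Xv, Yv, Xo w hw', Yo w hw']
    exact hr w hw' a
  refine ⟨X', Y', ?_, ?_, ?_, ?_, ?_⟩
  · intro u hu
    rcases tri u hu with rfl | hu'
    · rw [fv]
    · rw [Xo u hu', Xo _ (hm u hu'), r.xs u hu']
  · intro u hu
    rcases tri u hu with rfl | hu'
    · rw [fv, Yv, neg_zero]
    · rw [Yo u hu', Yo _ (hm u hu'), r.ys u hu']
  · intro u hu w hw e
    rcases tri u hu with rfl | hu' <;> rcases tri w hw with rfl | hw'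
    · exact Or.inl rfl
    · rw [Xv, Xo w hw'] at e; exact absurd e (hx' w hw')
    · rw [Xv, Xo u hu'] at e; exact absurd e.symm (hx' u hu')
    · rw [Xo u hu', Xo w hw'] at e; exact r.xi u hu' w hw' e
  · intro u hu nu
    rcases tri u hu with rfl | hu'
    · exact absurd fv nu
    · rw [Yo u hu']; exact r.yn u hu' nu
  · intro u hu w hw a
    rcases tri u hu with rfl | hu'
    · exact key w hw a
    · rcases tri w hw with rfl | hw'
      · have := key u hu (h.symm _ _ a); nlinarith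
      · rw [Xo u hu', Xo w hw', Yo u hu', Yo w hw']; exact r.red u hu' w hw' a

omit [DecidableEq V] in
/-- Blowing up the fibres of a contraction. -/
lemma Good.blowup (h : Good s S R) (π s' : V → V) (S' : Finset V) (R' : V → V → Prop)
    (X' Y' x y : V → ℝ) (hπ : ∀ u ∈ S, π u ∈ S') (hs : ∀ u ∈ S, π (s u) = s' (π u))
    (r : Rl s' S' R' X' Y') (hR : ∀ u ∈ S, ∀ w ∈ S, R u w → π u ≠ π w → R' (π u) (π w))
    (xs : ∀ u ∈ S, x (s u) = x u) (ys : ∀ u ∈ S, y (s u) = - y u)
    (fr : ∀ u ∈ S, ∀ w ∈ S, R u w → π u = π w → 0 < (x u - x w) * (y u - y w))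
    (fi : ∀ u ∈ S, ∀ w ∈ S, π u = π w → x u = x w → u = w ∨ u = s w)
    (fn : ∀ u ∈ S, s u ≠ u → π (s u) = π u → y u ≠ 0) :
    ∃ X Y, Rl s S R X Y ∧ (∀ u ∈ S, ∀ w ∈ S, X' (π u) < X' (π w) → X u < X w) ∧
      (∀ u ∈ S, ∀ w ∈ S, π u = π w → x u < x w → X u < X w) := by
  obtain ⟨ε, hε, h1, h2⟩ := exists_eps S (fun u => X' (π u)) x (fun u => Y' (π u)) y
  refine ⟨fun u => X' (π u) + ε * x u, fun u => Y' (π u) + ε * y u, ⟨?_, ?_, ?_, ?_, ?_⟩, h1, ?_⟩
  · intro u hu
    beta_reduce
    rw [hs u hu, r.xs _ (hπ u hu), xs u hu]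
  · intro u hu
    beta_reduce
    rw [hs u hu, r.ys _ (hπ u hu), ys u hu]; ring
  · intro u hu w hw e
    beta_reduce at e
    have e1 : X' (π u) = X' (π w) := by
      rcases lt_trichotomy (X' (π u)) (X' (π w)) with l | l | l
      · exact absurd e (h1 u hu w hw l).ne
      · exact l
      · exact absurd e (h1 w hw u hu l).ne'
    have e2 : x u = x w := by
      rw [e1] at e
      exact mul_left_cancel₀ hε.ne' (add_left_cancel e)
    rcases r.xi _ (hπ u hu) _ (hπ w hw) e1 with e3 | e3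
    · exact fi u hu w hw e3 e2
    · rw [← hs w hw] at e3
      have := fi u hu (s w) (h.mem w hw) e3 (by rw [xs w hw]; exact e2)
      rw [h.inv] at this
      exact this.symm
  · intro u hu nu
    beta_reduce
    by_cases e : π (s u) = π u
    · have : Y' (π u) = 0 := r.yfix (hπ u hu) (by rw [← hs u hu]; exact e)
      rw [this, zero_add]
      exact mul_ne_zero hε.ne' (fn u hu nu e)
    · have h3 : Y' (π u) ≠ 0 := r.yn _ (hπ u hu) (by rw [← hs u hu]; exact e)
      have h4 : Y' (π (s u)) = - Y' (π u) := by rw [hs u hu, r.ys _ (hπ u hu)]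
      rcases lt_or_gt_of_ne h3 with l | l
      · have := h2 u hu (s u) (h.mem u hu) (by beta_reduce; linarith)
        beta_reduce at this
        rw [h4, ys u hu] at this
        linarith
      · have := h2 (s u) (h.mem u hu) u hu (by beta_reduce; linarith)
        beta_reduce at this
        rw [h4, ys u hu] at this
        linarith
  · intro u hu w hw a
    beta_reduce
    by_cases e : π u = π w
    · have := fr u hu w hw a e
      rw [e]
      have e2 : (X' (π w) + ε * x u - (X' (π w) + ε * x w)) *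
          (Y' (π w) + ε * y u - (Y' (π w) + ε * y w)) = ε ^ 2 * ((x u - x w) * (y u - y w)) := by
        ring
      rw [e2]
      positivity
    · have := r.red _ (hπ u hu) _ (hπ w hw) (hR u hu w hw a e)
      rcases mul_pos_iff.1 this with ⟨l1, l2⟩ | ⟨l1, l2⟩
      · have k1 := h1 w hw u hu (by beta_reduce; linarith)
        have k2 := h2 w hw u hu (by beta_reduce; linarith)
        beta_reduce at k1 k2
        apply mul_pos <;> linarith
      · have k1 := h1 u hu w hw (by beta_reduce; linarith)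
        have k2 := h2 u hu w hw (by beta_reduce; linarith)
        beta_reduce at k1 k2
        apply mul_pos_of_neg_of_neg <;> linarith
  · intro u _ w _ e l
    beta_reduce
    rw [e]
    nlinarith

/-- Assembling a symmetric placement from a placement of a fundamental domain. -/
lemma Good.assemble (h : Good s S R) (K : Finset V) (hK : ∀ u ∈ S, u ∈ K ∨ s u ∈ K)
    (x y : V → ℝ) (xi : ∀ u ∈ K, ∀ w ∈ K, x u = x w → u = w)
    (hf : ∀ u ∈ K, s u ∈ K → s u = u) (y0 : ∀ u ∈ K, s u = u → y u = 0)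
    (yn : ∀ u ∈ K, s u ≠ u → y u ≠ 0)
    (hr : ∀ u ∈ K, ∀ w ∈ K, R u w → 0 < (x u - x w) * (y u - y w))
    (hb : ∀ u ∈ K, ∀ w ∈ K, R (s u) (s w) → (x u - x w) * (y u - y w) < 0)
    (hc : ∀ u ∈ K, ∀ w ∈ K, R u (s w) → 0 < (x u - x w) * (y u + y w)) : Rable s S R := by
  set X : V → ℝ := fun u => if u ∈ K then x u else x (s u) with hX
  set Y : V → ℝ := fun u => if u ∈ K then y u else - y (s u) with hY
  have X1 : ∀ u ∈ K, X u = x u := fun u hu => by simp [hX, hu]
  have Y1 : ∀ u ∈ K, Y u = y u := fun u hu => by simp [hY, hu]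
  have X2 : ∀ u ∈ K, X (s u) = x u := fun u hu => by
    by_cases e : s u ∈ K
    · rw [hf u hu e, X1 u hu]
    · simp [hX, e, h.inv]
  have Y2 : ∀ u ∈ K, Y (s u) = - y u := fun u hu => by
    by_cases e : s u ∈ K
    · rw [hf u hu e, Y1 u hu, y0 u hu (hf u hu e), neg_zero]
    · simp [hY, e, h.inv]
  have tri : ∀ u ∈ S, u ∈ K ∨ ∃ u' ∈ K, u = s u' := fun u hu =>
    (hK u hu).imp id (fun e => ⟨s u, e, (h.inv u).symm⟩)
  refine ⟨X, Y, ?_, ?_, ?_, ?_, ?_⟩
  · intro u hu
    rcases tri u hu with hu' | ⟨u', hu', rfl⟩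
    · rw [X1 u hu', X2 u hu']
    · rw [h.inv, X1 u' hu', X2 u' hu']
  · intro u hu
    rcases tri u hu with hu' | ⟨u', hu', rfl⟩
    · rw [Y1 u hu', Y2 u hu']
    · rw [h.inv, Y1 u' hu', Y2 u' hu', neg_neg]
  · intro u hu w hw e
    rcases tri u hu with hu' | ⟨u', hu', rfl⟩ <;> rcases tri w hw with hw' | ⟨w', hw', rfl⟩
    · rw [X1 u hu', X1 w hw'] at e; exact Or.inl (xi u hu' w hw' e)
    · rw [X1 u hu', X2 w' hw'] at e; right; rw [h.inv]; exact xi u hu' w' hw' e
    · rw [X2 u' hu', X1 w hw'] at e; right; rw [xi u' hu' w hw' e]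
    · rw [X2 u' hu', X2 w' hw'] at e; left; rw [xi u' hu' w' hw' e]
  · intro u hu nu
    rcases tri u hu with hu' | ⟨u', hu', rfl⟩
    · rw [Y1 u hu']; exact yn u hu' nu
    · rw [Y2 u' hu']
      rw [h.inv] at nu
      exact neg_ne_zero.2 (yn u' hu' nu.symm)
  · intro u hu w hw a
    rcases tri u hu with hu' | ⟨u', hu', rfl⟩ <;> rcases tri w hw with hw' | ⟨w', hw', rfl⟩
    · rw [X1 u hu', X1 w hw', Y1 u hu', Y1 w hw']; exact hr u hu' w hw' a
    · rw [X1 u hu', X2 w' hw', Y1 u hu', Y2 w' hw', sub_neg_eq_add]; exact hc u hu' w' hw' a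
    · rw [X2 u' hu', X1 w hw', Y2 u' hu', Y1 w hw']
      have := hc w hw' u' hu' (h.symm _ _ a)
      nlinarith
    · rw [X2 u' hu', X2 w' hw', Y2 u' hu', Y2 w' hw']
      have := hb u' hu' w' hw' a
      nlinarith

/-- A tight fundamental domain without fixed vertices. -/
lemma Good.assemble1 (h : Good s S R) (K : Finset V) (hKS : K ⊆ S) (t : Tight s R K)
    (hU : K ∪ K.image s = S) (hd : ∀ u ∈ K, s u ∉ K)
    (x y : V → ℝ) (xi : ∀ u ∈ K, ∀ w ∈ K, x u = x w → u = w)
    (hr : ∀ u ∈ K, ∀ w ∈ K, R u w → 0 < (x u - x w) * (y u - y w))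
    (hb : ∀ u ∈ K, ∀ w ∈ K, R (s u) (s w) → (x u - x w) * (y u - y w) < 0) : Rable s S R := by
  have hK : ∀ u ∈ S, u ∈ K ∨ s u ∈ K := fun u hu => by
    rw [← hU, mem_union, mem_image_s h.toPre] at hu; exact hu
  have uniq : ∀ u ∈ K, ∀ w ∈ K, ∀ u' ∈ K, ∀ w' ∈ K, R u (s w) → R u' (s w') → u' = u ∧ w' = w := by
    intro u hu w hw u' hu' w' hw' a a'
    have a1 := D_supermod h.toPre K (K.image s)
    have a2 := card_union_add_card_inter K (K.image s)
    have a3 : K ∩ K.image s = ∅ := by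
      ext z
      simp only [mem_inter, mem_image_s h.toPre, notMem_empty, iff_false]
      exact fun hz => hd z hz.1 hz.2
    rw [a3, hU, D_image h.toPre, D_empty] at a1
    rw [a3, hU, card_image_s h.toPre, card_empty] at a2
    have a4 := h.sparse S subset_rfl ⟨u, hKS hu⟩
    have mm : ∀ p ∈ K, ∀ q ∈ K, Adj s R p (s q) →
        (p, s q) ∈ prs s R (K \ K.image s) (K.image s \ K) := by
      intro p hp q hq aa
      rw [mem_prs]
      simp only [mem_sdiff, mem_image_s h.toPre, h.inv]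
      exact ⟨⟨hp, hd p hp⟩, ⟨hq, hd q hq⟩, aa⟩
    have huw : u ≠ w := fun e => h.not_adj_s (hKS hu) (Or.inl (by rw [← e] at a; exact a))
    have m1 := mm u hu w hw (Or.inl a)
    have m2 := mm w hw u hu (Or.inr (by rw [h.inv]; exact h.symm _ _ a))
    have m3 := mm u' hu' w' hw' (Or.inl a')
    by_contra hne
    have hsub : ({(u, s w), (w, s u), (u', s w')} : Finset (V × V)) ⊆
        prs s R (K \ K.image s) (K.image s \ K) := by
      intro p hp
      simp only [mem_insert, mem_singleton] at hp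
      rcases hp with rfl | rfl | rfl <;> assumption
    have hc : ({(u, s w), (w, s u), (u', s w')} : Finset (V × V)).card = 3 := by
      rw [card_eq_three]
      refine ⟨_, _, _, ?_, ?_, ?_, rfl⟩
      · intro e; exact huw (congrArg Prod.fst e)
      · intro e
        simp only [Prod.mk.injEq] at e
        exact hne ⟨e.1.symm, (h.inj e.2).symm⟩
      · intro e
        simp only [Prod.mk.injEq] at e
        have e2 := h.inj e.2
        rw [← e.1, ← e2] at a'
        have := h.nc w (hKS hw) (s u) (h.mem u (hKS hu)) a'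
        rw [h.inv] at this
        exact this (h.symm _ _ a)
    have := card_le_card hsub
    unfold Tight at t
    omega
  obtain ⟨σ, hσ, hσ2⟩ : ∃ σ : ℝ, σ * σ = 1 ∧
      ∀ u ∈ K, ∀ w ∈ K, R u (s w) → 0 < σ * (x u - x w) := by
    by_cases hex : ∃ u ∈ K, ∃ w ∈ K, R u (s w)
    · obtain ⟨u, hu, w, hw, a⟩ := hex
      have huw : u ≠ w := fun e => h.not_adj_s (hKS hu) (Or.inl (by rw [← e] at a; exact a))
      have hx : x u ≠ x w := fun e => huw (xi u hu w hw e)
      rcases lt_or_gt_of_ne hx with l | l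
      · refine ⟨-1, by norm_num, fun u' hu' w' hw' a' => ?_⟩
        obtain ⟨rfl, rfl⟩ := uniq u hu w hw u' hu' w' hw' a a'
        linarith
      · refine ⟨1, by norm_num, fun u' hu' w' hw' a' => ?_⟩
        obtain ⟨rfl, rfl⟩ := uniq u hu w hw u' hu' w' hw' a a'
        linarith
    · exact ⟨1, by norm_num, fun u hu w hw a => absurd ⟨u, hu, w, hw, a⟩ hex⟩
  obtain ⟨M, hM⟩ := (K.image (fun u => - (σ * y u))).bddAbove
  have hM' : ∀ u ∈ K, 0 < σ * y u + (M + 1) := fun u hu => by
    have : - (σ * y u) ≤ M := hM (by simp only [coe_image]; exact ⟨u, hu, rfl⟩)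
    linarith
  have hσ0 : σ ≠ 0 := fun e => by rw [e] at hσ; simp at hσ
  apply h.assemble K hK (fun u => σ * x u) (fun u => σ * y u + (M + 1))
  · intro u hu w hw e
    exact xi u hu w hw (mul_left_cancel₀ hσ0 e)
  · intro u hu e; exact absurd e (hd u hu)
  · intro u hu e; exact absurd (by rw [e]; exact hu) (hd u hu)
  · intro u hu _; exact (hM' u hu).ne'
  · intro u hu w hw a
    have := hr u hu w hw a
    have e : (σ * x u - σ * x w) * (σ * y u + (M + 1) - (σ * y w + (M + 1)))
        = (σ * σ) * ((x u - x w) * (y u - y w)) := by ring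
    rw [e, hσ]; linarith
  · intro u hu w hw a
    have := hb u hu w hw a
    have e : (σ * x u - σ * x w) * (σ * y u + (M + 1) - (σ * y w + (M + 1)))
        = (σ * σ) * ((x u - x w) * (y u - y w)) := by ring
    rw [e, hσ]; linarith
  · intro u hu w hw a
    have := hσ2 u hu w hw a
    apply mul_pos (by linarith)
    linarith [hM' u hu, hM' w hw]

/-- A tight fundamental domain with exactly one fixed vertex. -/
lemma Good.assemble2 (h : Good s S R) (K : Finset V) (hKS : K ⊆ S) (t : Tight s R K)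
    (hU : K ∪ K.image s = S) (w0 : V) (hw0 : w0 ∈ K) (f0 : s w0 = w0)
    (hd : ∀ u ∈ K, s u ∈ K → u = w0)
    (x y : V → ℝ) (xi : ∀ u ∈ K, ∀ w ∈ K, x u = x w → u = w)
    (yi : ∀ u ∈ K, u ≠ w0 → y u ≠ y w0)
    (hr : ∀ u ∈ K, ∀ w ∈ K, R u w → 0 < (x u - x w) * (y u - y w))
    (hb : ∀ u ∈ K, ∀ w ∈ K, R (s u) (s w) → (x u - x w) * (y u - y w) < 0) : Rable s S R := by
  have hK : ∀ u ∈ S, u ∈ K ∨ s u ∈ K := fun u hu => by
    rw [← hU, mem_union, mem_image_s h.toPre] at hu; exact hu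
  have nocross : ∀ u ∈ K, ∀ w ∈ K, u ≠ w0 → w ≠ w0 → ¬ R u (s w) := by
    intro u hu w hw nu nw a
    have a1 := D_supermod h.toPre K (K.image s)
    have a2 := card_union_add_card_inter K (K.image s)
    have a3 : K ∩ K.image s = {w0} := by
      ext z
      simp only [mem_inter, mem_image_s h.toPre, mem_singleton]
      constructor
      · exact fun hz => hd z hz.1 hz.2
      · rintro rfl; exact ⟨hw0, by rw [f0]; exact hw0⟩
    rw [a3, hU, D_image h.toPre, D_singleton h.toPre] at a1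
    rw [a3, hU, card_image_s h.toPre, card_singleton] at a2
    have a4 := h.sparse S subset_rfl ⟨u, hKS hu⟩
    have m1 : (u, s w) ∈ prs s R (K \ K.image s) (K.image s \ K) := by
      rw [mem_prs]
      simp only [mem_sdiff, mem_image_s h.toPre, h.inv]
      exact ⟨⟨hu, fun e => nu (hd u hu e)⟩, ⟨hw, fun e => nw (hd w hw e)⟩, Or.inl a⟩
    have := card_pos.2 ⟨_, m1⟩
    unfold Tight at t
    omega
  apply h.assemble K hK x (fun u => y u - y w0) xi
  · intro u hu e
    rw [hd u hu e, f0]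
  · intro u hu e
    rw [hd u hu (by rw [e]; exact hu), sub_self]
  · intro u hu e
    exact sub_ne_zero.2 (yi u hu (fun e' => e (by rw [e', f0])))
  · intro u hu w hw a
    have := hr u hu w hw a
    nlinarith
  · intro u hu w hw a
    have := hb u hu w hw a
    nlinarith
  · intro u hu w hw a
    by_cases nw : w = w0
    · subst nw
      rw [f0] at a
      have := hr u hu w hw a
      nlinarith
    · by_cases nu : u = w0
      · subst nu
        have := hb u hu w hw (by rw [f0]; exact a)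
        nlinarith
      · exact absurd a (nocross u hu w hw nu nw)

end Pool.Agent.H615Z.Iso
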