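import Mathlib
import Pool.Agent.H615Z.IsoReal

set_option autoImplicit false

namespace Pool.Agent.H615Z.Iso

open Finset

variable {V : Type*} [DecidableEq V]

/-- The red relation after a contraction. -/
def CR (S : Finset V) (R : V → V → Prop) (π : V → V) (a b : V) : Prop :=
  a ≠ b ∧ ∃ u ∈ S, ∃ w ∈ S, R u w ∧ π u = a ∧ π w = b

variable {s : V → V} {R : V → V → Prop} {S : Finset V}

lemma Good.contract_D (h : Good s S R) (π s' : V → V) (hi : ∀ u, s' (s' u) = u)
    (hs : ∀ u ∈ S, π (s u) = s' (π u)) (T : Finset V) :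
    D s' (CR S R π) T + ∑ t ∈ T, D s R (S.filter (fun u => π u = t))
      ≤ D s R (S.filter (fun u => π u ∈ T)) := by
  set P := prs s R (S.filter (fun u => π u ∈ T)) (S.filter (fun u => π u ∈ T)) with hP
  have h1 := card_filter_add_card_filter_not (s := P) (fun p => π p.1 = π p.2)
  have h2 : (P.filter (fun p => π p.1 = π p.2)).card
      = ∑ t ∈ T, D s R (S.filter (fun u => π u = t)) := by
    rw [card_eq_sum_card_fiberwise (f := fun p => π p.1) (t := T)]
    · apply sum_congr rfl
      intro t ht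
      unfold D
      congr 1
      ext p
      simp only [hP, mem_filter, mem_prs]
      constructor
      · rintro ⟨⟨⟨⟨a1, _⟩, ⟨a2, _⟩, a3⟩, a4⟩, a5⟩
        exact ⟨⟨a1, a5⟩, ⟨a2, a4 ▸ a5⟩, a3⟩
      · rintro ⟨⟨a1, a5⟩, ⟨a2, a6⟩, a3⟩
        exact ⟨⟨⟨⟨a1, a5 ▸ ht⟩, ⟨a2, a6 ▸ ht⟩, a3⟩, a5.trans a6.symm⟩, a5⟩
    · intro p hp
      simp only [hP, coe_filter, mem_prs, mem_filter, Set.mem_setOf_eq] at hp
      exact hp.1.1.2
  have h3 : D s' (CR S R π) T ≤ (P.filter (fun p => ¬ π p.1 = π p.2)).card := by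
    unfold D
    apply card_le_card_of_surjOn (fun p => (π p.1, π p.2))
    intro q hq
    rw [mem_coe, mem_prs] at hq
    obtain ⟨q1, q2, q3⟩ := hq
    rcases q3 with ⟨ne, u, hu, w, hw, a, e1, e2⟩ | ⟨ne, u, hu, w, hw, a, e1, e2⟩
    · refine ⟨(u, w), ?_, by simp [e1, e2]⟩
      simp only [hP, coe_filter, mem_prs, mem_filter, Set.mem_setOf_eq]
      exact ⟨⟨⟨hu, e1 ▸ q1⟩, ⟨hw, e2 ▸ q2⟩, Or.inl a⟩, by rw [e1, e2]; exact ne⟩
    · have f1 : π (s u) = q.1 := by rw [hs u hu, e1, hi]
      have f2 : π (s w) = q.2 := by rw [hs w hw, e2, hi]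
      refine ⟨(s u, s w), ?_, by simp [f1, f2]⟩
      simp only [hP, coe_filter, mem_prs, mem_filter, Set.mem_setOf_eq]
      exact ⟨⟨⟨h.mem u hu, f1 ▸ q1⟩, ⟨h.mem w hw, f2 ▸ q2⟩, h.adj_s (Or.inl a)⟩,
        by rw [f1, f2]; exact fun e => ne (by rw [e])⟩
  have h4 : D s R (S.filter (fun u => π u ∈ T)) = P.card := rfl
  omega

lemma Good.contract (h : Good s S R) (π s' : V → V) (hi : ∀ u, s' (s' u) = u)
    (hs : ∀ u ∈ S, π (s u) = s' (π u))
    (hnc : ∀ u ∈ S, ∀ w ∈ S, ∀ u' ∈ S, ∀ w' ∈ S, R u w → R (s u') (s w') → π u = π u' →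
      π w = π w' → π u = π w)
    (hsp : ∀ T ⊆ S.image π, T.Nonempty → D s R (S.filter (fun u => π u ∈ T)) + 4
      ≤ ∑ t ∈ T, D s R (S.filter (fun u => π u = t)) + 4 * T.card) :
    Good s' (S.image π) (CR S R π) where
  inv := hi
  symm := by
    rintro a b ⟨ne, u, hu, w, hw, r, e1, e2⟩
    exact ⟨ne.symm, w, hw, u, hu, h.symm _ _ r, e2, e1⟩
  irr := fun a r => r.1 rfl
  mem := by
    intro a ha
    obtain ⟨u, hu, rfl⟩ := mem_image.1 ha
    exact mem_image.2 ⟨s u, h.mem u hu, hs u hu⟩
  nc := by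
    rintro a _ b _ ⟨ne, u, hu, w, hw, r, e1, e2⟩ ⟨_, u', hu', w', hw', r', e1', e2'⟩
    have f1 : π (s u') = a := by rw [hs u' hu', e1', hi]
    have f2 : π (s w') = b := by rw [hs w' hw', e2', hi]
    have := hnc u hu w hw (s u') (h.mem u' hu') (s w') (h.mem w' hw') r
      (by rw [h.inv, h.inv]; exact r') (e1.trans f1.symm) (e2.trans f2.symm)
    exact ne (e1.symm.trans (this.trans e2))
  sparse := by
    intro T hT hne
    have h1 := h.contract_D π s' hi hs T
    have h2 := hsp T hT hne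
    omega

lemma Good.tight_fibres (h : Good s S R) (π : V → V)
    (ht : ∀ u ∈ S, Tight s R (S.filter (fun w => π w = π u))) :
    ∀ T ⊆ S.image π, T.Nonempty → D s R (S.filter (fun u => π u ∈ T)) + 4
      ≤ ∑ t ∈ T, D s R (S.filter (fun u => π u = t)) + 4 * T.card := by
  intro T hT hne
  obtain ⟨t0, ht0⟩ := hne
  obtain ⟨u0, hu0, e0⟩ := mem_image.1 (hT ht0)
  have h1 := h.sparse (S.filter (fun u => π u ∈ T)) (filter_subset _ _)
    ⟨u0, mem_filter.2 ⟨hu0, e0 ▸ ht0⟩⟩
  have h2 : (S.filter (fun u => π u ∈ T)).card = ∑ t ∈ T, (S.filter (fun u => π u = t)).card := by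
    rw [card_eq_sum_card_fiberwise (f := π) (t := T)]
    · apply sum_congr rfl
      intro t ht
      congr 1
      ext u
      simp only [mem_filter]
      constructor
      · rintro ⟨⟨a, _⟩, b⟩; exact ⟨a, b⟩
      · rintro ⟨a, b⟩; exact ⟨⟨a, b ▸ ht⟩, b⟩
    · intro u hu
      simp only [coe_filter, Set.mem_setOf_eq] at hu
      exact hu.2
  have h3 : ∑ t ∈ T, 4 * (S.filter (fun u => π u = t)).card
      ≤ ∑ t ∈ T, (D s R (S.filter (fun u => π u = t)) + 4) := by
    apply sum_le_sum
    intro t ht'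
    obtain ⟨u, hu, rfl⟩ := mem_image.1 (hT ht')
    exact ht u hu
  rw [← mul_sum, sum_add_distrib, sum_const, smul_eq_mul] at h3
  omega

lemma card_image_lt {π : V → V} {p q : V} (hp : p ∈ S) (hq : q ∈ S) (hne : p ≠ q)
    (e : π p = π q) : (S.image π).card < S.card := by
  refine lt_of_le_of_ne card_image_le (fun hc => hne ?_)
  exact (card_image_iff.1 hc) hp hq e

omit [DecidableEq V] in
lemma tight_singleton (h : Pre s R) (u : V) : Tight s R {u} := by
  unfold Tight
  rw [D_singleton h, card_singleton]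

/-- The induction hypothesis. -/
def IH (V : Type*) [DecidableEq V] (n : ℕ) : Prop :=
  ∀ (s : V → V) (S : Finset V) (R : V → V → Prop), S.card < n → Good s S R → Rable s S R

/-- Contraction of a closed symmetric tight set. -/
lemma Good.case_sym (h : Good s S R) (ih : IH V S.card) (H : Finset V) (hH : H ⊆ S)
    (hm : ∀ u ∈ H, s u ∈ H) (t : Tight s R H) (h2 : 2 ≤ H.card) (hne : H ≠ S)
    (hcl : ∀ w ∈ S, w ∉ H → (nb s R H w).card ≤ 1) : Rable s S R := by
  obtain ⟨p, hp, q, hq, hpq⟩ := one_lt_card.1 h2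
  have hm' : ∀ u, u ∉ H → s u ∉ H := fun u hu e => hu (by have := hm _ e; rwa [h.inv] at this)
  set π : V → V := fun u => if u ∈ H then p else u with hπ
  set s' : V → V := fun u => if u ∈ H then u else s u with hs'
  have π1 : ∀ u ∈ H, π u = p := fun u hu => by simp [hπ, hu]
  have π2 : ∀ u, u ∉ H → π u = u := fun u hu => by simp [hπ, hu]
  have hi : ∀ u, s' (s' u) = u := fun u => by
    by_cases hu : u ∈ H
    · simp [hs', hu]
    · simp [hs', hu, hm' u hu, h.inv]
  have hs : ∀ u ∈ S, π (s u) = s' (π u) := fun u _ => by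
    by_cases hu : u ∈ H
    · rw [π1 u hu, π1 _ (hm u hu)]; simp [hs', hp]
    · rw [π2 u hu, π2 _ (hm' u hu)]; simp [hs', hu]
  have πe : ∀ u w, π u = π w → (u ∈ H ∧ w ∈ H) ∨ (u = w) := fun u w e => by
    by_cases hu : u ∈ H <;> by_cases hw : w ∈ H
    · exact Or.inl ⟨hu, hw⟩
    · rw [π1 u hu, π2 w hw] at e; exact absurd (e ▸ hp) hw
    · rw [π1 w hw, π2 u hu] at e; exact absurd (e ▸ hp) hu
    · rw [π2 u hu, π2 w hw] at e; exact Or.inr e
  have one : ∀ w ∈ S, w ∉ H → ∀ u ∈ H, ∀ u' ∈ H, Adj s R w u → Adj s R w u' → u = u' :=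
    fun w hw hw' u hu u' hu' a a' =>
      card_le_one.1 (hcl w hw hw') u (mem_nb.2 ⟨hu, a⟩) u' (mem_nb.2 ⟨hu', a'⟩)
  have g : Good s' (S.image π) (CR S R π) := by
    apply h.contract π s' hi hs
    · intro u hu w hw u' hu' w' hw' r r' e1 e2
      rcases πe _ _ e1 with ⟨a1, a2⟩ | rfl <;> rcases πe _ _ e2 with ⟨b1, b2⟩ | rfl
      · rw [π1 u a1, π1 w b1]
      · by_cases hwH : w ∈ H
        · rw [π1 u a1, π1 w hwH]
        · have := one w hw hwH u a1 u' a2 (Or.inl (h.symm _ _ r)) (Or.inr (h.symm _ _ r'))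
          subst this
          exact absurd r' (h.nc u hu w hw r)
      · by_cases huH : u ∈ H
        · rw [π1 u huH, π1 w b1]
        · have := one u hu huH w b1 w' b2 (Or.inl r) (Or.inr r')
          subst this
          exact absurd r' (h.nc u hu w hw r)
      · exact absurd r' (h.nc u hu w hw r)
    · apply h.tight_fibres
      intro u hu
      by_cases huH : u ∈ H
      · have : S.filter (fun w => π w = π u) = H := by
          ext w
          simp only [mem_filter]
          constructor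
          · rintro ⟨_, e⟩
            rcases πe _ _ e with a | rfl
            · exact a.1
            · exact huH
          · intro hw; exact ⟨hH hw, by rw [π1 u huH, π1 w hw]⟩
        rwa [this]
      · have : S.filter (fun w => π w = π u) = {u} := by
          ext w
          simp only [mem_filter, mem_singleton]
          constructor
          · rintro ⟨_, e⟩
            rcases πe _ _ e with a | rfl
            · exact absurd a.2 huH
            · rfl
          · rintro rfl; exact ⟨hu, rfl⟩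
        rw [this]; exact tight_singleton h.toPre u
  obtain ⟨X', Y', r'⟩ := ih _ _ _ (card_image_lt (hH hp) (hH hq) hpq (by rw [π1 p hp, π1 q hq])) g
  obtain ⟨x, y, r⟩ := ih s H R (card_lt_card (ssubset_of_ne_of_subset hne hH)) (h.restrict hH hm)
  obtain ⟨X, Y, rr, _⟩ := h.blowup π s' (S.image π) (CR S R π) X' Y'
    (fun u => if u ∈ H then x u else 0) (fun u => if u ∈ H then y u else 0)
    (fun u hu => mem_image_of_mem π hu) hs r'
    (fun u hu w hw a ne => ⟨ne, u, hu, w, hw, a, rfl, rfl⟩)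
    (fun u _ => by
      by_cases hu : u ∈ H
      · simp [hu, hm u hu, r.xs u hu]
      · simp [hu, hm' u hu])
    (fun u _ => by
      by_cases hu : u ∈ H
      · simp [hu, hm u hu, r.ys u hu]
      · simp [hu, hm' u hu])
    (fun u _ w _ a e => by
      rcases πe _ _ e with ⟨a1, a2⟩ | rfl
      · simp only [a1, a2, if_true]; exact r.red u a1 w a2 a
      · exact absurd a (h.irr _))
    (fun u _ w _ e e' => by
      rcases πe _ _ e with ⟨a1, a2⟩ | rfl
      · simp only [a1, a2, if_true] at e'; exact r.xi u a1 w a2 e'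
      · exact Or.inl rfl)
    (fun u _ nu e => by
      rcases πe _ _ e with ⟨a1, a2⟩ | e'
      · simp only [a2, if_true]; exact r.yn u a2 nu
      · exact absurd e' nu)
  exact ⟨X, Y, rr⟩

/-- Contraction of a closed tight set and of its disjoint mirror image. -/
lemma Good.case_pair (h : Good s S R) (ih : IH V S.card) (H : Finset V) (hH : H ⊆ S)
    (hd : ∀ u ∈ H, s u ∉ H) (t : Tight s R H) (h2 : 2 ≤ H.card) (hne : H ∪ H.image s ≠ S)
    (hx : ∀ u ∈ H, ∀ w ∈ H, ¬ Adj s R u (s w))
    (hcl : ∀ w ∈ S, w ∉ H → s w ∉ H → (nb s R H w).card ≤ 1) : Rable s S R := by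
  obtain ⟨p, hp, q, hq, hpq⟩ := one_lt_card.1 h2
  set π : V → V := fun u => if u ∈ H then p else if s u ∈ H then s p else u with hπ
  have π1 : ∀ u ∈ H, π u = p := fun u hu => by simp [hπ, hu]
  have π2 : ∀ u, s u ∈ H → π u = s p := fun u hu => by
    have : u ∉ H := fun e => hd u e hu
    simp [hπ, hu, this]
  have π3 : ∀ u, u ∉ H → s u ∉ H → π u = u := fun u hu hu' => by simp [hπ, hu, hu']
  have hsp : s p ≠ p := fun e => hd p hp (by rw [e]; exact hp)
  have hs : ∀ u ∈ S, π (s u) = s (π u) := fun u _ => by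
    by_cases hu : u ∈ H
    · rw [π1 u hu, π2 _ (by rw [h.inv]; exact hu)]
    · by_cases hu' : s u ∈ H
      · rw [π2 u hu', π1 _ hu', h.inv]
      · rw [π3 u hu hu', π3 _ hu' (by rw [h.inv]; exact hu)]
  have πe : ∀ u w, π u = π w → (u ∈ H ∧ w ∈ H) ∨ (s u ∈ H ∧ s w ∈ H) ∨ (u = w) := fun u w e => by
    by_cases hu : u ∈ H
    · by_cases hw : w ∈ H
      · exact Or.inl ⟨hu, hw⟩
      · by_cases hw' : s w ∈ H
        · rw [π1 u hu, π2 w hw'] at e; exact absurd e.symm hsp
        · rw [π1 u hu, π3 w hw hw'] at e; exact absurd (e ▸ hp) hw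
    · by_cases hu' : s u ∈ H
      · by_cases hw : w ∈ H
        · rw [π2 u hu', π1 w hw] at e; exact absurd e hsp
        · by_cases hw' : s w ∈ H
          · exact Or.inr (Or.inl ⟨hu', hw'⟩)
          · rw [π2 u hu', π3 w hw hw'] at e
            exact absurd (by rw [← e, h.inv]; exact hp) hw'
      · by_cases hw : w ∈ H
        · rw [π3 u hu hu', π1 w hw] at e; exact absurd (e ▸ hp) hu
        · by_cases hw' : s w ∈ H
          · rw [π3 u hu hu', π2 w hw'] at e
            exact absurd (by rw [e, h.inv]; exact hp) hu'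
          · rw [π3 u hu hu', π3 w hw hw'] at e; exact Or.inr (Or.inr e)
  have one : ∀ w ∈ S, ∀ u u', ((u ∈ H ∧ u' ∈ H) ∨ (s u ∈ H ∧ s u' ∈ H)) → Adj s R w u →
      Adj s R w u' → π w = π u ∨ u = u' := by
    have one' : ∀ w ∈ S, ∀ u ∈ H, ∀ u' ∈ H, Adj s R w u → Adj s R w u' → w ∈ H ∨ u = u' := by
      intro w hw u hu u' hu' a a'
      by_cases hwH : w ∈ H
      · exact Or.inl hwH
      · by_cases hwH' : s w ∈ H
        · exact absurd (by rw [h.inv]; exact h.adj_symm a) (hx u hu (s w) hwH')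
        · exact Or.inr
            (card_le_one.1 (hcl w hw hwH hwH') u (mem_nb.2 ⟨hu, a⟩) u' (mem_nb.2 ⟨hu', a'⟩))
    rintro w hw u u' (⟨a1, a2⟩ | ⟨a1, a2⟩) a a'
    · rcases one' w hw u a1 u' a2 a a' with e | e
      · left; rw [π1 w e, π1 u a1]
      · exact Or.inr e
    · rcases one' (s w) (h.mem w hw) (s u) a1 (s u') a2 (h.adj_s a) (h.adj_s a') with e | e
      · left; rw [π2 w e, π2 u a1]
      · exact Or.inr (h.inj e)
  have g : Good s (S.image π) (CR S R π) := by
    apply h.contract π s h.inv hs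
    · intro u hu w hw u' hu' w' hw' r r' e1 e2
      by_contra hne'
      have e3 : u = u' ∨ w = w' := by
        by_contra hh
        push Not at hh
        have k1 := ((or_assoc.2 (πe _ _ e1)).resolve_right hh.1)
        have k2 := ((or_assoc.2 (πe _ _ e2)).resolve_right hh.2)
        rcases k1 with k1 | k1 <;> rcases k2 with k2 | k2
        · exact hne' (by rw [π1 u k1.1, π1 w k2.1])
        · exact hx u k1.1 (s w) k2.1 (by rw [h.inv]; exact Or.inl r)
        · exact hx w k2.1 (s u) k1.1 (by rw [h.inv]; exact Or.inl (h.symm _ _ r))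
        · exact hne' (by rw [π2 u k1.1, π2 w k2.1])
      have e4 : u = u' ∧ w = w' := by
        rcases e3 with rfl | rfl
        · refine ⟨rfl, ?_⟩
          rcases or_assoc.2 (πe _ _ e2) with k | k
          · exact (one u hu w w' k (Or.inl r) (Or.inr r')).resolve_left hne'
          · exact k
        · refine ⟨?_, rfl⟩
          rcases or_assoc.2 (πe _ _ e1) with k | k
          · exact (one w hw u u' k (Or.inl (h.symm _ _ r)) (Or.inr (h.symm _ _ r'))).resolve_left
              (fun e => hne' e.symm)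
          · exact k
      obtain ⟨rfl, rfl⟩ := e4
      exact absurd r' (h.nc u hu w hw r)
    · apply h.tight_fibres
      intro u hu
      by_cases huH : u ∈ H
      · have : S.filter (fun w => π w = π u) = H := by
          ext w
          simp only [mem_filter]
          constructor
          · rintro ⟨_, e⟩
            rcases πe _ _ e with a | a | rfl
            · exact a.1
            · exact absurd a.2 (hd u huH)
            · exact huH
          · intro hw; exact ⟨hH hw, by rw [π1 u huH, π1 w hw]⟩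
        rwa [this]
      · by_cases huH' : s u ∈ H
        · have : S.filter (fun w => π w = π u) = H.image s := by
            ext w
            simp only [mem_filter, mem_image_s h.toPre]
            constructor
            · rintro ⟨_, e⟩
              rcases πe _ _ e with a | a | rfl
              · exact absurd a.2 huH
              · exact a.1
              · exact huH'
            · intro hw
              exact ⟨by have := h.mem _ (hH hw); rwa [h.inv] at this, by rw [π2 u huH', π2 w hw]⟩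
          rw [this]; exact t.image h.toPre
        · have : S.filter (fun w => π w = π u) = {u} := by
            ext w
            simp only [mem_filter, mem_singleton]
            constructor
            · rintro ⟨_, e⟩
              rcases πe _ _ e with a | a | rfl
              · exact absurd a.2 huH
              · exact absurd a.2 huH'
              · rfl
            · rintro rfl; exact ⟨hu, rfl⟩
          rw [this]; exact tight_singleton h.toPre u
  set U := H ∪ H.image s with hU
  have mU : ∀ u, u ∈ U ↔ u ∈ H ∨ s u ∈ H := fun u => by rw [hU, mem_union, mem_image_s h.toPre]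
  have hUS : U ⊆ S := fun u hu => by
    rcases (mU u).1 hu with e | e
    · exact hH e
    · have := h.mem _ (hH e); rwa [h.inv] at this
  have hm : ∀ u ∈ U, s u ∈ U := fun u hu => by
    rw [mU] at hu ⊢; rw [h.inv]; exact hu.symm
  have hm' : ∀ u, u ∉ U → s u ∉ U := fun u hu e => hu (by have := hm _ e; rwa [h.inv] at this)
  have πe' : ∀ u w, π u = π w → (u ∈ U ∧ w ∈ U) ∨ u = w := fun u w e => by
    rcases πe _ _ e with a | a | a
    · exact Or.inl ⟨(mU u).2 (Or.inl a.1), (mU w).2 (Or.inl a.2)⟩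
    · exact Or.inl ⟨(mU u).2 (Or.inr a.1), (mU w).2 (Or.inr a.2)⟩
    · exact Or.inr a
  obtain ⟨X', Y', r'⟩ := ih _ _ _ (card_image_lt (hH hp) (hH hq) hpq (by rw [π1 p hp, π1 q hq])) g
  obtain ⟨x, y, r⟩ := ih s U R (card_lt_card (ssubset_of_ne_of_subset hne hUS)) (h.restrict hUS hm)
  obtain ⟨X, Y, rr, _⟩ := h.blowup π s (S.image π) (CR S R π) X' Y'
    (fun u => if u ∈ U then x u else 0) (fun u => if u ∈ U then y u else 0)
    (fun u hu => mem_image_of_mem π hu) hs r'
    (fun u hu w hw a ne => ⟨ne, u, hu, w, hw, a, rfl, rfl⟩)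
    (fun u _ => by
      by_cases hu : u ∈ U
      · simp [hu, hm u hu, r.xs u hu]
      · simp [hu, hm' u hu])
    (fun u _ => by
      by_cases hu : u ∈ U
      · simp [hu, hm u hu, r.ys u hu]
      · simp [hu, hm' u hu])
    (fun u _ w _ a e => by
      rcases πe' _ _ e with ⟨a1, a2⟩ | rfl
      · simp only [a1, a2, if_true]; exact r.red u a1 w a2 a
      · exact absurd a (h.irr _))
    (fun u _ w _ e e' => by
      rcases πe' _ _ e with ⟨a1, a2⟩ | rfl
      · simp only [a1, a2, if_true] at e'; exact r.xi u a1 w a2 e'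
      · exact Or.inl rfl)
    (fun u _ nu e => by
      rcases πe' _ _ e with ⟨a1, a2⟩ | e'
      · simp only [a2, if_true]; exact r.yn u a2 nu
      · exact absurd e' nu)
  exact ⟨X, Y, rr⟩

/-- Merging two fixed vertices without conflicting neighbours. -/
lemma Good.merge (h : Good s S R) (ih : IH V S.card)
    (hnt : ∀ T ⊆ S, 2 ≤ T.card → ¬ Tight s R T) {p q z : V} (hp : p ∈ S) (hq : q ∈ S) (hz : z ∈ S)
    (fp : s p = p) (fq : s q = q) (fz : s z = z) (hpq : p ≠ q) (hzp : z ≠ p) (hzq : z ≠ q)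
    (hc : ∀ w ∈ S, R p w → ¬ R q (s w)) :
    ∃ X Y, Rl s S R X Y ∧ ((X z < X p ∧ X p < X q) ∨ (X q < X p ∧ X p < X z)) := by
  set π : V → V := fun u => if u = q then p else u with hπ
  have π1 : π q = p := by simp [hπ]
  have π2 : ∀ u, u ≠ q → π u = u := fun u hu => by simp [hπ, hu]
  have hs : ∀ u ∈ S, π (s u) = s (π u) := fun u _ => by
    by_cases hu : u = q
    · rw [hu, fq, π1, fp]
    · rw [π2 u hu, π2 _ (fun e => hu (h.inj (e.trans fq.symm)))]
  have πe : ∀ u w, π u = π w → u = w ∨ (u = p ∧ w = q) ∨ (u = q ∧ w = p) := fun u w e => by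
    by_cases hu : u = q <;> by_cases hw : w = q
    · exact Or.inl (hu.trans hw.symm)
    · rw [hu, π1, π2 w hw] at e; exact Or.inr (Or.inr ⟨hu, e.symm⟩)
    · rw [hw, π1, π2 u hu] at e; exact Or.inr (Or.inl ⟨e, hw⟩)
    · rw [π2 u hu, π2 w hw] at e; exact Or.inl e
  have hc' : ∀ w ∈ S, R q w → ¬ R p (s w) := fun w hw a b =>
    hc (s w) (h.mem w hw) b (by rw [h.inv]; exact a)
  have πp : π p = p := π2 p hpq
  have g : Good s (S.image π) (CR S R π) := by
    apply h.contract π s h.inv hs
    · intro u hu w hw u' hu' w' hw' r r' e1 e2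
      rcases πe _ _ e1 with rfl | ⟨rfl, rfl⟩ | ⟨rfl, rfl⟩ <;>
        rcases πe _ _ e2 with rfl | ⟨rfl, rfl⟩ | ⟨rfl, rfl⟩
      · exact absurd r' (h.nc u hu w hw r)
      · rw [fq] at r'; exact absurd (h.symm _ _ r') (hc u hu (h.symm _ _ r))
      · rw [fp] at r'; exact absurd (h.symm _ _ r') (hc' u hu (h.symm _ _ r))
      · rw [fq] at r'; exact absurd r' (hc w hw r)
      · rfl
      · rw [π1, πp]
      · rw [fp] at r'; exact absurd r' (hc' w hw r)
      · rw [π1, πp]
      · rfl
    · intro T hT hne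
      obtain ⟨t0, ht0⟩ := hne
      obtain ⟨u0, hu0, e0⟩ := mem_image.1 (hT ht0)
      by_cases hpT : p ∈ T
      · have a1 := h.deficit hnt (T := S.filter (fun u => π u ∈ T)) (filter_subset _ _) (by
          apply one_lt_card.2
          refine ⟨p, ?_, q, ?_, hpq⟩
          · rw [mem_inter, mem_image_s h.toPre, fp, and_self, mem_filter, πp]; exact ⟨hp, hpT⟩
          · rw [mem_inter, mem_image_s h.toPre, fq, and_self, mem_filter, π1]; exact ⟨hq, hpT⟩)
        have a2 : S.filter (fun u => π u ∈ T) ⊆ insert q T := by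
          intro u hu
          rw [mem_filter] at hu
          by_cases e : u = q
          · exact mem_insert.2 (Or.inl e)
          · exact mem_insert.2 (Or.inr (π2 u e ▸ hu.2))
        have a3 := (card_le_card a2).trans (card_insert_le q T)
        omega
      · have a1 := h.sparse (S.filter (fun u => π u ∈ T)) (filter_subset _ _)
          ⟨u0, mem_filter.2 ⟨hu0, e0 ▸ ht0⟩⟩
        have a2 : S.filter (fun u => π u ∈ T) ⊆ T := by
          intro u hu
          rw [mem_filter] at hu
          by_cases e : u = q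
          · rw [e, π1] at hu; exact absurd hu.2 hpT
          · exact π2 u e ▸ hu.2
        have a3 := card_le_card a2
        omega
  obtain ⟨X', Y', r'⟩ := ih _ _ _ (card_image_lt hp hq hpq (by rw [π1, πp])) g
  have πz : π z = z := π2 z hzq
  have hX : X' z ≠ X' p := fun e => by
    have := r'.xi z (πz ▸ mem_image_of_mem π hz) p (πp ▸ mem_image_of_mem π hp) e
    rw [fp, or_self] at this
    exact hzp this
  have main : ∀ σ : ℝ, σ ≠ 0 → ∃ X Y, Rl s S R X Y ∧
      (∀ u ∈ S, ∀ w ∈ S, X' (π u) < X' (π w) → X u < X w) ∧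
      (∀ u ∈ S, ∀ w ∈ S, π u = π w → (if u = q then σ else 0) < (if w = q then σ else 0) →
        X u < X w) := by
    intro σ hσ
    apply h.blowup π s (S.image π) (CR S R π) X' Y' (fun u => if u = q then σ else 0) (fun _ => 0)
      (fun u hu => mem_image_of_mem π hu) hs r'
      (fun u hu w hw a ne => ⟨ne, u, hu, w, hw, a, rfl, rfl⟩)
    · intro u _
      by_cases hu : u = q
      · simp [hu, fq]
      · have : s u ≠ q := fun e => hu (h.inj (e.trans fq.symm))
        simp [hu, this]
    · intro u _; simp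
    · intro u hu w hw a e
      rcases πe _ _ e with rfl | ⟨rfl, rfl⟩ | ⟨rfl, rfl⟩
      · exact absurd a (h.irr _)
      · exact absurd (Or.inl a) (h.not_adj_fixed hu hw fp fq)
      · exact absurd (Or.inl a) (h.not_adj_fixed hu hw fq fp)
    · intro u _ w _ e e'
      rcases πe _ _ e with rfl | ⟨rfl, rfl⟩ | ⟨rfl, rfl⟩
      · exact Or.inl rfl
      · simp [hpq] at e'; exact absurd e'.symm hσ
      · simp [hpq] at e'; exact absurd e' hσ
    · intro u _ nu e
      rcases πe _ _ e with e' | ⟨e1, rfl⟩ | ⟨e1, rfl⟩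
      · exact absurd e' nu
      · exact absurd fq nu
      · exact absurd fp nu
  rcases lt_or_gt_of_ne hX with l | l
  · obtain ⟨X, Y, r, k1, k2⟩ := main 1 one_ne_zero
    refine ⟨X, Y, r, Or.inl ⟨k1 z hz p hp (by rw [πz, πp]; exact l),
      k2 p hp q hq (by rw [π1, πp]) (by simp [hpq])⟩⟩
  · obtain ⟨X, Y, r, k1, k2⟩ := main (-1) (by norm_num)
    refine ⟨X, Y, r, Or.inr ⟨k2 q hq p hp (by rw [π1, πp]) (by simp [hpq]),
      k1 p hp z hz (by rw [πz, πp]; exact l)⟩⟩

/-- Adding a red edge and its mirror image. -/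
lemma Good.add_edge (h : Good s S R) (hnt : ∀ T ⊆ S, 2 ≤ T.card → ¬ Tight s R T) {p q : V}
    (hpq : p ≠ q) (nb' : ¬ R (s p) (s q)) (n1 : s p ≠ q) (n2 : ¬ (s p = p ∧ s q = q)) :
    Good s S (fun u w => R u w ∨ (u = p ∧ w = q) ∨ (u = q ∧ w = p)) where
  inv := h.inv
  symm := by
    rintro u w (r | r | r)
    · exact Or.inl (h.symm _ _ r)
    · exact Or.inr (Or.inr r.symm)
    · exact Or.inr (Or.inl r.symm)
  irr := by
    rintro u (r | r | r)
    · exact h.irr u r
    · exact hpq (r.1.symm.trans r.2)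
    · exact hpq (r.2.symm.trans r.1)
  mem := h.mem
  nc := by
    have n1' : s q ≠ p := fun e => n1 (by rw [← e, h.inv])
    rintro u hu w hw (r | ⟨rfl, rfl⟩ | ⟨rfl, rfl⟩) (r' | ⟨e1, e2⟩ | ⟨e1, e2⟩)
    · exact h.nc u hu w hw r r'
    · rw [← e1, ← e2, h.inv, h.inv] at nb'; exact nb' r
    · rw [← e1, ← e2, h.inv, h.inv] at nb'; exact nb' (h.symm _ _ r)
    · exact nb' r'
    · exact n2 ⟨e1, e2⟩
    · exact n1 e1
    · exact nb' (h.symm _ _ r')
    · exact n1 e2
    · exact n2 ⟨e2, e1⟩
  sparse := by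
    intro T hT hne
    set A : Finset (V × V) := if p ∈ T ∧ q ∈ T then {(p, q), (q, p)} else ∅ with hA
    set B : Finset (V × V) := if s p ∈ T ∧ s q ∈ T then {(s p, s q), (s q, s p)} else ∅ with hB
    have h1 : prs s (fun u w => R u w ∨ (u = p ∧ w = q) ∨ (u = q ∧ w = p)) T T
        ⊆ prs s R T T ∪ (A ∪ B) := by
      rintro ⟨u, w⟩ hx
      rw [mem_prs] at hx
      obtain ⟨hu, hw, a⟩ := hx
      simp only at hu hw a
      simp only [mem_union, mem_prs]
      rcases a with (r | ⟨rfl, rfl⟩ | ⟨rfl, rfl⟩) | (r | ⟨e1, e2⟩ | ⟨e1, e2⟩)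
      · exact Or.inl ⟨hu, hw, Or.inl r⟩
      · right; left; simp [hA, hu, hw]
      · right; left; simp [hA, hu, hw]
      · exact Or.inl ⟨hu, hw, Or.inr r⟩
      · right; right; simp [hB, ← e1, ← e2, h.inv, hu, hw]
      · right; right; simp [hB, ← e1, ← e2, h.inv, hu, hw]
    have h2 : D s (fun u w => R u w ∨ (u = p ∧ w = q) ∨ (u = q ∧ w = p)) T
        ≤ D s R T + (A.card + B.card) :=
      (card_le_card h1).trans ((card_union_le _ _).trans (Nat.add_le_add_left (card_union_le _ _) _))
    have h3 := h.sparse T hT hne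
    obtain ⟨k, hk⟩ := D_even h.toPre T
    by_cases c1 : p ∈ T ∧ q ∈ T <;> by_cases c2 : s p ∈ T ∧ s q ∈ T
    · have a1 : A.card ≤ 2 := by rw [hA, if_pos c1]; exact card_le_two
      have a2 : B.card ≤ 2 := by rw [hB, if_pos c2]; exact card_le_two
      have a3 := h.deficit hnt hT (by
        apply one_lt_card.2
        refine ⟨p, ?_, q, ?_, hpq⟩
        · rw [mem_inter, mem_image_s h.toPre]; exact ⟨c1.1, c2.1⟩
        · rw [mem_inter, mem_image_s h.toPre]; exact ⟨c1.2, c2.2⟩)
      omega
    · have a1 : A.card ≤ 2 := by rw [hA, if_pos c1]; exact card_le_two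
      have a2 : B.card = 0 := by rw [hB, if_neg c2]; exact card_empty
      have a3 := hnt T hT (one_lt_card.2 ⟨p, c1.1, q, c1.2, hpq⟩)
      unfold Tight at a3
      omega
    · have a1 : A.card = 0 := by rw [hA, if_neg c1]; exact card_empty
      have a2 : B.card ≤ 2 := by rw [hB, if_pos c2]; exact card_le_two
      have a3 := hnt T hT (one_lt_card.2 ⟨s p, c2.1, s q, c2.2, fun e => hpq (h.inj e)⟩)
      unfold Tight at a3
      omega
    · have a1 : A.card = 0 := by rw [hA, if_neg c1]; exact card_empty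
      have a2 : B.card = 0 := by rw [hB, if_neg c2]; exact card_empty
      omega

end Pool.Agent.H615Z.Iso
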