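import Mathlib
import Pool.Agent.H615Z.IsoContr

set_option autoImplicit false

namespace Pool.Agent.H615Z.Iso

open Finset

variable {V : Type*} [DecidableEq V] {s : V → V} {R : V → V → Prop} {S : Finset V}

lemma card_erase2_lt {v w : V} (hv : v ∈ S) : ((S.erase v).erase w).card < S.card :=
  lt_of_le_of_lt card_erase_le (card_erase_lt_of_mem hv)

lemma erase2_subset (v w : V) : (S.erase v).erase w ⊆ S :=
  (erase_subset _ _).trans (erase_subset _ _)

lemma Good.good_erase2 (h : Good s S R) (v : V) : Good s ((S.erase v).erase (s v)) R :=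
  h.restrict (erase2_subset _ _) (h.mem_erase2 v)

lemma Good.nb_mem_erase2 (h : Good s S R) {v u : V} (hv : v ∈ S) (hu : u ∈ S)
    (a : Adj s R v u) : u ∈ (S.erase v).erase (s v) := by
  simp only [mem_erase]
  exact ⟨fun e => h.not_adj_s hv (e ▸ a), (h.adj_ne a).symm, hu⟩

omit [DecidableEq V] in
/-- Placing a vertex with at most two neighbours. -/
lemma Good.place2 (h : Good s S R) {H : Finset V} (hH : H ⊆ S) {w : V} (hw : w ∈ S)
    (h2 : (nb s R H w).card ≤ 2) (X Y : V → ℝ)
    (hne : ∀ u ∈ H, ∀ u' ∈ H, u ≠ u' → ¬ (X u = X u' ∧ Y u = Y u')) (FX FY : Finset ℝ) :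
    ∃ x y, x ∉ FX ∧ y ∉ FY ∧ (∀ u ∈ H, R w u → 0 < (x - X u) * (y - Y u)) ∧
      (∀ u ∈ H, R (s w) (s u) → (x - X u) * (y - Y u) < 0) := by
  classical
  by_cases hb : ∃ c ∈ H, R (s w) (s c)
  · by_cases hr : ∃ a ∈ H, R w a
    · obtain ⟨c, hc, rc⟩ := hb
      obtain ⟨a, ha, ra⟩ := hr
      have hac : a ≠ c := fun e => h.nc w hw a (hH ha) ra (e ▸ rc)
      have hsub : ({a, c} : Finset V) ⊆ nb s R H w := by
        intro u hu
        simp only [mem_insert, mem_singleton] at hu
        rcases hu with rfl | rfl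
        · exact mem_nb.2 ⟨ha, Or.inl ra⟩
        · exact mem_nb.2 ⟨hc, Or.inr rc⟩
      have heq : ({a, c} : Finset V) = nb s R H w :=
        eq_of_subset_of_card_le hsub (by rw [card_pair hac]; exact h2)
      obtain ⟨x, y, k1, k2, k3, _, k5⟩ := geo3 (notBad_self (hne c hc a ha hac.symm)) FX FY
      refine ⟨x, y, k1, k2, fun u hu r => ?_, fun u hu r => ?_⟩
      · have : u ∈ ({a, c} : Finset V) := heq ▸ mem_nb.2 ⟨hu, Or.inl r⟩
        simp only [mem_insert, mem_singleton] at this
        rcases this with rfl | rfl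
        · exact k3
        · exact absurd rc (h.nc w hw u (hH hu) r)
      · have : u ∈ ({a, c} : Finset V) := heq ▸ mem_nb.2 ⟨hu, Or.inr r⟩
        simp only [mem_insert, mem_singleton] at this
        rcases this with rfl | rfl
        · exact absurd r (h.nc w hw u (hH hu) ra)
        · exact k5
    · obtain ⟨x, y, k1, k2, k3⟩ := geo_blue H X Y FX FY
      exact ⟨x, y, k1, k2, fun u hu r => absurd ⟨u, hu, r⟩ hr, fun u hu _ => k3 u hu⟩
  · obtain ⟨x, y, k1, k2, k3⟩ := geo_red H X Y FX FY
    exact ⟨x, y, k1, k2, fun u hu _ => k3 u hu, fun u hu r => absurd ⟨u, hu, r⟩ hb⟩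

lemma Good.low_pair (h : Good s S R) (ih : IH V S.card) {v : V} (hv : v ∈ S) (nv : s v ≠ v)
    (h2 : (nb s R S v).card ≤ 2) : Rable s S R := by
  obtain ⟨X, Y, r⟩ := ih s _ R (card_erase2_lt hv) (h.good_erase2 v)
  have h3 : (nb s R ((S.erase v).erase (s v)) v).card ≤ 2 := by
    refine le_trans (card_le_card ?_) h2
    intro u hu
    rw [mem_nb] at hu ⊢
    exact ⟨erase2_subset _ _ hu.1, hu.2⟩
  obtain ⟨x, y, k1, k2, k3, k4⟩ := h.place2 (erase2_subset v (s v)) hv h3 X Y
    (fun u hu u' hu' ne => r.ne_pt hu hu' ne) (((S.erase v).erase (s v)).image X) {0}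
  exact h.ext_pair hv nv r x y k1 (by simpa using k2) k3 k4

lemma Good.low_fixed (h : Good s S R) (ih : IH V S.card) {v : V} (hv : v ∈ S) (fv : s v = v)
    (h2 : (nb s R S v).card ≤ 2) : Rable s S R := by
  obtain ⟨X, Y, r⟩ := ih s _ R (card_erase_lt_of_mem hv)
    (h.restrict (erase_subset v S) (h.mem_erase1 fv))
  by_cases hr : ∃ a ∈ S.erase v, R v a
  · obtain ⟨a, ha, ra⟩ := hr
    have haS := mem_of_mem_erase ha
    have na : s a ≠ a := fun e => h.not_adj_fixed hv haS fv e (Or.inl ra)
    have uniq : ∀ u ∈ S.erase v, R v u → u = a := by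
      intro u hu ru
      by_contra hne
      have huS := mem_of_mem_erase hu
      have hsub : ({u, a, s a} : Finset V) ⊆ nb s R S v := by
        intro z hz
        simp only [mem_insert, mem_singleton] at hz
        rcases hz with rfl | rfl | rfl
        · exact mem_nb.2 ⟨huS, Or.inl ru⟩
        · exact mem_nb.2 ⟨haS, Or.inl ra⟩
        · exact mem_nb.2 ⟨h.mem a haS, Or.inr (by rw [fv, h.inv]; exact ra)⟩
      have hc : ({u, a, s a} : Finset V).card = 3 := by
        rw [card_eq_three]
        refine ⟨_, _, _, hne, fun e => ?_, na.symm, rfl⟩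
        exact h.nc v hv a haS ra (by rw [fv, ← e]; exact ru)
      have := card_le_card hsub
      omega
    rcases lt_or_gt_of_ne (r.yn a ha na) with l | l
    · obtain ⟨x, k1, k2⟩ := exists_gt_notMem (X a) ((S.erase v).image X)
      refine h.ext_fix fv r x k2 (fun u hu ru => ?_)
      rw [uniq u hu ru]
      apply mul_pos <;> linarith
    · obtain ⟨x, k1, k2⟩ := exists_lt_notMem (X a) ((S.erase v).image X)
      refine h.ext_fix fv r x k2 (fun u hu ru => ?_)
      rw [uniq u hu ru]
      apply mul_pos_of_neg_of_neg <;> linarith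
  · obtain ⟨x, _, k2⟩ := exists_gt_notMem 0 ((S.erase v).image X)
    exact h.ext_fix fv r x k2 (fun u hu ru => absurd ⟨u, hu, ru⟩ hr)

lemma Good.ext_nonblue (h : Good s S R) (ih : IH V S.card) {v : V} (hv : v ∈ S) (nv : s v ≠ v)
    (hb : ∀ u ∈ S, ¬ R (s v) (s u)) : Rable s S R := by
  obtain ⟨X, Y, r⟩ := ih s _ R (card_erase2_lt hv) (h.good_erase2 v)
  obtain ⟨x, y, k1, k2, k3⟩ := geo_red ((S.erase v).erase (s v)) X Y
    (((S.erase v).erase (s v)).image X) {0}
  exact h.ext_pair hv nv r x y k1 (by simpa using k2) (fun u hu _ => k3 u hu)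
    (fun u hu b => absurd b (hb u (erase2_subset _ _ hu)))

lemma Good.ext_abc (h : Good s S R) {v a b c : V} (hv : v ∈ S) (nv : s v ≠ v)
    (hr : ∀ u ∈ S, R v u → u = a ∨ u = b) (hb : ∀ u ∈ S, R (s v) (s u) → u = c) {X Y : V → ℝ}
    (r : Rl s ((S.erase v).erase (s v)) R X Y)
    (nbad : NotBad (X a) (Y a) (X b) (Y b) (X c) (Y c)) : Rable s S R := by
  obtain ⟨x, y, k1, k2, k3, k4, k5⟩ := geo3 nbad (((S.erase v).erase (s v)).image X) {0}
  refine h.ext_pair hv nv r x y k1 (by simpa using k2) (fun u hu ru => ?_) (fun u hu ru => ?_)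
  · rcases hr u (erase2_subset _ _ hu) ru with rfl | rfl
    · exact k3
    · exact k4
  · rw [hb u (erase2_subset _ _ hu) ru]; exact k5

/-- A non-symmetric placement of a tight set with one more vertex. -/
lemma Good.nreal_insert (h : Good s S R) (ih : IH V S.card) (H : Finset V) (hH : H ⊆ S)
    (hd : ∀ u ∈ H, s u ∉ H) (t : Tight s R H) (hne : H ∪ H.image s ≠ S) {w : V} (hw : w ∈ S)
    (hwH : w ∉ H) :
    ∃ x y : V → ℝ, (∀ u ∈ insert w H, ∀ u' ∈ insert w H, x u = x u' → u = u') ∧
      (∀ u ∈ insert w H, u ≠ w → y u ≠ y w) ∧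
      (∀ u ∈ insert w H, ∀ u' ∈ insert w H, R u u' → 0 < (x u - x u') * (y u - y u')) ∧
      (∀ u ∈ insert w H, ∀ u' ∈ insert w H, R (s u) (s u') → (x u - x u') * (y u - y u') < 0) := by
  set U := H ∪ H.image s with hU
  have mU : ∀ u, u ∈ U ↔ u ∈ H ∨ s u ∈ H := fun u => by rw [hU, mem_union, mem_image_s h.toPre]
  have hUS : U ⊆ S := fun u hu => by
    rcases (mU u).1 hu with e | e
    · exact hH e
    · have := h.mem _ (hH e); rwa [h.inv] at this
  have hm : ∀ u ∈ U, s u ∈ U := fun u hu => by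
    rw [mU] at hu ⊢; rw [h.inv]; exact hu.symm
  have HU : ∀ u ∈ H, u ∈ U := fun u hu => (mU u).2 (Or.inl hu)
  obtain ⟨X, Y, r⟩ := ih s U R (card_lt_card (ssubset_of_ne_of_subset hne hUS)) (h.restrict hUS hm)
  obtain ⟨x, y, k1, k2, k3, k4⟩ := h.place2 hH hw (h.nb_le_two hH t hw hwH) X Y
    (fun u hu u' hu' ne => r.ne_pt (HU u hu) (HU u' hu') ne) (H.image X) (H.image Y)
  have k1' : ∀ u ∈ H, x ≠ X u := fun u hu e => k1 (mem_image.2 ⟨u, hu, e.symm⟩)
  have k2' : ∀ u ∈ H, y ≠ Y u := fun u hu e => k2 (mem_image.2 ⟨u, hu, e.symm⟩)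
  set X' : V → ℝ := fun u => if u = w then x else X u with hX'
  set Y' : V → ℝ := fun u => if u = w then y else Y u with hY'
  have nm : ∀ u ∈ H, u ≠ w := fun u hu e => hwH (e ▸ hu)
  have Xw : X' w = x := by simp [hX']
  have Yw : Y' w = y := by simp [hY']
  have Xo : ∀ u ∈ H, X' u = X u := fun u hu => by simp [hX', nm u hu]
  have Yo : ∀ u ∈ H, Y' u = Y u := fun u hu => by simp [hY', nm u hu]
  refine ⟨X', Y', ?_, ?_, ?_, ?_⟩
  · intro u hu u' hu' e
    rw [mem_insert] at hu hu'
    rcases hu with rfl | hu <;> rcases hu' with rfl | hu'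
    · rfl
    · rw [Xw, Xo u' hu'] at e; exact absurd e (k1' u' hu')
    · rw [Xw, Xo u hu] at e; exact absurd e.symm (k1' u hu)
    · rw [Xo u hu, Xo u' hu'] at e
      rcases r.xi u (HU u hu) u' (HU u' hu') e with e' | e'
      · exact e'
      · exact absurd (e' ▸ hu) (hd u' hu')
  · intro u hu ne
    rcases mem_insert.1 hu with rfl | hu
    · exact absurd rfl ne
    · rw [Yw, Yo u hu]; exact (k2' u hu).symm
  · intro u hu u' hu' a
    rw [mem_insert] at hu hu'
    rcases hu with rfl | hu <;> rcases hu' with rfl | hu'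
    · exact absurd a (h.irr _)
    · rw [Xw, Yw, Xo u' hu', Yo u' hu']; exact k3 u' hu' a
    · rw [Xw, Yw, Xo u hu, Yo u hu]; have := k3 u hu (h.symm _ _ a); nlinarith
    · rw [Xo u hu, Yo u hu, Xo u' hu', Yo u' hu']; exact r.red u (HU u hu) u' (HU u' hu') a
  · intro u hu u' hu' a
    rw [mem_insert] at hu hu'
    rcases hu with rfl | hu <;> rcases hu' with rfl | hu'
    · exact absurd a (h.irr _)
    · rw [Xw, Yw, Xo u' hu', Yo u' hu']; exact k4 u' hu' a
    · rw [Xw, Yw, Xo u hu, Yo u hu]; have := k4 u hu (h.symm _ _ a); nlinarith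
    · rw [Xo u hu, Yo u hu, Xo u' hu', Yo u' hu']; exact r.blue hm (HU u hu) (HU u' hu') a

lemma Good.image_subset (h : Good s S R) {T : Finset V} (hT : T ⊆ S) : T.image s ⊆ S :=
  fun u hu => by
    have := h.mem _ (hT ((mem_image_s h.toPre).1 hu))
    rwa [h.inv] at this

lemma Pre.union_image_mem (h : Pre s R) (T : Finset V) :
    ∀ u ∈ T ∪ T.image s, s u ∈ T ∪ T.image s := by
  intro u hu
  rw [mem_union, mem_image_s h] at hu ⊢
  rw [h.inv]; exact hu.symm

/-- The case of a proper symmetric tight set. -/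
lemma Good.case2 (h : Good s S R) (ih : IH V S.card) (h3 : ∀ v ∈ S, 3 ≤ (nb s R S v).card)
    (hex : ∃ H ⊆ S, (∀ u ∈ H, s u ∈ H) ∧ Tight s R H ∧ 2 ≤ H.card ∧ H ≠ S) : Rable s S R := by
  classical
  obtain ⟨H0, k1, k2, k3, k4, k5⟩ := hex
  obtain ⟨H, hH, hmax⟩ := exists_max_image
    (S.powerset.filter (fun H => (∀ u ∈ H, s u ∈ H) ∧ Tight s R H ∧ 2 ≤ H.card ∧ H ≠ S))
    Finset.card ⟨H0, mem_filter.2 ⟨mem_powerset.2 k1, k2, k3, k4, k5⟩⟩
  rw [mem_filter, mem_powerset] at hH
  obtain ⟨hHS, hm, t, h2, hne⟩ := hH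
  apply h.case_sym ih H hHS hm t h2 hne
  intro w hw hwH
  by_contra hc
  push Not at hc
  have t1 : Tight s R (insert w H) := Good.tight_insert h.toPre t hwH hc
  have hle := h.nb_le_two hHS t hw hwH
  by_cases fw : s w = w
  · have hm1 : ∀ u ∈ insert w H, s u ∈ insert w H := by
      intro u hu
      rcases mem_insert.1 hu with rfl | hu
      · rw [fw]; exact mem_insert_self _ _
      · exact mem_insert_of_mem (hm u hu)
    by_cases e : insert w H = S
    · have hsub : nb s R S w ⊆ nb s R H w := by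
        intro u hu
        rw [mem_nb] at hu ⊢
        rw [← e] at hu
        rcases mem_insert.1 hu.1 with rfl | hu'
        · exact absurd hu.2 (h.adj_irr _)
        · exact ⟨hu', hu.2⟩
      have := card_le_card hsub
      have := h3 w hw
      omega
    · have := hmax (insert w H) (mem_filter.2 ⟨mem_powerset.2 (insert_subset hw hHS), hm1, t1,
        h2.trans (card_le_card (subset_insert _ _)), e⟩)
      rw [card_insert_of_notMem hwH] at this
      omega
  · have hsw : s w ∉ H := fun e => hwH (by have := hm _ e; rwa [h.inv] at this)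
    have hsw' : s w ∉ insert w H := fun e => (mem_insert.1 e).elim fw hsw
    have t2 : Tight s R (insert (s w) (insert w H)) := by
      apply Good.tight_insert h.toPre t1 hsw'
      refine le_trans hc ?_
      rw [← nb_card_s h.toPre hm w]
      apply card_le_card
      intro u hu
      rw [mem_nb] at hu ⊢
      exact ⟨mem_insert_of_mem hu.1, hu.2⟩
    have hm1 : ∀ u ∈ insert (s w) (insert w H), s u ∈ insert (s w) (insert w H) := by
      intro u hu
      simp only [mem_insert] at hu ⊢
      rcases hu with rfl | rfl | hu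
      · rw [h.inv]; exact Or.inr (Or.inl rfl)
      · exact Or.inl rfl
      · exact Or.inr (Or.inr (hm u hu))
    by_cases e : insert (s w) (insert w H) = S
    · have hsub : nb s R S w ⊆ nb s R H w := by
        intro u hu
        rw [mem_nb] at hu ⊢
        rw [← e] at hu
        rcases mem_insert.1 hu.1 with rfl | hu'
        · exact absurd hu.2 (h.not_adj_s hw)
        · rcases mem_insert.1 hu' with rfl | hu'
          · exact absurd hu.2 (h.adj_irr _)
          · exact ⟨hu', hu.2⟩
      have := card_le_card hsub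
      have := h3 w hw
      omega
    · have := hmax _ (mem_filter.2 ⟨mem_powerset.2
        (insert_subset (h.mem w hw) (insert_subset hw hHS)), hm1, t2,
        h2.trans (card_le_card ((subset_insert _ _).trans (subset_insert _ _))), e⟩)
      rw [card_insert_of_notMem hsw', card_insert_of_notMem hwH] at this
      omega

/-- The case of a tight set disjoint from its mirror image. -/
lemma Good.case3 (h : Good s S R) (ih : IH V S.card)
    (hno : ∀ H ⊆ S, (∀ u ∈ H, s u ∈ H) → Tight s R H → 2 ≤ H.card → H = S)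
    (hex : ∃ H ⊆ S, (∀ u ∈ H, s u ∉ H) ∧ Tight s R H ∧ 2 ≤ H.card ∧ H ∪ H.image s ≠ S) :
    Rable s S R := by
  classical
  obtain ⟨H0, k1, k2, k3, k4, k5⟩ := hex
  obtain ⟨H, hH, hmax⟩ := exists_max_image
    (S.powerset.filter (fun H => (∀ u ∈ H, s u ∉ H) ∧ Tight s R H ∧ 2 ≤ H.card ∧
      H ∪ H.image s ≠ S))
    Finset.card ⟨H0, mem_filter.2 ⟨mem_powerset.2 k1, k2, k3, k4, k5⟩⟩
  rw [mem_filter, mem_powerset] at hH
  obtain ⟨hHS, hd, t, h2, hne⟩ := hH
  have hx : ∀ u ∈ H, ∀ w ∈ H, ¬ Adj s R u (s w) := by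
    intro u hu w hw a
    apply hne
    apply hno _ (union_subset hHS (h.image_subset hHS)) (h.union_image_mem H) _
      (h2.trans (card_le_card subset_union_left))
    have a1 := D_supermod h.toPre H (H.image s)
    have a2 := card_union_add_card_inter H (H.image s)
    have a3 : H ∩ H.image s = ∅ := by
      ext z
      simp only [mem_inter, mem_image_s h.toPre, notMem_empty, iff_false]
      exact fun hz => hd z hz.1 hz.2
    rw [a3, D_image h.toPre, D_empty] at a1
    rw [a3, card_image_s h.toPre, card_empty] at a2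
    have mm : ∀ p ∈ H, ∀ q ∈ H, Adj s R p (s q) →
        (p, s q) ∈ prs s R (H \ H.image s) (H.image s \ H) := by
      intro p hp q hq aa
      rw [mem_prs]
      simp only [mem_sdiff, mem_image_s h.toPre, h.inv]
      exact ⟨⟨hp, hd p hp⟩, ⟨hq, hd q hq⟩, aa⟩
    have huw : u ≠ w := fun e => h.not_adj_s (hHS hu) (by rw [← e] at a; exact a)
    have m1 := mm u hu w hw a
    have m2 := mm w hw u hu (by have := h.adj_symm (h.adj_s a); rwa [h.inv] at this)
    have := one_lt_card.2 ⟨_, m1, _, m2, fun e => huw (congrArg Prod.fst e)⟩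
    unfold Tight at t ⊢
    omega
  by_cases hcl : ∀ w ∈ S, w ∉ H → s w ∉ H → (nb s R H w).card ≤ 1
  · exact h.case_pair ih H hHS hd t h2 hne hx hcl
  push Not at hcl
  obtain ⟨w, hw, hwH, hswH, hc⟩ := hcl
  have t1 : Tight s R (insert w H) := Good.tight_insert h.toPre t hwH hc
  have hKS : insert w H ⊆ S := insert_subset hw hHS
  have h2' : 2 ≤ (insert w H).card := h2.trans (card_le_card (subset_insert _ _))
  obtain ⟨x, y, r1, r2, r3, r4⟩ := h.nreal_insert ih H hHS hd t hne hw hwH
  by_cases fw : s w = w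
  · have hU : insert w H ∪ (insert w H).image s = S := by
      apply hno _ (union_subset hKS (h.image_subset hKS)) (h.union_image_mem _) _
        (h2'.trans (card_le_card subset_union_left))
      apply h.tight_union hKS t1 (t1.image h.toPre)
      exact ⟨w, mem_inter.2 ⟨mem_insert_self _ _,
        (mem_image_s h.toPre).2 (by rw [fw]; exact mem_insert_self _ _)⟩⟩
    refine h.assemble2 _ hKS t1 hU w (mem_insert_self _ _) fw ?_ x y r1 r2 r3 r4
    intro u hu hsu
    rcases mem_insert.1 hu with e | hu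
    · exact e
    · rcases mem_insert.1 hsu with e | hsu
      · exact h.inj (e.trans fw.symm)
      · exact absurd hsu (hd u hu)
  · have hd' : ∀ u ∈ insert w H, s u ∉ insert w H := by
      intro u hu hsu
      rcases mem_insert.1 hu with rfl | hu <;> rcases mem_insert.1 hsu with e | hsu
      · exact fw e
      · exact hswH hsu
      · exact hswH (by rw [← e, h.inv]; exact hu)
      · exact hd u hu hsu
    have hU : insert w H ∪ (insert w H).image s = S := by
      by_contra e
      have := hmax _ (mem_filter.2 ⟨mem_powerset.2 hKS, hd', t1, h2', e⟩)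
      rw [card_insert_of_notMem hwH] at this
      omega
    exact h.assemble1 _ hKS t1 hU hd' x y r1 r3 r4

end Pool.Agent.H615Z.Iso
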