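import Mathlib
import Pool.Agent.H615Z.IsoLow

set_option autoImplicit false

namespace Pool.Agent.H615Z.Iso

open Finset

variable {V : Type*} [DecidableEq V] {s : V → V} {R : V → V → Prop} {S : Finset V}

lemma D_ins2 (h : Pre s R) {T : Finset V} {w p q : V} (hw : w ∉ T) (hp : p ∈ T) (hq : q ∈ T)
    (hpq : p ≠ q) (ap : Adj s R w p) (aq : Adj s R w q) : D s R T + 4 ≤ D s R (insert w T) := by
  have := D_insert_ge h hw (N := {p, q}) (by
    intro u hu; simp only [mem_insert, mem_singleton] at hu; rcases hu with rfl | rfl <;> assumption)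
    (by intro u hu; simp only [mem_insert, mem_singleton] at hu; rcases hu with rfl | rfl <;> assumption)
  rw [card_pair hpq] at this
  exact this

lemma D_ins3 (h : Pre s R) {T : Finset V} {w p q r : V} (hw : w ∉ T) (hp : p ∈ T) (hq : q ∈ T)
    (hr : r ∈ T) (hpq : p ≠ q) (hpr : p ≠ r) (hqr : q ≠ r) (ap : Adj s R w p) (aq : Adj s R w q)
    (ar : Adj s R w r) : D s R T + 6 ≤ D s R (insert w T) := by
  have := D_insert_ge h hw (N := {p, q, r}) (by
    intro u hu; simp only [mem_insert, mem_singleton] at hu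
    rcases hu with rfl | rfl | rfl <;> assumption)
    (by intro u hu; simp only [mem_insert, mem_singleton] at hu
        rcases hu with rfl | rfl | rfl <;> assumption)
  rw [card_eq_three.2 ⟨p, q, r, hpq, hpr, hqr, rfl⟩] at this
  exact this

/-- The six vertex graph without fixed vertices. -/
lemma Good.small_alpha (h : Good s S R)
    (H4 : ∀ T ⊆ S, 2 ≤ T.card → Tight s R T → T ∪ T.image s = S) {v a b : V} (hv : v ∈ S)
    (ha : a ∈ S) (hb : b ∈ S) (nv : s v ≠ v) (hab : a ≠ b) (ra : R v a) (rb : R v b)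
    (rc : R (s v) a) (hr : ∀ u ∈ S, R v u → u = a ∨ u = b)
    (Bab : R (s a) (s b)) (Bbc : R (s b) a) : Rable s S R := by
  have sa := h.mem a ha
  have sb := h.mem b hb
  have sv := h.mem v hv
  have na : s a ≠ a := fun e => h.nc v hv a ha ra (by rw [e]; exact rc)
  have nb1 : s b ≠ b := fun e => h.nc a ha (s b) sb (h.symm _ _ Bbc) (by rw [h.inv, ← e]; exact Bab)
  have n1 : a ≠ s b := fun e => h.irr a (by rw [← e] at Bbc; exact Bbc)
  have n2 : b ≠ s a := fun e => n1 (by rw [e, h.inv])
  have va : v ≠ a := h.adj_ne (Or.inl ra)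
  have vb : v ≠ b := h.adj_ne (Or.inl rb)
  have vsa : v ≠ s a := fun e => h.irr a (by rw [e, h.inv] at rc; exact rc)
  have vsb : v ≠ s b := fun e => h.not_adj_s hb (Or.inl (h.symm _ _ (by rw [← e]; exact rb)))
  have sva : s v ≠ a := fun e => vsa (by rw [← e, h.inv])
  have svb : s v ≠ b := fun e => vsb (by rw [← e, h.inv])
  have svsa : s v ≠ s a := fun e => va (h.inj e)
  have svsb : s v ≠ s b := fun e => vb (h.inj e)
  have sab : s a ≠ s b := fun e => hab (h.inj e)
  have d1 := D_ins2 h.toPre (T := {a, s a}) (w := b) (p := a) (q := s a)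
    (by simp [hab.symm, n2]) (by simp) (by simp) na.symm (Or.inr (h.symm _ _ Bab))
    (Or.inr (by rw [h.inv]; exact Bbc))
  have d2 := D_ins2 h.toPre (T := {b, a, s a}) (w := s b) (p := a) (q := s a)
    (by simp [nb1, n1.symm, sab.symm]) (by simp) (by simp) na.symm (Or.inl Bbc)
    (Or.inl (h.symm _ _ Bab))
  have d3 := D_ins3 h.toPre (T := {s b, b, a, s a}) (w := v) (p := a) (q := b) (r := s a)
    (by simp [va, vb, vsa, vsb]) (by simp) (by simp) (by simp) hab na.symm n2 (Or.inl ra)
    (Or.inl rb) (Or.inr (by rw [h.inv]; exact rc))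
  have d4 := D_ins3 h.toPre (T := {v, s b, b, a, s a}) (w := s v) (p := s a) (q := s b) (r := a)
    (by simp [nv, sva, svb, svsa, svsb]) (by simp) (by simp) (by simp) sab na n1.symm
    (h.adj_s (Or.inl ra)) (h.adj_s (Or.inl rb)) (Or.inl rc)
  have hU := H4 {s v, v, s b, b, a, s a} (by
    intro u hu; simp only [mem_insert, mem_singleton] at hu
    rcases hu with rfl | rfl | rfl | rfl | rfl | rfl <;> assumption)
    (one_lt_card.2 ⟨v, by simp, a, by simp, va⟩) (by
      have : ({s v, v, s b, b, a, s a} : Finset V).card ≤ 6 := card_le_six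
      unfold Tight; omega)
  set x : V → ℝ := fun u => if u = v then -1 else if u = a then 1 else 0 with hx
  set y : V → ℝ := fun u => if u = v then 1 / 2 else if u = a then 1 else 2 with hy
  have xv : x v = -1 := by simp [hx]
  have xa : x a = 1 := by simp [hx, va.symm]
  have xb : x b = 0 := by simp [hx, vb.symm, hab.symm]
  have yv : y v = 1 / 2 := by simp [hy]
  have ya : y a = 1 := by simp [hy, va.symm]
  have yb : y b = 2 := by simp [hy, vb.symm, hab.symm]
  have i1 := h.irr v
  have i2 := h.irr a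
  have i3 := h.irr b
  have i4 := h.irr (s v)
  have i5 := h.irr (s a)
  have i6 := h.irr (s b)
  have j1 : ¬ R v (s v) := fun r => h.not_adj_s hv (Or.inl r)
  have j2 : ¬ R a (s a) := fun r => h.not_adj_s ha (Or.inl r)
  have j3 : ¬ R b (s b) := fun r => h.not_adj_s hb (Or.inl r)
  have k1 : ¬ R a b := fun r => h.nc a ha b hb r Bab
  have k2 : ¬ R b a := fun r => k1 (h.symm _ _ r)
  have k3 : ¬ R (s v) (s a) := h.nc v hv a ha ra
  have k4 : ¬ R (s a) (s v) := fun r => k3 (h.symm _ _ r)
  have k5 : ¬ R (s v) (s b) := h.nc v hv b hb rb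
  have k6 : ¬ R (s b) (s v) := fun r => k5 (h.symm _ _ r)
  have k7 : ¬ R v (s a) := fun r => (hr _ sa r).elim na (fun e => n2 e.symm)
  have k8 : ¬ R v (s b) := fun r => (hr _ sb r).elim (fun e => n1 e.symm) nb1
  have k9 : ¬ R b (s a) := fun r => h.nc b hb (s a) sa r (by rw [h.inv]; exact Bbc)
  apply h.assemble {v, a, b} _ x y
  · intro u hu w hw e
    simp only [mem_insert, mem_singleton] at hu hw
    rcases hu with rfl | rfl | rfl <;> rcases hw with rfl | rfl | rfl <;>
      first | rfl | (simp only [xv, xa, xb] at e; norm_num at e)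
  · intro u hu e
    simp only [mem_insert, mem_singleton] at hu e
    rcases hu with rfl | rfl | rfl <;> rcases e with e | e | e <;>
      first | exact e | contradiction | exact absurd e.symm ‹_›
  · intro u hu e
    simp only [mem_insert, mem_singleton] at hu
    rcases hu with rfl | rfl | rfl <;> contradiction
  · intro u hu _
    simp only [mem_insert, mem_singleton] at hu
    rcases hu with rfl | rfl | rfl <;> simp only [yv, ya, yb] <;> norm_num
  · intro u hu w hw r
    simp only [mem_insert, mem_singleton] at hu hw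
    rcases hu with rfl | rfl | rfl <;> rcases hw with rfl | rfl | rfl <;>
      first | contradiction | (simp only [xv, xa, xb, yv, ya, yb]; norm_num)
  · intro u hu w hw r
    simp only [mem_insert, mem_singleton] at hu hw
    rcases hu with rfl | rfl | rfl <;> rcases hw with rfl | rfl | rfl <;>
      first | contradiction | (simp only [xv, xa, xb, yv, ya, yb]; norm_num)
  · intro u hu w hw r
    simp only [mem_insert, mem_singleton] at hu hw
    rcases hu with rfl | rfl | rfl <;> rcases hw with rfl | rfl | rfl <;>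
      first | contradiction | (simp only [xv, xa, xb, yv, ya, yb]; norm_num)
  · intro u hu
    rw [← hU, mem_union, mem_image_s h.toPre] at hu
    simp only [mem_insert, mem_singleton] at hu ⊢
    have hi := h.inj
    rcases hu with (rfl | rfl | rfl | rfl | rfl | rfl) | (e | e | e | e | e | e)
    all_goals first | (simp [h.inv]; done) | (have := h.inj e; simp [this]; done) | (simp [e]; done)

/-- The six vertex graph with two fixed vertices. -/
lemma Good.small_beta (h : Good s S R)
    (H4 : ∀ T ⊆ S, 2 ≤ T.card → Tight s R T → T ∪ T.image s = S) {v a b c : V} (hv : v ∈ S)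
    (ha : a ∈ S) (hb : b ∈ S) (hc : c ∈ S) (nv : s v ≠ v) (hab : a ≠ b) (ra : R v a) (rb : R v b)
    (rc : R (s v) (s c)) (hbl : ∀ u ∈ S, R (s v) (s u) → u = c) (fa : s a = a) (fc : s c = c)
    (Bab : R (s a) (s b)) (Bbc : R (s b) (s c)) : Rable s S R := by
  have sb := h.mem b hb
  have sv := h.mem v hv
  have nb1 : s b ≠ b := fun e => h.not_adj_fixed ha hb fa e (Or.inr Bab)
  have hac : a ≠ c := fun e => h.nc v hv a ha ra (e ▸ rc)
  have hbc : b ≠ c := fun e => h.nc v hv b hb rb (e ▸ rc)
  have n1 : s b ≠ a := fun e => hab (h.inj (fa.trans e.symm))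
  have n2 : s b ≠ c := fun e => hbc (h.inj (e.trans fc.symm))
  have va : v ≠ a := h.adj_ne (Or.inl ra)
  have vb : v ≠ b := h.adj_ne (Or.inl rb)
  have vc : v ≠ c := h.adj_ne (Or.inr rc)
  have vsb : v ≠ s b := fun e => h.not_adj_s hb (Or.inl (h.symm _ _ (by rw [← e]; exact rb)))
  have sva : s v ≠ a := fun e => va (h.inj (e.trans fa.symm))
  have svc : s v ≠ c := fun e => vc (h.inj (e.trans fc.symm))
  have svb : s v ≠ b := fun e => vsb (by rw [← e, h.inv])
  have svsb : s v ≠ s b := fun e => vb (h.inj e)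
  have Aba : Adj s R b a := Or.inr (h.symm _ _ Bab)
  have Abc : Adj s R b c := Or.inr Bbc
  have d1 := D_ins2 h.toPre (T := {a, c}) (w := b) (p := a) (q := c)
    (by simp [hab.symm, hbc]) (by simp) (by simp) hac Aba Abc
  have d2 := D_ins2 h.toPre (T := {b, a, c}) (w := s b) (p := a) (q := c)
    (by simp [nb1, n1, n2]) (by simp) (by simp) hac (fa ▸ h.adj_s Aba) (fc ▸ h.adj_s Abc)
  have d3 := D_ins3 h.toPre (T := {s b, b, a, c}) (w := v) (p := a) (q := b) (r := c)
    (by simp [va, vb, vc, vsb]) (by simp) (by simp) (by simp) hab hac hbc (Or.inl ra)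
    (Or.inl rb) (Or.inr rc)
  have d4 := D_ins3 h.toPre (T := {v, s b, b, a, c}) (w := s v) (p := a) (q := s b) (r := c)
    (by simp [nv, sva, svb, svc, svsb]) (by simp) (by simp) (by simp) n1.symm hac n2
    (fa ▸ h.adj_s (Or.inl ra)) (h.adj_s (Or.inl rb)) (Or.inl (fc ▸ rc))
  have hU := H4 {s v, v, s b, b, a, c} (by
    intro u hu; simp only [mem_insert, mem_singleton] at hu
    rcases hu with rfl | rfl | rfl | rfl | rfl | rfl <;> assumption)
    (one_lt_card.2 ⟨v, by simp, a, by simp, va⟩) (by
      have : ({s v, v, s b, b, a, c} : Finset V).card ≤ 6 := card_le_six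
      unfold Tight; omega)
  set x : V → ℝ := fun u => if u = v then 3 / 2 else if u = a then 1 else if u = b then 0 else 2
    with hx
  set y : V → ℝ := fun u => if u = v then 2 else if u = b then 1 else 0 with hy
  have xv : x v = 3 / 2 := by simp [hx]
  have xa : x a = 1 := by simp [hx, va.symm]
  have xb : x b = 0 := by simp [hx, vb.symm, hab.symm]
  have xc : x c = 2 := by simp [hx, vc.symm, hac.symm, hbc.symm]
  have yv : y v = 2 := by simp [hy]
  have ya : y a = 0 := by simp [hy, va.symm, hab]
  have yb : y b = 1 := by simp [hy, vb.symm]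
  have yc : y c = 0 := by simp [hy, vc.symm, hbc.symm]
  have i1 := h.irr v
  have i2 := h.irr a
  have i3 := h.irr b
  have i3' := h.irr c
  have i4 := h.irr (s v)
  have i5 := h.irr (s a)
  have i6 := h.irr (s b)
  have i6' := h.irr (s c)
  have j1 : ¬ R v (s v) := fun r => h.not_adj_s hv (Or.inl r)
  have j2 : ¬ R a (s a) := fun r => h.not_adj_s ha (Or.inl r)
  have j3 : ¬ R b (s b) := fun r => h.not_adj_s hb (Or.inl r)
  have j4 : ¬ R c (s c) := fun r => h.not_adj_s hc (Or.inl r)
  have k1 : ¬ R a b := fun r => h.nc a ha b hb r Bab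
  have k2 : ¬ R b a := fun r => k1 (h.symm _ _ r)
  have k3 : ¬ R (s v) (s a) := h.nc v hv a ha ra
  have k4 : ¬ R (s a) (s v) := fun r => k3 (h.symm _ _ r)
  have k5 : ¬ R (s v) (s b) := h.nc v hv b hb rb
  have k6 : ¬ R (s b) (s v) := fun r => k5 (h.symm _ _ r)
  have k7 : ¬ R v c := fun r => h.nc v hv c hc r rc
  have k8 : ¬ R c v := fun r => k7 (h.symm _ _ r)
  have k9 : ¬ R b c := fun r => h.nc b hb c hc r Bbc
  have k10 : ¬ R c b := fun r => k9 (h.symm _ _ r)
  have k11 : ¬ R a c := fun r => h.not_adj_fixed ha hc fa fc (Or.inl r)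
  have k12 : ¬ R c a := fun r => k11 (h.symm _ _ r)
  have k13 : ¬ R (s a) (s c) := by rwa [fa, fc]
  have k14 : ¬ R (s c) (s a) := by rwa [fa, fc]
  have k15 : ¬ R v (s c) := by rwa [fc]
  have k16 : ¬ R a (s v) := by rwa [fa] at k4
  have k17 : ¬ R b (s v) := fun r => n2 (hbl (s b) sb (by rw [h.inv]; exact h.symm _ _ r))
  have k18 : ¬ R b (s a) := by rwa [fa]
  have k19 : ¬ R b (s c) := by rwa [fc]
  have k20 : ¬ R a (s c) := by rwa [fc]
  have k21 : ¬ R c (s a) := by rwa [fa]
  apply h.assemble {v, a, b, c} _ x y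
  · intro u hu w hw e
    simp only [mem_insert, mem_singleton] at hu hw
    rcases hu with rfl | rfl | rfl | rfl <;> rcases hw with rfl | rfl | rfl | rfl <;>
      first | rfl | (simp only [xv, xa, xb, xc] at e; norm_num at e)
  · intro u hu e
    simp only [mem_insert, mem_singleton] at hu e
    rcases hu with rfl | rfl | rfl | rfl <;> rcases e with e | e | e | e <;>
      first | assumption | contradiction | exact absurd e.symm ‹_›
  · intro u hu e
    simp only [mem_insert, mem_singleton] at hu
    rcases hu with rfl | rfl | rfl | rfl <;> first | contradiction | assumption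
  · intro u hu _
    simp only [mem_insert, mem_singleton] at hu
    rcases hu with rfl | rfl | rfl | rfl <;>
      first | contradiction | (simp only [yv, yb]; norm_num)
  · intro u hu w hw r
    simp only [mem_insert, mem_singleton] at hu hw
    rcases hu with rfl | rfl | rfl | rfl <;> rcases hw with rfl | rfl | rfl | rfl <;>
      first | contradiction | (simp only [xv, xa, xb, xc, yv, ya, yb, yc]; norm_num)
  · intro u hu w hw r
    simp only [mem_insert, mem_singleton] at hu hw
    rcases hu with rfl | rfl | rfl | rfl <;> rcases hw with rfl | rfl | rfl | rfl <;>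
      first | contradiction | (simp only [xv, xa, xb, xc, yv, ya, yb, yc]; norm_num)
  · intro u hu w hw r
    simp only [mem_insert, mem_singleton] at hu hw
    rcases hu with rfl | rfl | rfl | rfl <;> rcases hw with rfl | rfl | rfl | rfl <;>
      first | contradiction | (simp only [xv, xa, xb, xc, yv, ya, yb, yc]; norm_num)
  · intro u hu
    rw [← hU, mem_union, mem_image_s h.toPre] at hu
    simp only [mem_insert, mem_singleton] at hu ⊢
    rcases hu with (rfl | rfl | rfl | rfl | rfl | rfl) | (e | e | e | e | e | e)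
    all_goals first | (simp [h.inv]; done) | (have := h.inj e; simp [this]; done) | (simp [e]; done)

/-- The complete graph on four vertices and its mirror image. -/
lemma Good.small_K4 (h : Good s S R)
    (H4 : ∀ T ⊆ S, 2 ≤ T.card → Tight s R T → T ∪ T.image s = S) {v a b c : V} (hv : v ∈ S)
    (ha : a ∈ S) (hb : b ∈ S) (hc : c ∈ S) (ra : R v a) (rb : R v b)
    (rc : R (s v) (s c)) (Bab : R (s a) (s b)) (Bac : R (s a) (s c)) (Bbc : R (s b) (s c)) :
    Rable s S R := by
  have hab : a ≠ b := h.adj_ne (Or.inr Bab)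
  have hac : a ≠ c := h.adj_ne (Or.inr Bac)
  have hbc : b ≠ c := h.adj_ne (Or.inr Bbc)
  have va : v ≠ a := h.adj_ne (Or.inl ra)
  have vb : v ≠ b := h.adj_ne (Or.inl rb)
  have vc : v ≠ c := h.adj_ne (Or.inr rc)
  have d1 := D_insert_ge h.toPre (T := {c}) (w := b) (N := {c}) (by simp [hbc]) subset_rfl
    (by intro u hu; rw [mem_singleton] at hu; rw [hu]; exact Or.inr Bbc)
  rw [card_singleton] at d1
  have d2 := D_ins2 h.toPre (T := {b, c}) (w := a) (p := b) (q := c)
    (by simp [hab, hac]) (by simp) (by simp) hbc (Or.inr Bab) (Or.inr Bac)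
  have d3 := D_ins3 h.toPre (T := {a, b, c}) (w := v) (p := a) (q := b) (r := c)
    (by simp [va, vb, vc]) (by simp) (by simp) (by simp) hab hac hbc (Or.inl ra)
    (Or.inl rb) (Or.inr rc)
  have hKS : ({v, a, b, c} : Finset V) ⊆ S := by
    intro u hu; simp only [mem_insert, mem_singleton] at hu
    rcases hu with rfl | rfl | rfl | rfl <;> assumption
  have t : Tight s R {v, a, b, c} := by
    have : ({v, a, b, c} : Finset V).card ≤ 4 := card_le_four
    unfold Tight; omega
  have hU := H4 {v, a, b, c} hKS (one_lt_card.2 ⟨v, by simp, a, by simp, va⟩) t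
  set x : V → ℝ := fun u => if u = v then 3 / 2 else if u = a then 0 else if u = b then 1 else 2
    with hx
  set y : V → ℝ := fun u => if u = v then 3 else if u = a then 2 else if u = b then 1 else 0
    with hy
  have xv : x v = 3 / 2 := by simp [hx]
  have xa : x a = 0 := by simp [hx, va.symm]
  have xb : x b = 1 := by simp [hx, vb.symm, hab.symm]
  have xc : x c = 2 := by simp [hx, vc.symm, hac.symm, hbc.symm]
  have yv : y v = 3 := by simp [hy]
  have ya : y a = 2 := by simp [hy, va.symm]
  have yb : y b = 1 := by simp [hy, vb.symm, hab.symm]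
  have yc : y c = 0 := by simp [hy, vc.symm, hac.symm, hbc.symm]
  have i1 := h.irr v
  have i2 := h.irr a
  have i3 := h.irr b
  have i3' := h.irr c
  have i4 := h.irr (s v)
  have i5 := h.irr (s a)
  have i6 := h.irr (s b)
  have i6' := h.irr (s c)
  have k1 : ¬ R a b := fun r => h.nc a ha b hb r Bab
  have k2 : ¬ R b a := fun r => k1 (h.symm _ _ r)
  have k3 : ¬ R (s v) (s a) := h.nc v hv a ha ra
  have k4 : ¬ R (s a) (s v) := fun r => k3 (h.symm _ _ r)
  have k5 : ¬ R (s v) (s b) := h.nc v hv b hb rb
  have k6 : ¬ R (s b) (s v) := fun r => k5 (h.symm _ _ r)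
  have k7 : ¬ R v c := fun r => h.nc v hv c hc r rc
  have k8 : ¬ R c v := fun r => k7 (h.symm _ _ r)
  have k9 : ¬ R b c := fun r => h.nc b hb c hc r Bbc
  have k10 : ¬ R c b := fun r => k9 (h.symm _ _ r)
  have k11 : ¬ R a c := fun r => h.nc a ha c hc r Bac
  have k12 : ¬ R c a := fun r => k11 (h.symm _ _ r)
  have xi : ∀ u ∈ ({v, a, b, c} : Finset V), ∀ w ∈ ({v, a, b, c} : Finset V),
      x u = x w → u = w := by
    intro u hu w hw e
    simp only [mem_insert, mem_singleton] at hu hw
    rcases hu with rfl | rfl | rfl | rfl <;> rcases hw with rfl | rfl | rfl | rfl <;>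
      first | rfl | (simp only [xv, xa, xb, xc] at e; norm_num at e)
  have yi : ∀ u ∈ ({v, a, b, c} : Finset V), ∀ w ∈ ({v, a, b, c} : Finset V),
      y u = y w → u = w := by
    intro u hu w hw e
    simp only [mem_insert, mem_singleton] at hu hw
    rcases hu with rfl | rfl | rfl | rfl <;> rcases hw with rfl | rfl | rfl | rfl <;>
      first | rfl | (simp only [yv, ya, yb, yc] at e; norm_num at e)
  have hr : ∀ u ∈ ({v, a, b, c} : Finset V), ∀ w ∈ ({v, a, b, c} : Finset V),
      R u w → 0 < (x u - x w) * (y u - y w) := by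
    intro u hu w hw r
    simp only [mem_insert, mem_singleton] at hu hw
    rcases hu with rfl | rfl | rfl | rfl <;> rcases hw with rfl | rfl | rfl | rfl <;>
      first | contradiction | (simp only [xv, xa, xb, xc, yv, ya, yb, yc]; norm_num)
  have hbl : ∀ u ∈ ({v, a, b, c} : Finset V), ∀ w ∈ ({v, a, b, c} : Finset V),
      R (s u) (s w) → (x u - x w) * (y u - y w) < 0 := by
    intro u hu w hw r
    simp only [mem_insert, mem_singleton] at hu hw
    rcases hu with rfl | rfl | rfl | rfl <;> rcases hw with rfl | rfl | rfl | rfl <;>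
      first | contradiction | (simp only [xv, xa, xb, xc, yv, ya, yb, yc]; norm_num)
  have clique : ∀ u ∈ ({v, a, b, c} : Finset V), ∀ w ∈ ({v, a, b, c} : Finset V),
      u ≠ w → Adj s R u w := by
    have a1 : Adj s R v a := Or.inl ra
    have a2 : Adj s R v b := Or.inl rb
    have a3 : Adj s R v c := Or.inr rc
    have a4 : Adj s R a b := Or.inr Bab
    have a5 : Adj s R a c := Or.inr Bac
    have a6 : Adj s R b c := Or.inr Bbc
    intro u hu w hw ne
    simp only [mem_insert, mem_singleton] at hu hw
    rcases hu with rfl | rfl | rfl | rfl <;> rcases hw with rfl | rfl | rfl | rfl <;>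
      first | exact absurd rfl ne | assumption | exact h.adj_symm ‹_›
  have fx : ∀ u ∈ ({v, a, b, c} : Finset V), s u ∈ ({v, a, b, c} : Finset V) → s u = u := by
    intro u hu hsu
    by_contra ne
    exact h.not_adj_s (hKS hu) (clique u hu (s u) hsu (fun e => ne e.symm))
  by_cases hd : ∀ u ∈ ({v, a, b, c} : Finset V), s u ∉ ({v, a, b, c} : Finset V)
  · exact h.assemble1 _ hKS t hU hd x y xi hr hbl
  · push Not at hd
    obtain ⟨w0, hw0, hsw0⟩ := hd
    refine h.assemble2 _ hKS t hU w0 hw0 (fx w0 hw0 hsw0) ?_ x y xi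
      (fun u hu ne e => ne (yi u hu w0 hw0 e)) hr hbl
    intro u hu hsu
    by_contra ne
    exact h.not_adj_fixed (hKS hu) (hKS hw0) (fx u hu hsu) (fx w0 hw0 hsw0) (clique u hu w0 hw0 ne)

end Pool.Agent.H615Z.Iso
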