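import Mathlib
import Pool.Agent.H615Z.IsoSmall

set_option autoImplicit false

namespace Pool.Agent.H615Z.Iso

open Finset

variable {V : Type*} [DecidableEq V] {s : V → V} {R : V → V → Prop} {S : Finset V}

/-- Three fixed neighbours with conflicts between all pairs have large degree. -/
lemma Good.six (h : Good s S R)
    (H4 : ∀ T ⊆ S, 2 ≤ T.card → Tight s R T → T ∪ T.image s = S) {v p q r : V} (hv : v ∈ S)
    (nv : s v ≠ v) (hp : p ∈ S) (hq : q ∈ S) (hr : r ∈ S) (fp : s p = p) (fq : s q = q)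
    (fr : s r = r) (hpq : p ≠ q) (hpr : p ≠ r) (hqr : q ≠ r) (ap : Adj s R v p)
    (aq : Adj s R v q) (ar : Adj s R v r)
    (c1 : ∃ w ∈ (S.erase v).erase (s v), R p w ∧ R q (s w))
    (c2 : ∃ w ∈ (S.erase v).erase (s v), R p w ∧ R r (s w))
    (c3 : ∃ w ∈ (S.erase v).erase (s v), R q w ∧ R r (s w)) : 6 ≤ (nb s R S p).card := by
  obtain ⟨w1, hw1, a1, b1⟩ := c1
  obtain ⟨w2, hw2, a2, b2⟩ := c2
  obtain ⟨w3, hw3, a3, b3⟩ := c3
  have s1 := h.mem_erase2 v w1 hw1
  have s2 := h.mem_erase2 v w2 hw2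
  simp only [mem_erase] at hw1 hw2 hw3 s1 s2
  have key : ∀ z ∈ S, s z = z → ∀ w ∈ S, R z w → ¬ R z (s w) := fun z hz fz w hw a b =>
    h.nc z hz w hw a (by rw [fz]; exact b)
  have n1 : s w1 ≠ w1 := fun e => h.not_adj_fixed hp hw1.2.2 fp e (Or.inl a1)
  have n2 : s w2 ≠ w2 := fun e => h.not_adj_fixed hp hw2.2.2 fp e (Or.inl a2)
  have n3 : s w3 ≠ w3 := fun e => h.not_adj_fixed hq hw3.2.2 fq e (Or.inl a3)
  have m1 : w2 ≠ s w1 := fun e => key p hp fp w1 hw1.2.2 a1 (e ▸ a2)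
  have m2 : w2 ≠ w1 := by
    rintro rfl
    have fxn : ∀ z w, s z = z → s w ≠ w → w ≠ z := fun z w fz nw e => nw (by rw [e, fz])
    have ns1 : s (s w2) ≠ s w2 := by rw [h.inv]; exact n1.symm
    have nsv : s (s v) ≠ s v := by rw [h.inv]; exact nv.symm
    have A1 : Adj s R w2 p := Or.inl (h.symm _ _ a1)
    have A2 : Adj s R w2 q := Or.inr (by rw [fq]; exact h.symm _ _ b1)
    have A3 : Adj s R w2 r := Or.inr (by rw [fr]; exact h.symm _ _ b2)
    have d1 := D_ins3 h.toPre (T := {p, q, r}) (w := w2) (p := p) (q := q) (r := r)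
      (by simp [fxn p w2 fp n1, fxn q w2 fq n1, fxn r w2 fr n1]) (by simp) (by simp) (by simp)
      hpq hpr hqr A1 A2 A3
    have d2 := D_ins3 h.toPre (T := {w2, p, q, r}) (w := s w2) (p := p) (q := q) (r := r)
      (by simp [fxn p _ fp ns1, fxn q _ fq ns1, fxn r _ fr ns1, n1]) (by simp) (by simp) (by simp)
      hpq hpr hqr (fp ▸ h.adj_s A1) (fq ▸ h.adj_s A2) (fr ▸ h.adj_s A3)
    have d3 := D_ins3 h.toPre (T := {s w2, w2, p, q, r}) (w := v) (p := p) (q := q) (r := r)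
      (by simp [fxn p _ fp nv, fxn q _ fq nv, fxn r _ fr nv, hw1.2.1.symm, s1.2.1.symm])
      (by simp) (by simp) (by simp) hpq hpr hqr ap aq ar
    have d4 := D_ins3 h.toPre (T := {v, s w2, w2, p, q, r}) (w := s v) (p := p) (q := q) (r := r)
      (by simp [fxn p _ fp nsv, fxn q _ fq nsv, fxn r _ fr nsv, hw1.1.symm, s1.1.symm, nv])
      (by simp) (by simp) (by simp) hpq hpr hqr (fp ▸ h.adj_s ap) (fq ▸ h.adj_s aq)
      (fr ▸ h.adj_s ar)
    have hU := H4 {s v, v, s w2, w2, p, q, r} (by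
      intro u hu; simp only [mem_insert, mem_singleton] at hu
      rcases hu with rfl | rfl | rfl | rfl | rfl | rfl | rfl
      exacts [h.mem v hv, hv, s1.2.2, hw1.2.2, hp, hq, hr])
      (one_lt_card.2 ⟨p, by simp, q, by simp, hpq⟩) (by
        have : ({s v, v, s w2, w2, p, q, r} : Finset V).card ≤ 7 :=
          (card_insert_le _ _).trans (Nat.succ_le_succ card_le_six)
        unfold Tight; omega)
    have hw3S := hw3.2.2
    rw [← hU, mem_union, mem_image_s h.toPre] at hw3S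
    have ns3 : s (s w3) ≠ s w3 := by rw [h.inv]; exact n3.symm
    have e3 : w3 = w2 ∨ w3 = s w2 := by
      simp only [mem_insert, mem_singleton] at hw3S
      rcases hw3S with (e | e | e | e | e | e | e) | (e | e | e | e | e | e | e)
      · exact absurd e hw3.1
      · exact absurd e hw3.2.1
      · exact Or.inr e
      · exact Or.inl e
      · exact absurd e (fxn p _ fp n3)
      · exact absurd e (fxn q _ fq n3)
      · exact absurd e (fxn r _ fr n3)
      · exact absurd (h.inj e) hw3.2.1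
      · exact absurd (by rw [← e, h.inv]) hw3.1
      · exact Or.inl (h.inj e)
      · exact Or.inr (by rw [← e, h.inv])
      · exact absurd e (fxn p _ fp ns3)
      · exact absurd e (fxn q _ fq ns3)
      · exact absurd e (fxn r _ fr ns3)
    rcases e3 with rfl | rfl
    · exact key q hq fq w3 hw3.2.2 a3 b1
    · rw [h.inv] at b3
      exact key r hr fr w2 hw1.2.2 b3 b2
  have hsub : ({v, s v, w1, s w1, w2, s w2} : Finset V) ⊆ nb s R S p := by
    intro u hu
    simp only [mem_insert, mem_singleton] at hu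
    rw [mem_nb]
    rcases hu with rfl | rfl | rfl | rfl | rfl | rfl
    · exact ⟨hv, h.adj_symm ap⟩
    · exact ⟨h.mem v hv, fp ▸ h.adj_s (h.adj_symm ap)⟩
    · exact ⟨hw1.2.2, Or.inl a1⟩
    · exact ⟨s1.2.2, fp ▸ h.adj_s (Or.inl a1)⟩
    · exact ⟨hw2.2.2, Or.inl a2⟩
    · exact ⟨s2.2.2, fp ▸ h.adj_s (Or.inl a2)⟩
  have m3 : w1 ≠ s w2 := fun e => m1 (by rw [e, h.inv])
  have m4 : s w1 ≠ s w2 := fun e => m2 (h.inj e).symm
  have hc : ({v, s v, w1, s w1, w2, s w2} : Finset V).card = 6 := by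
    rw [card_insert_of_notMem (by
        simp [nv.symm, hw1.2.1.symm, hw2.2.1.symm, s1.2.1.symm, s2.2.1.symm]),
      card_insert_of_notMem (by simp [hw1.1.symm, hw2.1.symm, s1.1.symm, s2.1.symm]),
      card_insert_of_notMem (by simp [n1.symm, m2.symm, m3]),
      card_insert_of_notMem (by simp [m1.symm, m4]), card_pair n2.symm]
  rw [← hc]
  exact card_le_card hsub

/-- A vertex with two red neighbours and one blue neighbour. -/
lemma Good.deg3_RRB (h : Good s S R) (ih : IH V S.card)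
    (H4 : ∀ T ⊆ S, 2 ≤ T.card → Tight s R T → T ∪ T.image s = S) {v a b c : V} (hv : v ∈ S)
    (ha : a ∈ S) (hb : b ∈ S) (hc : c ∈ S) (nv : s v ≠ v) (hab : a ≠ b) (ra : R v a) (rb : R v b)
    (rc : R (s v) (s c)) (hr : ∀ u ∈ S, R v u → u = a ∨ u = b)
    (hbl : ∀ u ∈ S, R (s v) (s u) → u = c) :
    Rable s S R ∨ (6 ≤ (nb s R S a).card ∧ 6 ≤ (nb s R S b).card ∧ 6 ≤ (nb s R S c).card) := by
  set S' := (S.erase v).erase (s v) with hS'
  have g' : Good s S' R := h.good_erase2 v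
  have hlt : S'.card < S.card := card_erase2_lt hv
  have ih' : IH V S'.card := fun s S R hc g => ih s S R (hc.trans hlt) g
  have hnt : ∀ T ⊆ S', 2 ≤ T.card → ¬ Tight s R T := by
    intro T hT h2 t
    have hU := H4 T (hT.trans (erase2_subset _ _)) h2 t
    have hv' := hv
    rw [← hU, mem_union, mem_image_s h.toPre] at hv'
    rcases hv' with e | e
    · have := hT e; simp [hS'] at this
    · have := hT e; simp [hS'] at this
  have ha' : a ∈ S' := h.nb_mem_erase2 hv ha (Or.inl ra)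
  have hb' : b ∈ S' := h.nb_mem_erase2 hv hb (Or.inl rb)
  have hc' : c ∈ S' := h.nb_mem_erase2 hv hc (Or.inr rc)
  have hac : a ≠ c := fun e => h.nc v hv a ha ra (e ▸ rc)
  have hbc : b ≠ c := fun e => h.nc v hv b hb rb (e ▸ rc)
  have addable : ∀ p ∈ S', ∀ q ∈ S', p ≠ q → ¬ R (s p) (s q) → s p ≠ q → ¬ (s p = p ∧ s q = q) →
      ∃ X Y, Rl s S' R X Y ∧ 0 < (X p - X q) * (Y p - Y q) := by
    intro p hp q hq hpq n0 n1 n2
    obtain ⟨X, Y, r⟩ := ih s S' _ hlt (g'.add_edge hnt hpq n0 n1 n2)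
    exact ⟨X, Y, r.mono (fun u _ w _ a => Or.inl a), r.red p hp q hq (Or.inr (Or.inl ⟨rfl, rfl⟩))⟩
  by_cases A1 : ¬ R (s a) (s b) ∧ s a ≠ b ∧ ¬ (s a = a ∧ s b = b)
  · obtain ⟨X, Y, r, k⟩ := addable a ha' b hb' hab A1.1 A1.2.1 A1.2.2
    exact Or.inl (h.ext_abc hv nv hr hbl r
      (Or.inl ⟨k, r.ne_pt hc' ha' hac.symm, r.ne_pt hc' hb' hbc.symm⟩))
  by_cases A2 : ¬ R (s a) (s c) ∧ s a ≠ c ∧ ¬ (s a = a ∧ s c = c)
  · obtain ⟨X, Y, r, k⟩ := addable a ha' c hc' hac A2.1 A2.2.1 A2.2.2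
    exact Or.inl (h.ext_abc hv nv hr hbl r (notBad_of_ac k (r.ne_pt hc' hb' hbc.symm)))
  by_cases A3 : ¬ R (s b) (s c) ∧ s b ≠ c ∧ ¬ (s b = b ∧ s c = c)
  · obtain ⟨X, Y, r, k⟩ := addable b hb' c hc' hbc A3.1 A3.2.1 A3.2.2
    exact Or.inl (h.ext_abc hv nv hr hbl r (notBad_of_ac k (r.ne_pt hc' ha' hac.symm)).swap)
  by_cases B1 : s a = b
  · obtain ⟨X, Y, r⟩ := ih s S' R hlt g'
    have e1 : X b = X a := by rw [← B1, r.xs a ha']
    have e2 : X c ≠ X a := fun e => by
      rcases r.xi c hc' a ha' e with e' | e'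
      · exact hac e'.symm
      · exact hbc (B1.symm.trans e'.symm)
    refine Or.inl (h.ext_abc hv nv hr hbl r (Or.inr ?_))
    rw [e1]
    rcases lt_or_gt_of_ne e2 with l | l
    · exact Or.inl ⟨l, l⟩
    · exact Or.inr (Or.inl ⟨l, l⟩)
  by_cases B2 : s a = a ∧ s b = b
  · by_cases fc : s c = c
    · by_cases c1 : ∃ w ∈ S', R a w ∧ R b (s w)
      · by_cases c2 : ∃ w ∈ S', R a w ∧ R c (s w)
        · by_cases c3 : ∃ w ∈ S', R b w ∧ R c (s w)
          · have sw : ∀ p q, (∃ w ∈ S', R p w ∧ R q (s w)) → ∃ w ∈ S', R q w ∧ R p (s w) := by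
              rintro p q ⟨w, hw, k1, k2⟩
              exact ⟨s w, g'.mem w hw, k2, by rw [h.inv]; exact k1⟩
            exact Or.inr ⟨h.six H4 hv nv ha hb hc B2.1 B2.2 fc hab hac hbc (Or.inl ra) (Or.inl rb)
                (Or.inr rc) c1 c2 c3,
              h.six H4 hv nv hb ha hc B2.2 B2.1 fc hab.symm hbc hac (Or.inl rb) (Or.inl ra)
                (Or.inr rc) (sw _ _ c1) c3 c2,
              h.six H4 hv nv hc ha hb fc B2.1 B2.2 hac.symm hbc.symm hab (Or.inr rc) (Or.inl ra)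
                (Or.inl rb) (sw _ _ c2) (sw _ _ c3) c1⟩
          · obtain ⟨X, Y, r, k⟩ := g'.merge ih' hnt hb' hc' ha' B2.2 fc B2.1 hbc hab hac
              (fun w hw k1 k2 => c3 ⟨w, hw, k1, k2⟩)
            refine Or.inl (h.ext_abc hv nv hr hbl r (Or.inr ?_))
            rcases k with k | k
            · exact Or.inr (Or.inl ⟨k.1.trans k.2, k.2⟩)
            · exact Or.inl ⟨k.1.trans k.2, k.1⟩
        · obtain ⟨X, Y, r, k⟩ := g'.merge ih' hnt ha' hc' hb' B2.1 fc B2.2 hac hab.symm hbc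
            (fun w hw k1 k2 => c2 ⟨w, hw, k1, k2⟩)
          refine Or.inl (h.ext_abc hv nv hr hbl r (Or.inr ?_))
          rcases k with k | k
          · exact Or.inr (Or.inl ⟨k.2, k.1.trans k.2⟩)
          · exact Or.inl ⟨k.1, k.1.trans k.2⟩
      · obtain ⟨X, Y, r, k⟩ := g'.merge ih' hnt ha' hb' hc' B2.1 B2.2 fc hab hac.symm hbc.symm
          (fun w hw k1 k2 => c1 ⟨w, hw, k1, k2⟩)
        refine Or.inl (h.ext_abc hv nv hr hbl r (Or.inr ?_))
        rcases k with k | k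
        · exact Or.inl ⟨k.1, k.1.trans k.2⟩
        · exact Or.inr (Or.inl ⟨k.2, k.1.trans k.2⟩)
    · obtain ⟨X, Y, r⟩ := ih s S' R hlt g'
      refine Or.inl (h.ext_abc hv nv hr hbl r (Or.inr (Or.inr (Or.inr ?_))))
      rw [r.yfix ha' B2.1, r.yfix hb' B2.2]
      rcases lt_or_gt_of_ne (r.yn c hc' fc) with l | l
      · exact Or.inl ⟨l, l⟩
      · exact Or.inr ⟨l, l⟩
  have Bab : R (s a) (s b) := by
    by_contra n; exact A1 ⟨n, B1, B2⟩
  have C2 : R (s a) (s c) ∨ s a = c ∨ (s a = a ∧ s c = c) := by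
    by_contra n; push Not at n; exact A2 ⟨n.1, n.2.1, fun e => n.2.2 e.1 e.2⟩
  have C3 : R (s b) (s c) ∨ s b = c ∨ (s b = b ∧ s c = c) := by
    by_contra n; push Not at n; exact A3 ⟨n.1, n.2.1, fun e => n.2.2 e.1 e.2⟩
  left
  rcases C2 with Bac | e | ⟨fa, fc⟩ <;> rcases C3 with Bbc | e' | ⟨fb, fc'⟩
  · exact h.small_K4 H4 hv ha hb hc ra rb rc Bab Bac Bbc
  · subst e'
    rw [h.inv] at rc Bac
    exact h.small_alpha H4 hv hb ha nv hab.symm rb ra rc (fun u hu r => (hr u hu r).symm)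
      (h.symm _ _ Bab) Bac
  · exact h.small_beta H4 hv hb ha hc nv hab.symm rb ra rc hbl fb fc' (h.symm _ _ Bab) Bac
  · subst e
    rw [h.inv] at rc Bbc
    exact h.small_alpha H4 hv ha hb nv hab ra rb rc hr Bab Bbc
  · exact absurd (h.inj (e.trans e'.symm)) hab
  · exact absurd (h.inj (e.trans fc'.symm)) hac
  · exact h.small_beta H4 hv ha hb hc nv hab ra rb rc hbl fa fc Bab Bbc
  · exact absurd (h.inj (e'.trans fc.symm)) hbc
  · exact absurd ⟨fa, fb⟩ B2

lemma Good.deg3 (h : Good s S R) (ih : IH V S.card)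
    (H4 : ∀ T ⊆ S, 2 ≤ T.card → Tight s R T → T ∪ T.image s = S) {v : V} (hv : v ∈ S)
    (h3 : (nb s R S v).card = 3) :
    Rable s S R ∨ ∀ u ∈ nb s R S v, 6 ≤ (nb s R S u).card := by
  classical
  have nv : s v ≠ v := fun e => by
    have := h.nb_even hv e
    rw [h3] at this
    exact absurd this (by decide)
  have nsv : s (s v) ≠ s v := by rw [h.inv]; exact nv.symm
  have h1 := card_filter_add_card_filter_not (s := nb s R S v) (fun u => R v u)
  have mr : ∀ u, u ∈ (nb s R S v).filter (fun u => R v u) ↔ u ∈ S ∧ R v u := fun u => by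
    rw [mem_filter, mem_nb]
    exact ⟨fun k => ⟨k.1.1, k.2⟩, fun k => ⟨⟨k.1, Or.inl k.2⟩, k.2⟩⟩
  have mb : ∀ u, u ∈ (nb s R S v).filter (fun u => ¬ R v u) ↔ u ∈ S ∧ R (s v) (s u) := fun u => by
    rw [mem_filter, mem_nb]
    exact ⟨fun k => ⟨k.1.1, k.1.2.resolve_left k.2⟩,
      fun k => ⟨⟨k.1, Or.inr k.2⟩, fun r => h.nc v hv u k.1 r k.2⟩⟩
  rw [h3] at h1
  have hcases : ((nb s R S v).filter (fun u => ¬ R v u)).card = 0 ∨
      ((nb s R S v).filter (fun u => R v u)).card = 0 ∨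
      (((nb s R S v).filter (fun u => R v u)).card = 2 ∧
        ((nb s R S v).filter (fun u => ¬ R v u)).card = 1) ∨
      (((nb s R S v).filter (fun u => R v u)).card = 1 ∧
        ((nb s R S v).filter (fun u => ¬ R v u)).card = 2) := by omega
  rcases hcases with e | e | ⟨e1, e2⟩ | ⟨e1, e2⟩
  · rw [card_eq_zero] at e
    refine Or.inl (h.ext_nonblue ih hv nv (fun u hu r => ?_))
    have := (mb u).2 ⟨hu, r⟩
    rw [e] at this
    exact notMem_empty _ this
  · rw [card_eq_zero] at e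
    refine Or.inl (h.ext_nonblue ih (h.mem v hv) nsv (fun u hu r => ?_))
    rw [h.inv] at r
    have := (mr (s u)).2 ⟨h.mem u hu, r⟩
    rw [e] at this
    exact notMem_empty _ this
  · obtain ⟨a, b, hab, e1⟩ := card_eq_two.1 e1
    obtain ⟨c, e2⟩ := card_eq_one.1 e2
    simp only [e1, mem_insert, mem_singleton] at mr
    simp only [e2, mem_singleton] at mb
    have ka := (mr a).1 (Or.inl rfl)
    have kb := (mr b).1 (Or.inr rfl)
    have kc := (mb c).1 rfl
    rcases h.deg3_RRB ih H4 hv ka.1 kb.1 kc.1 nv hab ka.2 kb.2 kc.2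
      (fun u hu r => (mr u).2 ⟨hu, r⟩) (fun u hu r => (mb u).2 ⟨hu, r⟩) with k | k
    · exact Or.inl k
    · right
      intro u hu
      rw [mem_nb] at hu
      rcases hu.2 with r | r
      · rcases (mr u).2 ⟨hu.1, r⟩ with rfl | rfl
        · exact k.1
        · exact k.2.1
      · rw [(mb u).2 ⟨hu.1, r⟩]; exact k.2.2
  · obtain ⟨a, b, hab, e2⟩ := card_eq_two.1 e2
    obtain ⟨c, e1⟩ := card_eq_one.1 e1
    simp only [e2, mem_insert, mem_singleton] at mb
    simp only [e1, mem_singleton] at mr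
    have ka := (mb a).1 (Or.inl rfl)
    have kb := (mb b).1 (Or.inr rfl)
    have kc := (mr c).1 rfl
    rcases h.deg3_RRB ih H4 (h.mem v hv) (h.mem a ka.1) (h.mem b kb.1) (h.mem c kc.1) nsv
      (fun e => hab (h.inj e)) ka.2 kb.2 (by rw [h.inv, h.inv]; exact kc.2)
      (fun u hu r => by
        rcases (mb (s u)).2 ⟨h.mem u hu, by rw [h.inv]; exact r⟩ with e | e
        · left; rw [← e, h.inv]
        · right; rw [← e, h.inv])
      (fun u hu r => by
        rw [h.inv] at r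
        rw [← (mr (s u)).2 ⟨h.mem u hu, r⟩, h.inv]) with k | k
    · exact Or.inl k
    · right
      rw [nb_card_s h.toPre h.mem, nb_card_s h.toPre h.mem, nb_card_s h.toPre h.mem] at k
      intro u hu
      rw [mem_nb] at hu
      rcases hu.2 with r | r
      · rw [(mr u).2 ⟨hu.1, r⟩]; exact k.2.2
      · rcases (mb u).2 ⟨hu.1, r⟩ with rfl | rfl
        · exact k.1
        · exact k.2.1

omit [DecidableEq V] in
lemma Good.discharge (h : Good s S R) (hne : S.Nonempty) (h3 : ∀ v ∈ S, 3 ≤ (nb s R S v).card)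
    (h6 : ∀ v ∈ S, (nb s R S v).card = 3 → ∀ u ∈ nb s R S v, 6 ≤ (nb s R S u).card) : False := by
  classical
  set B := S.filter (fun v => (nb s R S v).card = 3) with hB
  set Z := S.filter (fun v => 6 ≤ (nb s R S v).card) with hZ
  have h1 : ∑ v ∈ B, (nb s R S v).card ≤ ∑ u ∈ Z, (nb s R S u).card := by
    have e1 : ∑ v ∈ B, (nb s R S v).card = ∑ v ∈ B, (Z.filter (fun u => Adj s R v u)).card := by
      apply sum_congr rfl
      intro v hv
      rw [hB, mem_filter] at hv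
      congr 1
      ext u
      rw [mem_filter, hZ, mem_filter, mem_nb]
      exact ⟨fun k => ⟨⟨k.1, h6 v hv.1 hv.2 u (mem_nb.2 k)⟩, k.2⟩, fun k => ⟨k.1.1, k.2⟩⟩
    have e2 := sum_card_bipartiteAbove_eq_sum_card_bipartiteBelow (s := B) (t := Z)
      (fun v u => Adj s R v u)
    rw [e1]
    refine le_trans (le_of_eq e2) (sum_le_sum (fun u _ => card_le_card ?_))
    intro v hv
    rw [mem_bipartiteBelow, hB, mem_filter] at hv
    exact mem_nb.2 ⟨hv.1.1, h.adj_symm hv.2⟩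
  have h2 := h.sparse S subset_rfl hne
  rw [D_eq_sum] at h2
  have h4 : ∑ v ∈ S, (12 + if 6 ≤ (nb s R S v).card then (nb s R S v).card else 0)
      ≤ ∑ v ∈ S, (3 * (nb s R S v).card +
        if (nb s R S v).card = 3 then (nb s R S v).card else 0) := by
    apply sum_le_sum
    intro v hv
    have := h3 v hv
    split_ifs <;> omega
  rw [sum_add_distrib, sum_add_distrib, ← sum_filter, ← sum_filter, ← mul_sum, sum_const,
    smul_eq_mul] at h4
  rw [← hB, ← hZ] at h4
  omega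

/-- Every antisymmetric colouring of a symmetric sparse graph has a symmetric placement. -/
theorem rable_of_good (V : Type*) [DecidableEq V] (n : ℕ) : IH V n := by
  induction n with
  | zero => intro s S R hc; omega
  | succ n ihn =>
    intro s S R hc h
    have ih : IH V S.card := fun s' S' R' hc' g => ihn s' S' R' (by omega) g
    rcases S.eq_empty_or_nonempty with rfl | hne
    · exact ⟨fun _ => 0, fun _ => 0, by simp, by simp, by simp, by simp, by simp⟩
    by_cases h3 : ∀ v ∈ S, 3 ≤ (nb s R S v).card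
    swap
    · push Not at h3
      obtain ⟨v, hv, hd⟩ := h3
      by_cases fv : s v = v
      · exact h.low_fixed ih hv fv (by omega)
      · exact h.low_pair ih hv fv (by omega)
    by_cases c2 : ∃ H ⊆ S, (∀ u ∈ H, s u ∈ H) ∧ Tight s R H ∧ 2 ≤ H.card ∧ H ≠ S
    · exact h.case2 ih h3 c2
    have hno : ∀ H ⊆ S, (∀ u ∈ H, s u ∈ H) → Tight s R H → 2 ≤ H.card → H = S := by
      intro H k1 k2 k3 k4
      by_contra ne
      exact c2 ⟨H, k1, k2, k3, k4, ne⟩
    by_cases c3 : ∃ H ⊆ S, (∀ u ∈ H, s u ∉ H) ∧ Tight s R H ∧ 2 ≤ H.card ∧ H ∪ H.image s ≠ S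
    · exact h.case3 ih hno c3
    have H4 : ∀ T ⊆ S, 2 ≤ T.card → Tight s R T → T ∪ T.image s = S := by
      intro T hT h2 t
      by_cases hd : ∀ u ∈ T, s u ∉ T
      · by_contra ne
        exact c3 ⟨T, hT, hd, t, h2, ne⟩
      · push Not at hd
        obtain ⟨u, hu, hsu⟩ := hd
        exact hno _ (union_subset hT (h.image_subset hT)) (h.union_image_mem T)
          (h.tight_union hT t (t.image h.toPre) ⟨u, mem_inter.2 ⟨hu, (mem_image_s h.toPre).2 hsu⟩⟩)
          (h2.trans (card_le_card subset_union_left))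
    by_contra hn
    exact h.discharge hne h3 (fun v hv e => (h.deg3 ih H4 hv e).resolve_left hn)

theorem Good.rable (h : Good s S R) : Rable s S R :=
  rable_of_good V (S.card + 1) s S R (Nat.lt_succ_self _) h

end Pool.Agent.H615Z.Iso
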