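import Mathlib
import Pool.Agent.H615Z.IsoCount

set_option autoImplicit false

namespace Pool.Agent.H615Z.Iso

open Finset Module

/-- Rado's theorem for the orbits of a fixed point free involution. -/
lemma rado {ι M : Type*} [DecidableEq ι] [AddCommGroup M] [Module ℝ M] [FiniteDimensional ℝ M]
    (E : Finset ι) (σ : ι → ι) (hm : ∀ e ∈ E, σ e ∈ E) (hi : ∀ e, σ (σ e) = e)
    (hn : ∀ e ∈ E, σ e ≠ e) (L : ι → Submodule ℝ M)
    (hE : ∀ S ⊆ E, (∀ e ∈ S, σ e ∈ S) → S.card ≤ 2 * finrank ℝ (S.sup L : Submodule ℝ M)) :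
    ∃ A ⊆ E, (∀ e ∈ A, σ e ∉ A) ∧ (∀ e ∈ E, e ∈ A ∨ σ e ∈ A) ∧
      E.card ≤ 2 * finrank ℝ (A.sup L : Submodule ℝ M) := by
  classical
  obtain ⟨A, hA, hmin⟩ := exists_min_image
    (E.powerset.filter (fun A => ∀ S ⊆ E, (∀ e ∈ S, σ e ∈ S) →
      S.card ≤ 2 * finrank ℝ ((A ∩ S).sup L : Submodule ℝ M))) Finset.card
    ⟨E, mem_filter.2 ⟨mem_powerset.2 subset_rfl, fun S hS hs => by
      rw [inter_eq_right.2 hS]; exact hE S hS hs⟩⟩
  rw [mem_filter, mem_powerset] at hA
  obtain ⟨hAE, hA⟩ := hA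
  have fail : ∀ e ∈ A, ∃ S ⊆ E, (∀ e ∈ S, σ e ∈ S) ∧ e ∈ S ∧
      2 * finrank ℝ ((A.erase e ∩ S).sup L : Submodule ℝ M) + 2 ≤ S.card := by
    intro e he
    by_contra hc
    push Not at hc
    have := hmin (A.erase e) (mem_filter.2 ⟨mem_powerset.2 ((erase_subset _ _).trans hAE), ?_⟩)
    · have h2 := card_erase_lt_of_mem he
      omega
    · intro S hS hs
      by_cases heS : e ∈ S
      · have h1 := hc S hS hs heS
        obtain ⟨k, hk⟩ := even_card_of_invol S σ hs (fun a _ => hi a) (fun a ha => hn a (hS ha))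
        omega
      · have : A.erase e ∩ S = A ∩ S := by
          ext x
          simp only [mem_inter, mem_erase]
          exact ⟨fun h => ⟨h.1.2, h.2⟩, fun h => ⟨⟨fun e' => heS (e' ▸ h.2), h.1⟩, h.2⟩⟩
        rw [this]; exact hA S hS hs
  refine ⟨A, hAE, ?_, ?_, ?_⟩
  · intro e he hse
    obtain ⟨S1, a1, a2, a3, a4⟩ := fail e he
    obtain ⟨S2, b1, b2, b3, b4⟩ := fail (σ e) hse
    have b3' : e ∈ S2 := by have := b2 _ b3; rwa [hi] at this
    have a3' : σ e ∈ S1 := a2 e a3
    have hne := hn e (hAE he)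
    have c1 := hA (S1 ∪ S2) (union_subset a1 b1) (fun x hx => by
      rw [mem_union] at hx ⊢; exact hx.imp (a2 x) (b2 x))
    have c2 := hA (((S1 ∩ S2).erase e).erase (σ e))
      ((erase_subset _ _).trans ((erase_subset _ _).trans (inter_subset_left.trans a1)))
      (fun x hx => by
        simp only [mem_erase, mem_inter] at hx ⊢
        refine ⟨fun h => hx.2.1 (by rw [← hi x, h, hi]), fun h => hx.1 (by rw [← h, hi]),
          a2 x hx.2.2.1, b2 x hx.2.2.2⟩)
    have c3 := Submodule.finrank_sup_add_finrank_inf_eq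
      ((A.erase e ∩ S1).sup L : Submodule ℝ M) ((A.erase (σ e) ∩ S2).sup L : Submodule ℝ M)
    have c4 : finrank ℝ ((A ∩ (S1 ∪ S2)).sup L : Submodule ℝ M) ≤ finrank ℝ
        ((A.erase e ∩ S1).sup L ⊔ (A.erase (σ e) ∩ S2).sup L : Submodule ℝ M) := by
      apply Submodule.finrank_mono
      rw [← sup_union]
      apply sup_mono
      intro x hx
      simp only [mem_inter, mem_union, mem_erase] at hx ⊢
      by_cases h1 : x = e
      · right; exact ⟨⟨by rw [h1]; exact hne.symm, hx.1⟩, h1 ▸ b3'⟩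
      · by_cases h2 : x = σ e
        · left; exact ⟨⟨h1, hx.1⟩, h2 ▸ a3'⟩
        · exact hx.2.imp (fun h => ⟨⟨h1, hx.1⟩, h⟩) (fun h => ⟨⟨h2, hx.1⟩, h⟩)
    have c5 : finrank ℝ ((A ∩ (((S1 ∩ S2).erase e).erase (σ e))).sup L : Submodule ℝ M) ≤ finrank ℝ
        ((A.erase e ∩ S1).sup L ⊓ (A.erase (σ e) ∩ S2).sup L : Submodule ℝ M) := by
      apply Submodule.finrank_mono
      apply le_inf
      · apply sup_mono
        intro x hx
        simp only [mem_inter, mem_erase] at hx ⊢
        exact ⟨⟨hx.2.2.1, hx.1⟩, hx.2.2.2.1⟩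
      · apply sup_mono
        intro x hx
        simp only [mem_inter, mem_erase] at hx ⊢
        exact ⟨⟨hx.2.1, hx.1⟩, hx.2.2.2.2⟩
    have c6 := card_union_add_card_inter S1 S2
    have c7 : (((S1 ∩ S2).erase e).erase (σ e)).card + 2 = (S1 ∩ S2).card := by
      have m1 : e ∈ S1 ∩ S2 := mem_inter.2 ⟨a3, b3'⟩
      have m2 : σ e ∈ (S1 ∩ S2).erase e := mem_erase.2 ⟨hne, mem_inter.2 ⟨a3', b3⟩⟩
      have := card_erase_add_one m1
      have := card_erase_add_one m2
      omega
    omega
  · intro e he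
    by_contra hc
    push Not at hc
    have := hA {e, σ e} (by
      intro x hx; simp only [mem_insert, mem_singleton] at hx
      rcases hx with rfl | rfl
      · exact he
      · exact hm e he) (by
      intro x hx; simp only [mem_insert, mem_singleton] at hx ⊢
      rcases hx with rfl | rfl
      · exact Or.inr rfl
      · exact Or.inl (hi e))
    have h2 : A ∩ {e, σ e} = ∅ := by
      ext x
      simp only [mem_inter, mem_insert, mem_singleton, notMem_empty, iff_false]
      rintro ⟨h1, rfl | rfl⟩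
      · exact hc.1 h1
      · exact hc.2 h1
    rw [h2, sup_empty, finrank_bot, card_pair (hn e he).symm] at this
    omega
  · have := hA E subset_rfl hm
    rwa [inter_eq_left.2 hAE] at this

variable {V : Type*} [Fintype V] [DecidableEq V]

/-- The line spanned by the incidence vector of an edge. -/
def edgeSp (e : Sym2 V) : Submodule ℝ (V → ℝ) :=
  Submodule.span ℝ {x | ∃ u w, e = s(u, w) ∧ x = Pi.single u 1 - Pi.single w 1}

lemma mem_edgeSp {F : Finset (Sym2 V)} {u w : V} (h : s(u, w) ∈ F) :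
    (Pi.single u 1 - Pi.single w 1 : V → ℝ) ∈ (F.sup edgeSp : Submodule ℝ (V → ℝ)) :=
  (le_sup (f := edgeSp) h : edgeSp _ ≤ _) (Submodule.subset_span ⟨u, w, rfl, rfl⟩)

/-- Pairing with a function. -/
def pairing (f : V → ℝ) : (V → ℝ) →ₗ[ℝ] ℝ where
  toFun x := ∑ v, x v * f v
  map_add' x y := by simp [add_mul, sum_add_distrib]
  map_smul' c x := by simp [mul_sum, mul_assoc]

lemma pairing_single (f : V → ℝ) (u : V) : pairing f (Pi.single u 1) = f u := by
  simp [pairing, Pi.single_apply]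

lemma const_of_rank (A : Finset (Sym2 V))
    (h : Fintype.card V ≤ finrank ℝ (A.sup edgeSp : Submodule ℝ (V → ℝ)) + 1) (f : V → ℝ)
    (hf : ∀ u w, s(u, w) ∈ A → f u = f w) (u w : V) : f u = f w := by
  have key : ∀ g : V → ℝ, (∀ u w, s(u, w) ∈ A → g u = g w) →
      (A.sup edgeSp : Submodule ℝ (V → ℝ)) ≤ LinearMap.ker (pairing g) := by
    intro g hg
    apply Finset.sup_le
    intro e he
    apply Submodule.span_le.2
    rintro x ⟨u, w, rfl, rfl⟩
    simp only [SetLike.mem_coe, LinearMap.mem_ker, map_sub, pairing_single]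
    rw [hg u w he, sub_self]
  have h1 := key (fun _ => 1) (fun _ _ _ => rfl)
  have h2 := LinearMap.finrank_range_add_finrank_ker (pairing (fun _ : V => (1 : ℝ)))
  rw [Module.finrank_fintype_fun_eq_card] at h2
  have h3 : 0 < finrank ℝ (LinearMap.range (pairing (fun _ : V => (1 : ℝ)))) := by
    rw [Module.finrank_pos_iff_exists_ne_zero]
    refine ⟨⟨1, ⟨Pi.single u 1, pairing_single _ _⟩⟩, fun e => ?_⟩
    simpa using congrArg Subtype.val e
  have h4 := Submodule.eq_of_le_of_finrank_le h1 (by omega)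
  have h5 : (Pi.single u 1 - Pi.single w 1 : V → ℝ) ∈
      LinearMap.ker (pairing (fun _ : V => (1 : ℝ))) := by
    simp [pairing_single]
  rw [← h4] at h5
  have h6 := key f hf h5
  simp only [LinearMap.mem_ker, map_sub, pairing_single] at h6
  linarith

lemma rank_of_sparse (S : Finset (Sym2 V))
    (hs : ∀ T : Finset V, T.Nonempty → (S.filter (fun e => ∀ x ∈ e, x ∈ T)).card + 2 ≤ 2 * T.card) :
    S.card ≤ 2 * finrank ℝ (S.sup edgeSp : Submodule ℝ (V → ℝ)) := by
  classical
  set W : Submodule ℝ (V → ℝ) := S.sup edgeSp with hW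
  let r : Setoid V :=
    { r := fun u w => (Pi.single u 1 - Pi.single w 1 : V → ℝ) ∈ W
      iseqv :=
        { refl := fun u => by simp
          symm := fun {u w} h => by have := W.neg_mem h; rwa [neg_sub] at this
          trans := fun {u w z} h1 h2 => by have := W.add_mem h1 h2; rwa [sub_add_sub_cancel] at this } }
  set rep : V → V := fun u => (Quotient.mk r u).out with hrep
  have rep1 : ∀ u, (Pi.single (rep u) 1 - Pi.single u 1 : V → ℝ) ∈ W :=
    fun u => Quotient.mk_out (s := r) u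
  have rep2 : ∀ u w, (Pi.single u 1 - Pi.single w 1 : V → ℝ) ∈ W → rep u = rep w :=
    fun u w h => by
      have : Quotient.mk r u = Quotient.mk r w := Quotient.sound h
      simp only [hrep, this]
  have rep3 : ∀ u, rep (rep u) = rep u := fun u => rep2 _ _ (rep1 u)
  set Q : Finset V := univ.filter (fun u => rep u = u) with hQ
  have h1 : Fintype.card V = Q.card + Fintype.card {u // rep u ≠ u} := by
    rw [Fintype.card_subtype, hQ, card_filter_add_card_filter_not, card_univ]
  have h2 : Fintype.card {u // rep u ≠ u} ≤ finrank ℝ W := by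
    let f : (V → ℝ) →ₗ[ℝ] ({u // rep u ≠ u} → ℝ) := LinearMap.funLeft ℝ ℝ Subtype.val
    have a1 := Submodule.finrank_map_le f W
    have a2 : W.map f = ⊤ := by
      rw [eq_top_iff, ← (Pi.basisFun ℝ {u // rep u ≠ u}).span_eq, Submodule.span_le]
      rintro _ ⟨u, rfl⟩
      refine ⟨_, W.neg_mem (rep1 u.1), ?_⟩
      funext z
      have hz : z.1 ≠ rep u.1 := fun e => z.2 (by rw [e, rep3])
      simp only [f, LinearMap.funLeft_apply, Pi.basisFun_apply, Pi.neg_apply, Pi.sub_apply,
        Pi.single_apply, hz, if_false, Subtype.ext_iff]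
      simp
    rw [a2, finrank_top, Module.finrank_fintype_fun_eq_card] at a1
    exact a1
  have h3 : S ⊆ Q.biUnion (fun t =>
      S.filter (fun e => ∀ x ∈ e, x ∈ univ.filter (fun u => rep u = t))) := by
    intro e he
    induction e using Sym2.ind with
    | h u w =>
      rw [mem_biUnion]
      refine ⟨rep u, by simp [hQ, rep3], mem_filter.2 ⟨he, ?_⟩⟩
      intro x hx
      rw [Sym2.mem_iff] at hx
      rcases hx with rfl | rfl
      · simp
      · simp [rep2 u x (mem_edgeSp he)]
  have h4 := (card_le_card h3).trans card_biUnion_le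
  have h5 : ∑ t ∈ Q, ((S.filter (fun e => ∀ x ∈ e, x ∈ univ.filter (fun u => rep u = t))).card + 2)
      ≤ ∑ t ∈ Q, 2 * (univ.filter (fun u => rep u = t)).card := by
    apply sum_le_sum
    intro t ht
    apply hs
    exact ⟨t, by simpa [hQ] using ht⟩
  have h6 : Fintype.card V = ∑ t ∈ Q, (univ.filter (fun u => rep u = t)).card := by
    rw [← card_univ]
    exact card_eq_sum_card_fiberwise (f := rep) (fun u _ => by simp [hQ, rep3])
  rw [sum_add_distrib, ← mul_sum, sum_const, smul_eq_mul, ← h6] at h5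
  omega

end Pool.Agent.H615Z.Iso
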