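import Mathlib
import Pool.Agent.H615Z.IsoMain
import Pool.Agent.H615Z.IsoRado
import Pool.Agent.H615Z.IsoDefs

set_option autoImplicit false

namespace Pool.Agent.H615Z.Iso

open Finset Module

variable {V : Type*} [Fintype V]

open Classical in
lemma sparse_of_tight {G : SimpleGraph V} (ht : IsoDefs.Tight22 G) (T : Finset V)
    (hT : T.Nonempty) : (G.edgeFinset.filter (fun e => ∀ x ∈ e, x ∈ T)).card + 2 ≤ 2 * T.card := by
  have h := ht.2 ((⊤ : G.Subgraph).induce (T : Set V)) (by simpa using hT)
  have h1 : ((⊤ : G.Subgraph).induce (T : Set V)).edgeSet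
      = (G.edgeFinset.filter (fun e => ∀ x ∈ e, x ∈ T) : Finset (Sym2 V)) := by
    ext e
    induction e using Sym2.ind with
    | h u w => simp; tauto
  rw [h1, Set.ncard_coe_finset] at h
  simpa using h

theorem comb (G : SimpleGraph V) (σ : G ≃g G) (hσ : ∀ v, σ (σ v) = v) (ht : IsoDefs.Tight22 G)
    (hfix : ∀ e ∈ G.edgeSet, Sym2.map σ e ≠ e) :
    ∃ X Y : V → ℝ, (∀ v, X (σ v) = X v) ∧ (∀ v, Y (σ v) = - Y v) ∧
      (∀ u w, G.Adj u w → (X u - X w) * (Y u - Y w) ≠ 0) ∧
      (∀ f : V → ℝ, (∀ u w, G.Adj u w → 0 < (X u - X w) * (Y u - Y w) → f u = f w) →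
        ∀ u w, f u = f w) ∧
      (∀ f : V → ℝ, (∀ u w, G.Adj u w → (X u - X w) * (Y u - Y w) < 0 → f u = f w) →
        ∀ u w, f u = f w) ∧
      ∀ e ∈ G.edgeSet, ∃ f : V → ℝ, (∃ u w, f u ≠ f w) ∧
        ((∀ u w, G.Adj u w → s(u, w) ≠ e → 0 < (X u - X w) * (Y u - Y w) → f u = f w) ∨
          (∀ u w, G.Adj u w → s(u, w) ≠ e → (X u - X w) * (Y u - Y w) < 0 → f u = f w)) := by
  classical
  have hsp := sparse_of_tight ht
  have hi : ∀ e : Sym2 V, Sym2.map σ (Sym2.map σ e) = e := by
    intro e
    induction e using Sym2.ind with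
    | h u w => simp [hσ]
  have hm : ∀ e ∈ G.edgeFinset, Sym2.map σ e ∈ G.edgeFinset := by
    intro e he
    induction e using Sym2.ind with
    | h u w =>
      have : G.Adj u w := by simpa using he
      simpa using σ.map_rel_iff.2 this
  have hcard : G.edgeFinset.card + 2 = 2 * Fintype.card V := by
    have := ht.1
    rwa [← SimpleGraph.coe_edgeFinset, Set.ncard_coe_finset, Nat.card_eq_fintype_card] at this
  obtain ⟨A, hAE, hA1, hA2, hA3⟩ := rado G.edgeFinset (Sym2.map σ) hm hi
    (fun e he => hfix e (by simpa using he)) edgeSp (fun S hS _ => rank_of_sparse S (fun T hT =>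
      le_trans (Nat.add_le_add_right (card_le_card (filter_subset_filter _ hS)) 2)
        (by convert hsp T hT)))
  have hAadj : ∀ u w, s(u, w) ∈ A → G.Adj u w := fun u w h => by simpa using hAE h
  have hor : ∀ u w, G.Adj u w → s(u, w) ∈ A ∨ s(σ u, σ w) ∈ A := fun u w h => by
    simpa using hA2 s(u, w) (by simpa using h)
  have g : Good σ univ (fun u w => s(u, w) ∈ A) :=
    { inv := hσ
      symm := fun u w h => by rwa [Sym2.eq_swap]
      irr := fun u h => G.irrefl (hAadj u u h)
      mem := fun u _ => mem_univ _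
      nc := fun u _ w _ h => by simpa using hA1 _ h
      sparse := fun T _ hT => by
        let GT : SimpleGraph V :=
          { Adj := fun u w => G.Adj u w ∧ u ∈ T ∧ w ∈ T
            symm := ⟨fun u w h => ⟨h.1.symm, h.2.2, h.2.1⟩⟩
            loopless := ⟨fun u h => G.irrefl h.1⟩ }
        have h1 := GT.two_mul_card_edgeFinset
        have h2 : D σ (fun u w => s(u, w) ∈ A) T ≤ 2 * GT.edgeFinset.card := by
          rw [h1]
          apply card_le_card
          rintro ⟨u, w⟩ hp
          rw [mem_prs] at hp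
          simp only [mem_filter, mem_univ, true_and]
          refine ⟨?_, hp.1, hp.2.1⟩
          rcases hp.2.2 with r | r
          · exact hAadj _ _ r
          · exact σ.map_rel_iff.1 (hAadj _ _ r)
        have h3 : GT.edgeFinset.card ≤ (G.edgeFinset.filter (fun e => ∀ x ∈ e, x ∈ T)).card := by
          apply card_le_card
          intro e he
          induction e using Sym2.ind with
          | h u w =>
            have : GT.Adj u w := by simpa using he
            simp [this.1, this.2.1, this.2.2]
        have h4 := hsp T hT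
        omega }
  obtain ⟨X, Y, r⟩ := g.rable
  have red : ∀ u w, s(u, w) ∈ A → 0 < (X u - X w) * (Y u - Y w) :=
    fun u w h => r.red u (mem_univ _) w (mem_univ _) h
  have blue : ∀ u w, s(σ u, σ w) ∈ A → (X u - X w) * (Y u - Y w) < 0 :=
    fun u w h => r.blue g.mem (mem_univ _) (mem_univ _) h
  have hconst := const_of_rank A (by omega)
  have hAcard : A.card + 1 ≤ Fintype.card V := by
    have h1 : A ∪ A.image (Sym2.map σ) ⊆ G.edgeFinset := by
      apply union_subset hAE
      intro e he
      obtain ⟨e', he', rfl⟩ := mem_image.1 he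
      exact hm e' (hAE he')
    have h2 : Disjoint A (A.image (Sym2.map σ)) := by
      rw [disjoint_right]
      intro e he
      obtain ⟨e', he', rfl⟩ := mem_image.1 he
      exact hA1 e' he'
    have h3 := card_le_card h1
    rw [card_union_of_disjoint h2,
      card_image_of_injective _ (Function.LeftInverse.injective hi)] at h3
    omega
  have cut : ∀ e ∈ A, ∃ f : V → ℝ, (∃ u w, f u ≠ f w) ∧
      ∀ u w, s(u, w) ∈ A → s(u, w) ≠ e → f u = f w := by
    intro e he
    set G' := SimpleGraph.fromEdgeSet ((A.erase e : Finset (Sym2 V)) : Set (Sym2 V)) with hG'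
    have hne : Nonempty V := ⟨e.out.1⟩
    have hnc : ¬ G'.Connected := by
      intro hc
      have h1 := hc.card_vert_le_card_edgeSet_add_one
      have h2 : Nat.card G'.edgeSet ≤ (A.erase e).card := by
        rw [Nat.card_coe_set_eq, ← Set.ncard_coe_finset]
        apply Set.ncard_le_ncard _ (finite_toSet _)
        rw [hG', SimpleGraph.edgeSet_fromEdgeSet]
        exact Set.sdiff_subset
      have h3 := card_erase_add_one he
      rw [Nat.card_eq_fintype_card] at h1
      omega
    rw [SimpleGraph.connected_iff] at hnc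
    have hnp : ¬ G'.Preconnected := fun h => hnc ⟨h, hne⟩
    unfold SimpleGraph.Preconnected at hnp
    push Not at hnp
    obtain ⟨u0, w0, h0⟩ := hnp
    refine ⟨fun v => if G'.Reachable u0 v then 1 else 0, ⟨u0, w0, by simp [h0]⟩, ?_⟩
    intro u w h hne'
    have ha : G'.Adj u w := by
      rw [hG', SimpleGraph.fromEdgeSet_adj]
      exact ⟨by simp [h, hne'], (hAadj u w h).ne⟩
    have : G'.Reachable u0 u ↔ G'.Reachable u0 w :=
      ⟨fun k => k.trans ha.reachable, fun k => k.trans ha.symm.reachable⟩
    simp [this]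
  refine ⟨X, Y, fun v => r.xs v (mem_univ _), fun v => r.ys v (mem_univ _), ?_, ?_, ?_, ?_⟩
  · intro u w h
    rcases hor u w h with k | k
    · exact (red u w k).ne'
    · exact (blue u w k).ne
  · intro f hf
    exact hconst f (fun u w h => hf u w (hAadj u w h) (red u w h))
  · intro f hf u w
    have := hconst (fun v => f (σ v)) (fun u w h => hf (σ u) (σ w) (σ.map_rel_iff.2 (hAadj u w h))
      (blue _ _ (by rw [hσ, hσ]; exact h))) (σ u) (σ w)
    simpa [hσ] using this
  · intro e he
    rcases hA2 e (by simpa using he) with k | k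
    · obtain ⟨f, h1, h2⟩ := cut e k
      refine ⟨f, h1, Or.inl (fun u w h ne l => h2 u w ?_ ne)⟩
      exact (hor u w h).resolve_right (fun k' => absurd (blue u w k') (not_lt.2 l.le))
    · obtain ⟨f, ⟨u0, w0, h1⟩, h2⟩ := cut _ k
      refine ⟨fun v => f (σ v), ⟨σ u0, σ w0, by simpa [hσ] using h1⟩,
        Or.inr (fun u w h ne l => h2 _ _ ?_ (fun e' => ne ?_))⟩
      · exact (hor u w h).resolve_left (fun k' => absurd (red u w k') (not_lt.2 l.le))
      · rw [← hi e, ← e']; simp [hσ]

end Pool.Agent.H615Z.Iso
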