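import Mathlib
import Pool.Agent.H615Z.IsoComb

set_option autoImplicit false

namespace Pool.Agent.H615Z.Iso

open IsoDefs

lemma cone_iff (p q x : Fin 2 → ℝ) :
    (∃ t : ℝ, 0 < t ∧ ∃ z ∈ openSegment ℝ p q, x = t • z) ↔
      ∃ α β : ℝ, 0 < α ∧ 0 < β ∧ x = α • p + β • q := by
  constructor
  · rintro ⟨t, ht, z, ⟨α, β, hα, hβ, _, rfl⟩, rfl⟩
    exact ⟨t * α, t * β, mul_pos ht hα, mul_pos ht hβ, by rw [smul_add, smul_smul, smul_smul]⟩
  · rintro ⟨α, β, hα, hβ, rfl⟩
    have h : 0 < α + β := add_pos hα hβ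
    refine ⟨α + β, h, (α / (α + β)) • p + (β / (α + β)) • q,
      ⟨_, _, div_pos hα h, div_pos hβ h, by field_simp, rfl⟩, ?_⟩
    rw [smul_add, smul_smul, smul_smul, mul_div_cancel₀ _ h.ne', mul_div_cancel₀ _ h.ne']

/-- Coordinates with respect to two independent vectors. -/
structure Coord (a b : Fin 2 → ℝ) (c0 c1 : (Fin 2 → ℝ) →ₗ[ℝ] ℝ) : Prop where
  aa : c0 a = 1
  ab : c0 b = 0
  ba : c1 a = 0
  bb : c1 b = 1
  rep : ∀ x, x = c0 x • a + c1 x • b

variable {a b : Fin 2 → ℝ} {c0 c1 : (Fin 2 → ℝ) →ₗ[ℝ] ℝ}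

lemma Coord.eval (h : Coord a b c0 c1) (φ : (Fin 2 → ℝ) →ₗ[ℝ] ℝ) (x : Fin 2 → ℝ) :
    φ x = c0 x * φ a + c1 x * φ b := by
  conv_lhs => rw [h.rep x]
  simp

lemma Coord.cone0 (h : Coord a b c0 c1) (x : Fin 2 → ℝ) :
    InCone a b 0 x ↔ 0 < c0 x ∧ 0 < c1 x := by
  unfold InCone
  rw [cone_iff]
  change (∃ α β : ℝ, 0 < α ∧ 0 < β ∧ x = α • a + β • b) ↔ _
  constructor
  · rintro ⟨α, β, hα, hβ, rfl⟩; simp [h.aa, h.ab, h.ba, h.bb, hα, hβ]
  · rintro ⟨h1, h2⟩; exact ⟨_, _, h1, h2, h.rep x⟩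

lemma Coord.cone1 (h : Coord a b c0 c1) (x : Fin 2 → ℝ) :
    InCone a b 1 x ↔ c0 x < 0 ∧ 0 < c1 x := by
  unfold InCone
  rw [cone_iff]
  change (∃ α β : ℝ, 0 < α ∧ 0 < β ∧ x = α • b + β • (-a)) ↔ _
  constructor
  · rintro ⟨α, β, hα, hβ, rfl⟩; simp [h.aa, h.ab, h.ba, h.bb, hα, hβ]
  · rintro ⟨h1, h2⟩
    refine ⟨_, -c0 x, h2, by linarith, ?_⟩
    conv_lhs => rw [h.rep x]
    simp [add_comm]

lemma Coord.cone2 (h : Coord a b c0 c1) (x : Fin 2 → ℝ) :
    InCone a b 2 x ↔ c0 x < 0 ∧ c1 x < 0 := by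
  unfold InCone
  rw [cone_iff]
  change (∃ α β : ℝ, 0 < α ∧ 0 < β ∧ x = α • (-a) + β • (-b)) ↔ _
  constructor
  · rintro ⟨α, β, hα, hβ, rfl⟩; simp [h.aa, h.ab, h.ba, h.bb, hα, hβ]
  · rintro ⟨h1, h2⟩
    refine ⟨-c0 x, -c1 x, by linarith, by linarith, ?_⟩
    conv_lhs => rw [h.rep x]
    simp

lemma Coord.cone3 (h : Coord a b c0 c1) (x : Fin 2 → ℝ) :
    InCone a b 3 x ↔ 0 < c0 x ∧ c1 x < 0 := by
  unfold InCone
  rw [cone_iff]
  change (∃ α β : ℝ, 0 < α ∧ 0 < β ∧ x = α • (-b) + β • a) ↔ _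
  constructor
  · rintro ⟨α, β, hα, hβ, rfl⟩; simp [h.aa, h.ab, h.ba, h.bb, hα, hβ]
  · rintro ⟨h1, h2⟩
    refine ⟨-c1 x, _, by linarith, h1, ?_⟩
    conv_lhs => rw [h.rep x]
    simp [add_comm]

lemma one_on_segment {p q : Fin 2 → ℝ} (φ : (Fin 2 → ℝ) →ₗ[ℝ] ℝ) :
    (∀ z ∈ segment ℝ p q, φ z = 1) ↔ φ p = 1 ∧ φ q = 1 := by
  constructor
  · intro h; exact ⟨h p (left_mem_segment ℝ p q), h q (right_mem_segment ℝ p q)⟩
  · rintro ⟨h1, h2⟩ z ⟨α, β, _, _, h, rfl⟩
    simp [h1, h2, h]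

/-- The flex condition on one edge vector. -/
lemma Coord.flex_iff (h : Coord a b c0 c1) (d x : Fin 2 → ℝ) :
    (∀ (i : Fin 4) (φ : (Fin 2 → ℝ) →ₗ[ℝ] ℝ), InCone a b i d →
      (∀ z ∈ facet a b i, φ z = 1) → φ x = 0) ↔
    (0 < c0 d * c1 d → c0 x + c1 x = 0) ∧ (c0 d * c1 d < 0 → c0 x - c1 x = 0) := by
  have f0 : facet a b 0 = segment ℝ a b := rfl
  have f1 : facet a b 1 = segment ℝ b (-a) := rfl
  have f2 : facet a b 2 = segment ℝ (-a) (-b) := rfl
  have f3 : facet a b 3 = segment ℝ (-b) a := rfl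
  constructor
  · intro H
    constructor
    · intro l
      rcases mul_pos_iff.1 l with k | k
      · simpa using H 0 (c0 + c1) ((h.cone0 d).2 k)
          (by rw [f0, one_on_segment]; simp [h.aa, h.ab, h.ba, h.bb])
      · have := H 2 (-(c0 + c1)) ((h.cone2 d).2 k)
          (by rw [f2, one_on_segment]; simp [h.aa, h.ab, h.ba, h.bb])
        simp only [LinearMap.neg_apply, LinearMap.add_apply] at this
        linarith
    · intro l
      rcases mul_neg_iff.1 l with k | k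
      · simpa using H 3 (c0 - c1) ((h.cone3 d).2 k)
          (by rw [f3, one_on_segment]; simp [h.aa, h.ab, h.ba, h.bb])
      · have := H 1 (c1 - c0) ((h.cone1 d).2 k)
          (by rw [f1, one_on_segment]; simp [h.aa, h.ab, h.ba, h.bb])
        simp only [LinearMap.sub_apply] at this
        linarith
  · rintro ⟨H1, H2⟩ i φ hc hφ
    rw [h.eval φ x]
    fin_cases i
    · have k := (h.cone0 d).1 hc
      have e := (one_on_segment φ).1 (f0 ▸ hφ)
      have := H1 (mul_pos k.1 k.2)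
      rw [e.1, e.2]; linarith
    · have k := (h.cone1 d).1 hc
      have e := (one_on_segment φ).1 (f1 ▸ hφ)
      have := H2 (mul_neg_of_neg_of_pos k.1 k.2)
      have e2 : φ a = -1 := by have := e.2; rw [map_neg] at this; linarith
      rw [e.1, e2]; linarith
    · have k := (h.cone2 d).1 hc
      have e := (one_on_segment φ).1 (f2 ▸ hφ)
      have := H1 (mul_pos_of_neg_of_neg k.1 k.2)
      have e1 : φ a = -1 := by have := e.1; rw [map_neg] at this; linarith
      have e2 : φ b = -1 := by have := e.2; rw [map_neg] at this; linarith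
      rw [e1, e2]; linarith
    · have k := (h.cone3 d).1 hc
      have e := (one_on_segment φ).1 (f3 ▸ hφ)
      have := H2 (mul_neg_of_pos_of_neg k.1 k.2)
      have e1 : φ b = -1 := by have := e.1; rw [map_neg] at this; linarith
      rw [e1, e.2]; linarith

lemma Coord.isostatic (h : Coord a b c0 c1) {V : Type*} (G : SimpleGraph V) (A B : V → ℝ)
    (h1 : ∀ u w, G.Adj u w → (A u - A w) * (B u - B w) ≠ 0)
    (h2 : ∀ f : V → ℝ, (∀ u w, G.Adj u w → 0 < (A u - A w) * (B u - B w) → f u = f w) →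
        ∀ u w, f u = f w)
    (h3 : ∀ f : V → ℝ, (∀ u w, G.Adj u w → (A u - A w) * (B u - B w) < 0 → f u = f w) →
        ∀ u w, f u = f w)
    (h4 : ∀ e ∈ G.edgeSet, ∃ f : V → ℝ, (∃ u w, f u ≠ f w) ∧
        ((∀ u w, G.Adj u w → s(u, w) ≠ e → 0 < (A u - A w) * (B u - B w) → f u = f w) ∨
          (∀ u w, G.Adj u w → s(u, w) ≠ e → (A u - A w) * (B u - B w) < 0 → f u = f w))) :
    Isostatic a b G (fun v => A v • a + B v • b) := by
  have e0 : ∀ u w, c0 ((A u • a + B u • b) - (A w • a + B w • b)) = A u - A w := fun u w => by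
    simp [h.aa, h.ab]
  have e1 : ∀ u w, c1 ((A u • a + B u • b) - (A w • a + B w • b)) = B u - B w := fun u w => by
    simp [h.ba, h.bb]
  refine ⟨⟨?_, ?_⟩, ?_⟩
  · intro u w adj
    rcases lt_or_gt_of_ne (h1 u w adj) with l | l
    · rcases mul_neg_iff.1 l with k | k
      · exact ⟨3, (h.cone3 _).2 (by rw [e0, e1]; exact k)⟩
      · exact ⟨1, (h.cone1 _).2 (by rw [e0, e1]; exact k)⟩
    · rcases mul_pos_iff.1 l with k | k
      · exact ⟨0, (h.cone0 _).2 (by rw [e0, e1]; exact k)⟩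
      · exact ⟨2, (h.cone2 _).2 (by rw [e0, e1]; exact k)⟩
  · intro u hu v w
    have k := fun v w adj => (h.flex_iff _ _).1 (hu v w adj)
    simp only [e0, e1, map_sub] at k
    have k1 := h2 (fun v => c0 (u v) + c1 (u v)) (fun v w adj l => by
      have := (k v w adj).1 l; linarith) v w
    have k2 := h3 (fun v => c0 (u v) - c1 (u v)) (fun v w adj l => by
      have := (k v w adj).2 l; linarith) v w
    rw [h.rep (u v), h.rep (u w)]
    have a1 : c0 (u v) = c0 (u w) := by linarith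
    have a2 : c1 (u v) = c1 (u w) := by linarith
    rw [a1, a2]
  · intro e he hr
    obtain ⟨f, ⟨u0, w0, hne⟩, hf | hf⟩ := h4 e he
    · have := hr.2 (fun v => f v • (a + b)) (fun v w adj => (h.flex_iff _ _).2 (by
        rw [SimpleGraph.deleteEdges_adj, Set.mem_singleton_iff] at adj
        rw [e0, e1]
        refine ⟨fun l => ?_, fun _ => ?_⟩
        · simp [hf v w adj.1 adj.2 l]
        · simp [h.aa, h.ab, h.ba, h.bb])) u0 w0
      have := congrArg c0 this
      simp [h.aa, h.ab] at this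
      exact hne this
    · have := hr.2 (fun v => f v • (a - b)) (fun v w adj => (h.flex_iff _ _).2 (by
        rw [SimpleGraph.deleteEdges_adj, Set.mem_singleton_iff] at adj
        rw [e0, e1]
        refine ⟨fun _ => ?_, fun l => ?_⟩
        · simp [h.aa, h.ab, h.ba, h.bb]
        · simp [hf v w adj.1 adj.2 l])) u0 w0
      have := congrArg c0 this
      simp [h.aa, h.ab] at this
      exact hne this

lemma Coord.quad_bound (h : Coord a b c0 c1) {x : Fin 2 → ℝ} (hx : x ∈ quad a b) :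
    |c0 x| + |c1 x| ≤ 1 := by
  have key : ∀ ε δ : ℝ, |ε| ≤ 1 → |δ| ≤ 1 → ε * c0 x + δ * c1 x ≤ 1 := by
    intro ε δ h1 h2
    have hc : Convex ℝ {y | (ε • c0 + δ • c1) y ≤ 1} :=
      convex_halfSpace_le (ε • c0 + δ • c1).isLinear 1
    have := convexHull_min (s := Set.range (vert a b)) (by
      rintro _ ⟨i, rfl⟩
      rw [abs_le] at h1 h2
      fin_cases i <;> simp [vert, h.aa, h.ab, h.ba, h.bb] <;> linarith) hc hx
    simpa using this
  rcases abs_cases (c0 x) with k | k <;> rcases abs_cases (c1 x) with k' | k'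
  · have := key 1 1 (by simp) (by simp); linarith
  · have := key 1 (-1) (by simp) (by simp); linarith
  · have := key (-1) 1 (by simp) (by simp); linarith
  · have := key (-1) (-1) (by simp) (by simp); linarith

lemma matrix_cases {α β γ δ : ℝ} (h1 : |α| + |β| ≤ 1) (h2 : |γ| + |δ| ≤ 1)
    (hd : α * δ - γ * β = -1) :
    (α = 1 ∧ β = 0 ∧ γ = 0 ∧ δ = -1) ∨ (α = -1 ∧ β = 0 ∧ γ = 0 ∧ δ = 1) ∨
      (α = 0 ∧ β = 1 ∧ γ = 1 ∧ δ = 0) ∨ (α = 0 ∧ β = -1 ∧ γ = -1 ∧ δ = 0) := by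
  have a1 := abs_nonneg α
  have a2 := abs_nonneg β
  have a3 := abs_nonneg γ
  have a4 := abs_nonneg δ
  have h3 : 1 ≤ |α| * |δ| + |γ| * |β| := by
    rw [← abs_mul, ← abs_mul]
    have := neg_le_abs (α * δ)
    have := le_abs_self (γ * β)
    linarith
  have h4 : |α| * |γ| + |β| * |δ| ≤ 0 := by nlinarith
  have h5 : |α| * |γ| = 0 := by nlinarith [mul_nonneg a1 a3, mul_nonneg a2 a4]
  have h6 : |β| * |δ| = 0 := by nlinarith [mul_nonneg a1 a3, mul_nonneg a2 a4]
  rw [mul_eq_zero, abs_eq_zero, abs_eq_zero] at h5 h6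
  rcases h5 with rfl | rfl <;> rcases h6 with rfl | rfl
  · simp at hd
  · right; right
    simp only [abs_zero, zero_add, add_zero, mul_zero, zero_sub, neg_inj] at h1 h2 hd
    rw [abs_le] at h1 h2
    rcases le_total 0 β with l | l
    · left; refine ⟨rfl, by nlinarith, by nlinarith, rfl⟩
    · right; refine ⟨rfl, by nlinarith, by nlinarith, rfl⟩
  · simp only [abs_zero, zero_add, add_zero, mul_zero, sub_zero] at h1 h2 hd
    rw [abs_le] at h1 h2
    rcases le_total 0 α with l | l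
    · left; refine ⟨by nlinarith, rfl, rfl, by nlinarith⟩
    · right; left; refine ⟨by nlinarith, rfl, rfl, by nlinarith⟩
  · simp at hd

theorem main {V : Type*} [Finite V] (a b : Fin 2 → ℝ) (hab : LinearIndependent ℝ ![a, b])
    (τ : (Fin 2 → ℝ) →ₗ[ℝ] (Fin 2 → ℝ)) (hdet : LinearMap.det τ = -1)
    (hP : τ '' quad a b = quad a b)
    (hswap : ¬ ∀ i, τ '' facet a b i = facet a b i ∨ τ '' facet a b i = -facet a b i)
    (G : SimpleGraph V) (σ : G ≃g G) (hσ : ∀ v, σ (σ v) = v) (ht : Tight22 G)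
    (hfix : ∀ e ∈ G.edgeSet, Sym2.map σ e ≠ e) :
    ∃ p : V → Fin 2 → ℝ, WellPositioned a b G p ∧ Isostatic a b G p ∧ ∀ v, p (σ v) = τ (p v) := by
  have := Fintype.ofFinite V
  set B := basisOfLinearIndependentOfCardEqFinrank hab (by simp) with hB
  have B0 : B 0 = a := by simp [hB]
  have B1 : B 1 = b := by simp [hB]
  have h : Coord a b (B.coord 0) (B.coord 1) :=
    { aa := by rw [← B0]; simp
      ab := by rw [← B1]; simp
      ba := by rw [← B0]; simp
      bb := by rw [← B1]; simp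
      rep := fun x => by
        have := B.sum_repr x
        rw [Fin.sum_univ_two, B0, B1] at this
        exact this.symm }
  have ma : τ a ∈ quad a b := hP ▸ Set.mem_image_of_mem τ (subset_convexHull ℝ _ ⟨0, rfl⟩)
  have mb : τ b ∈ quad a b := hP ▸ Set.mem_image_of_mem τ (subset_convexHull ℝ _ ⟨1, rfl⟩)
  have hd : B.coord 0 (τ a) * B.coord 1 (τ b) - B.coord 0 (τ b) * B.coord 1 (τ a) = -1 := by
    rw [← LinearMap.det_toMatrix B, Matrix.det_fin_two] at hdet
    simpa [LinearMap.toMatrix_apply, B0, B1] using hdet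
  have ra := h.rep (τ a)
  have rb := h.rep (τ b)
  obtain ⟨X, Y, k1, k2, k3, k4, k5, k6⟩ := comb G σ hσ ht hfix
  have neg_seg : ∀ p q : Fin 2 → ℝ, -segment ℝ p q = segment ℝ (-p) (-q) := fun p q => by
    rw [← Set.image_neg_eq_neg]
    exact image_segment ℝ (-LinearMap.id : (Fin 2 → ℝ) →ₗ[ℝ] (Fin 2 → ℝ)).toAffineMap p q
  have im_seg : ∀ p q : Fin 2 → ℝ, τ '' segment ℝ p q = segment ℝ (τ p) (τ q) := fun p q =>
    image_segment ℝ τ.toAffineMap p q
  rcases matrix_cases (h.quad_bound ma) (h.quad_bound mb) hd with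
    ⟨e1, e2, e3, e4⟩ | ⟨e1, e2, e3, e4⟩ | ⟨e1, e2, e3, e4⟩ | ⟨e1, e2, e3, e4⟩
  all_goals
    rw [e1, e2] at ra
    rw [e3, e4] at rb
    simp only [one_smul, zero_smul, add_zero, zero_add, neg_smul] at ra rb
  · have hi := h.isostatic G X Y k3 k4 k5 k6
    exact ⟨_, hi.1.1, hi, fun v => by simp [k1, k2, ra, rb]⟩
  · have hi := h.isostatic G Y X (by simpa only [mul_comm] using k3)
      (by simpa only [mul_comm] using k4) (by simpa only [mul_comm] using k5)
      (by simpa only [mul_comm] using k6)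
    exact ⟨_, hi.1.1, hi, fun v => by simp [k1, k2, ra, rb]⟩
  · exfalso
    apply hswap
    intro i
    unfold facet
    rw [im_seg, neg_seg]
    fin_cases i <;> simp [vert, ra, rb, segment_symm]
  · exfalso
    apply hswap
    intro i
    unfold facet
    rw [im_seg, neg_seg]
    fin_cases i <;> simp [vert, ra, rb, segment_symm]

end Pool.Agent.H615Z.Iso
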