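import Mathlib

set_option autoImplicit false

namespace Pool.Agent.H615Z.Ritt

open Finset

/-- One convolution step. -/
noncomputable def conv (p : ℤ → ℝ) (f : ℤ → ℝ) : ℤ → ℝ := fun m => ∑' j : ℤ, f j * p (m - j)

/-- Convolution powers. -/
noncomputable def P (p : ℤ → ℝ) (n : ℕ) : ℤ → ℝ :=
  (conv p)^[n] (fun m => if m = 0 then (1 : ℝ) else 0)

lemma P_zero (p : ℤ → ℝ) : P p 0 = fun m => if m = 0 then (1 : ℝ) else 0 := rfl

lemma P_succ (p : ℤ → ℝ) (n : ℕ) : P p (n + 1) = conv p (P p n) := by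
  unfold P
  rw [Function.iterate_succ_apply']

/-- The shear equivalence. -/
def shear : ℤ × ℤ ≃ ℤ × ℤ where
  toFun x := (x.1, x.2 - x.1)
  invFun x := (x.1, x.2 + x.1)
  left_inv x := by simp
  right_inv x := by simp

lemma summable_pair {p f : ℤ → ℝ} (hp0 : ∀ n, 0 ≤ p n) (hp : Summable p)
    (hf0 : ∀ n, 0 ≤ f n) (hf : Summable f) :
    Summable (fun x : ℤ × ℤ => f x.1 * p (x.2 - x.1)) := by
  have h1 : Summable (fun x : ℤ × ℤ => f x.1 * p x.2) :=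
    hf.mul_of_nonneg hp (fun n => hf0 n) (fun n => hp0 n)
  have h2 := (shear.summable_iff (f := fun x : ℤ × ℤ => f x.1 * p x.2)).2 h1
  simpa [shear, Function.comp_def] using h2

/-- The averaging operator on test functions. -/
noncomputable def T (p : ℤ → ℝ) (F : ℤ → ℂ) : ℤ → ℂ := fun x => ∑' y : ℤ, (p y : ℂ) * F (x + y)

lemma conv_hasSum {p f : ℤ → ℝ} (hp0 : ∀ n, 0 ≤ p n) (hp : Summable p)
    (hf0 : ∀ n, 0 ≤ f n) (hf : Summable f) (F : ℤ → ℂ) (hF : ∀ x, ‖F x‖ ≤ 1) :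
    HasSum (fun m => (conv p f m : ℂ) * F m) (∑' j, (f j : ℂ) * T p F j) := by
  have h1 := summable_pair hp0 hp hf0 hf
  have h2 : Summable (fun x : ℤ × ℤ => ((f x.1 * p (x.2 - x.1) : ℝ) : ℂ) * F x.2) := by
    apply Summable.of_norm_bounded h1
    intro x
    rw [norm_mul, Complex.norm_real, Real.norm_of_nonneg (mul_nonneg (hf0 _) (hp0 _))]
    exact mul_le_of_le_one_right (mul_nonneg (hf0 _) (hp0 _)) (hF _)
  have h3 : HasSum (fun j => (f j : ℂ) * T p F j)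
      (∑' x : ℤ × ℤ, ((f x.1 * p (x.2 - x.1) : ℝ) : ℂ) * F x.2) := by
    apply h2.hasSum.prod_fiberwise
    intro j
    have h4 : Summable (fun y => (p y : ℂ) * F (j + y)) := by
      apply Summable.of_norm_bounded hp
      intro y
      rw [norm_mul, Complex.norm_real, Real.norm_of_nonneg (hp0 _)]
      exact mul_le_of_le_one_right (hp0 _) (hF _)
    have h5 := (h4.hasSum.mul_left (f j : ℂ))
    have h6 := ((Equiv.subRight j).hasSum_iff
      (f := fun y => (f j : ℂ) * ((p y : ℂ) * F (j + y))) (a := (f j : ℂ) * T p F j)).2 h5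
    convert h6 using 1
    funext m
    simp [mul_assoc]
  rw [h3.tsum_eq]
  have h7 : Summable (fun x : ℤ × ℤ => ((f x.2 * p (x.1 - x.2) : ℝ) : ℂ) * F x.1) :=
    ((Equiv.prodComm ℤ ℤ).summable_iff
      (f := fun x : ℤ × ℤ => ((f x.1 * p (x.2 - x.1) : ℝ) : ℂ) * F x.2)).2 h2
  have h8 : (∑' x : ℤ × ℤ, ((f x.1 * p (x.2 - x.1) : ℝ) : ℂ) * F x.2)
      = ∑' x : ℤ × ℤ, ((f x.2 * p (x.1 - x.2) : ℝ) : ℂ) * F x.1 :=
    ((Equiv.prodComm ℤ ℤ).tsum_eq
      (fun x : ℤ × ℤ => ((f x.1 * p (x.2 - x.1) : ℝ) : ℂ) * F x.2)).symm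
  rw [h8]
  apply h7.hasSum.prod_fiberwise
  intro m
  have h9 : Summable (fun j => f j * p (m - j)) := by
    have := (Equiv.prodComm ℤ ℤ).summable_iff (f := fun x : ℤ × ℤ => f x.1 * p (x.2 - x.1))
    exact (this.2 h1).prod_factor m
  have h10 := (Complex.hasSum_ofReal.2 h9.hasSum).mul_right (F m)
  simpa [conv] using h10

lemma P_props {p : ℤ → ℝ} (hp0 : ∀ n, 0 ≤ p n) (hp : Summable p) (hp1 : ∑' n, p n = 1) (n : ℕ) :
    (∀ m, 0 ≤ P p n m) ∧ HasSum (P p n) 1 := by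
  induction n with
  | zero =>
    refine ⟨fun m => ?_, ?_⟩
    · rw [P_zero]; dsimp only; split_ifs <;> norm_num
    · rw [P_zero]; exact hasSum_ite_eq (0 : ℤ) (1 : ℝ)
  | succ n ih =>
    obtain ⟨h0, h1⟩ := ih
    refine ⟨fun m => ?_, ?_⟩
    · rw [P_succ]
      exact tsum_nonneg (fun j => mul_nonneg (h0 j) (hp0 _))
    · have h2 := conv_hasSum hp0 hp h0 h1.summable (fun _ => 1) (by simp)
      have h3 : ∀ j, T p (fun _ => 1) j = 1 := by
        intro j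
        simp only [T, mul_one]
        rw [← Complex.ofReal_tsum, hp1]; simp
      simp only [h3, mul_one] at h2
      rw [← Complex.ofReal_tsum, h1.tsum_eq] at h2
      rw [P_succ]
      exact Complex.hasSum_ofReal.1 h2

/-- Expectation of a test function under the `n`-th convolution power. -/
noncomputable def E (p : ℤ → ℝ) (n : ℕ) (F : ℤ → ℂ) : ℂ := ∑' m, (P p n m : ℂ) * F m

lemma summable_E {p : ℤ → ℝ} (hp0 : ∀ n, 0 ≤ p n) (hp : Summable p) (hp1 : ∑' n, p n = 1) (n : ℕ)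
    (F : ℤ → ℂ) (c : ℝ) (hF : ∀ x, ‖F x‖ ≤ c) : Summable (fun m => (P p n m : ℂ) * F m) := by
  obtain ⟨h0, h1⟩ := P_props hp0 hp hp1 n
  apply Summable.of_norm_bounded (h1.summable.mul_right c)
  intro y
  rw [norm_mul, Complex.norm_real, Real.norm_of_nonneg (h0 _)]
  exact mul_le_mul_of_nonneg_left (hF _) (h0 _)

lemma norm_E_le {p : ℤ → ℝ} (hp0 : ∀ n, 0 ≤ p n) (hp : Summable p) (hp1 : ∑' n, p n = 1) (n : ℕ)
    (F : ℤ → ℂ) (c : ℝ) (hF : ∀ x, ‖F x‖ ≤ c) : ‖E p n F‖ ≤ c := by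
  obtain ⟨h0, h1⟩ := P_props hp0 hp hp1 n
  have h2 := h1.mul_right c
  rw [one_mul] at h2
  apply tsum_of_norm_bounded h2
  intro y
  rw [norm_mul, Complex.norm_real, Real.norm_of_nonneg (h0 _)]
  exact mul_le_mul_of_nonneg_left (hF _) (h0 _)

lemma norm_T_le {p : ℤ → ℝ} (hp0 : ∀ n, 0 ≤ p n) (hp : Summable p) (hp1 : ∑' n, p n = 1)
    (F : ℤ → ℂ) (hF : ∀ x, ‖F x‖ ≤ 1) (x : ℤ) : ‖T p F x‖ ≤ 1 := by
  have h2 := hp.hasSum
  rw [hp1] at h2
  apply tsum_of_norm_bounded h2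
  intro y
  rw [norm_mul, Complex.norm_real, Real.norm_of_nonneg (hp0 _)]
  exact mul_le_of_le_one_right (hp0 _) (hF _)

lemma E_pow {p : ℤ → ℝ} (hp0 : ∀ n, 0 ≤ p n) (hp : Summable p) (hp1 : ∑' n, p n = 1)
    (F : ℤ → ℂ) (hF : ∀ x, ‖F x‖ ≤ 1) (hF0 : F 0 = 1) (lam : ℂ) (hlam : ‖lam‖ ≤ 1) (η : ℝ)
    (hη : ∀ x, ‖T p F x - lam * F x‖ ≤ η) (n : ℕ) : ‖E p n F - lam ^ n‖ ≤ n * η := by
  induction n with
  | zero =>
    have : E p 0 F = 1 := by
      unfold E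
      rw [P_zero, tsum_eq_single 0]
      · simp [hF0]
      · intro b hb; simp [hb]
    simp [this]
  | succ n ih =>
    obtain ⟨h0, h1⟩ := P_props hp0 hp hp1 n
    have h2 : E p (n + 1) F = E p n (T p F) := by
      unfold E
      rw [P_succ]
      exact (conv_hasSum hp0 hp h0 h1.summable F hF).tsum_eq
    have h3 : E p n (T p F) = E p n (fun x => T p F x - lam * F x) + lam * E p n F := by
      unfold E
      rw [← tsum_mul_left, ← Summable.tsum_add (summable_E hp0 hp hp1 n _ η hη)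
        ((summable_E hp0 hp hp1 n F 1 hF).mul_left lam)]
      congr 1
      funext m
      ring
    have h4 := norm_E_le hp0 hp hp1 n _ η hη
    have h5 : E p (n + 1) F - lam ^ (n + 1)
        = E p n (fun x => T p F x - lam * F x) + lam * (E p n F - lam ^ n) := by
      rw [h2, h3]; ring
    rw [h5]
    have h6 : ‖lam * (E p n F - lam ^ n)‖ ≤ n * η := by
      rw [norm_mul]
      exact le_trans (mul_le_of_le_one_left (norm_nonneg _) hlam) ih
    calc _ ≤ ‖E p n (fun x => T p F x - lam * F x)‖ + ‖lam * (E p n F - lam ^ n)‖ := norm_add_le _ _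
      _ ≤ η + n * η := add_le_add h4 h6
      _ = ((n + 1 : ℕ) : ℝ) * η := by push_cast; ring

/-- Lower bound for the total variation distance of consecutive powers from an approximate
eigenfunction. -/
lemma tv_lower {p : ℤ → ℝ} (hp0 : ∀ n, 0 ≤ p n) (hp : Summable p) (hp1 : ∑' n, p n = 1)
    (F : ℤ → ℂ) (hF : ∀ x, ‖F x‖ ≤ 1) (hF0 : F 0 = 1) (lam : ℂ) (hlam : ‖lam‖ ≤ 1) (η : ℝ)
    (hη : ∀ x, ‖T p F x - lam * F x‖ ≤ η) (n : ℕ) :
    ‖lam‖ ^ n * ‖1 - lam‖ - (2 * n + 1) * η ≤ ∑' k, |P p n k - P p (n + 1) k| := by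
  have h1 := E_pow hp0 hp hp1 F hF hF0 lam hlam η hη n
  have h2 := E_pow hp0 hp hp1 F hF hF0 lam hlam η hη (n + 1)
  obtain ⟨a0, a1⟩ := P_props hp0 hp hp1 n
  obtain ⟨b0, b1⟩ := P_props hp0 hp hp1 (n + 1)
  have h3 : ‖E p n F - E p (n + 1) F‖ ≤ ∑' k, |P p n k - P p (n + 1) k| := by
    unfold E
    rw [← Summable.tsum_sub (summable_E hp0 hp hp1 n F 1 hF) (summable_E hp0 hp hp1 (n + 1) F 1 hF)]
    apply tsum_of_norm_bounded ((a1.summable.sub b1.summable).abs.hasSum)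
    intro k
    rw [← sub_mul, norm_mul, ← Complex.ofReal_sub, Complex.norm_real, Real.norm_eq_abs]
    exact mul_le_of_le_one_right (abs_nonneg _) (hF _)
  have h4 : lam ^ n * (1 - lam) = (E p n F - E p (n + 1) F) - (E p n F - lam ^ n)
      + (E p (n + 1) F - lam ^ (n + 1)) := by ring
  have h5 : ‖lam‖ ^ n * ‖1 - lam‖ ≤ ‖E p n F - E p (n + 1) F‖ + ‖E p n F - lam ^ n‖
      + ‖E p (n + 1) F - lam ^ (n + 1)‖ := by
    rw [← norm_pow, ← norm_mul, h4]
    exact le_trans (norm_add_le _ _) (by gcongr; exact norm_sub_le _ _)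
  push_cast at h2
  linarith

end Pool.Agent.H615Z.Ritt
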