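import Mathlib

set_option autoImplicit false

namespace Pool.Agent.H615Z.Ritt

open Finset

/-- The lacunary generators. -/
def g (k : ℕ) : ℤ := 2 ^ (k ^ 2)

/-- The coordinate detecting the parity of the number of steps along generator `l`. -/
noncomputable def s (l : ℕ) (x : ℤ) : ℝ := (1 - Real.cos (Real.pi * x / 2 ^ (l ^ 2))) / 2

/-- One factor of the test function. -/
noncomputable def w (z : ℂ) (t : ℝ) : ℂ := 1 - (t : ℂ) * (1 - z)

lemma s_nonneg (l : ℕ) (x : ℤ) : 0 ≤ s l x := by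
  unfold s
  have := Real.cos_le_one (Real.pi * x / 2 ^ (l ^ 2))
  linarith

lemma s_le_one (l : ℕ) (x : ℤ) : s l x ≤ 1 := by
  unfold s
  have := Real.neg_one_le_cos (Real.pi * x / 2 ^ (l ^ 2))
  linarith

lemma s_zero (l : ℕ) : s l 0 = 0 := by simp [s]

lemma s_shift_lt {l k : ℕ} (h : l < k) (x y : ℤ) (hy : y = g k ∨ y = -g k) :
    s l (x + y) = s l x := by
  unfold s
  have h1 : l ^ 2 + 1 ≤ k ^ 2 := by nlinarith
  obtain ⟨e, he⟩ := Nat.exists_eq_add_of_le h1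
  have h2 : (2 : ℝ) ^ (l ^ 2) ≠ 0 := by positivity
  rcases hy with hy | hy
  · have : Real.pi * ((x + y : ℤ) : ℝ) / 2 ^ (l ^ 2)
        = Real.pi * x / 2 ^ (l ^ 2) + ((2 ^ e : ℤ) : ℝ) * (2 * Real.pi) := by
      rw [hy, g, he]; push_cast; field_simp; ring
    rw [this, Real.cos_add_int_mul_two_pi]
  · have : Real.pi * ((x + y : ℤ) : ℝ) / 2 ^ (l ^ 2)
        = Real.pi * x / 2 ^ (l ^ 2) + ((-2 ^ e : ℤ) : ℝ) * (2 * Real.pi) := by
      rw [hy, g, he]; push_cast; field_simp; ring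
    rw [this, Real.cos_add_int_mul_two_pi]

lemma s_shift_eq (l : ℕ) (x y : ℤ) (hy : y = g l ∨ y = -g l) :
    s l (x + y) = 1 - s l x := by
  unfold s
  have h2 : (2 : ℝ) ^ (l ^ 2) ≠ 0 := by positivity
  rcases hy with hy | hy
  · have : Real.pi * ((x + y : ℤ) : ℝ) / 2 ^ (l ^ 2)
        = Real.pi * x / 2 ^ (l ^ 2) + Real.pi := by
      rw [hy, g]; push_cast; field_simp
    rw [this, Real.cos_add_pi]; ring
  · have : Real.pi * ((x + y : ℤ) : ℝ) / 2 ^ (l ^ 2)
        = Real.pi * x / 2 ^ (l ^ 2) - Real.pi := by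
      rw [hy, g]; push_cast; field_simp; ring
    rw [this, Real.cos_sub_pi]; ring

lemma s_shift_gt {l k : ℕ} (h : k < l) (x y : ℤ) (hy : y = g k ∨ y = -g k) :
    |s l (x + y) - s l x| ≤ 2 / 2 ^ l := by
  unfold s
  have h1 : k ^ 2 + l ≤ l ^ 2 := by nlinarith
  obtain ⟨e, he⟩ := Nat.exists_eq_add_of_le h1
  have h3 := Real.abs_cos_sub_cos_le (Real.pi * x / 2 ^ (l ^ 2))
    (Real.pi * ((x + y : ℤ) : ℝ) / 2 ^ (l ^ 2))
  have h4 : |Real.pi * x / 2 ^ (l ^ 2) - Real.pi * ((x + y : ℤ) : ℝ) / 2 ^ (l ^ 2)|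
      = Real.pi / (2 ^ l * 2 ^ e) := by
    have hy' : |(y : ℝ)| = 2 ^ (k ^ 2) := by
      rcases hy with hy | hy <;> simp [hy, g]
    have : Real.pi * x / 2 ^ (l ^ 2) - Real.pi * ((x + y : ℤ) : ℝ) / 2 ^ (l ^ 2)
        = -(Real.pi * y / 2 ^ (l ^ 2)) := by push_cast; ring
    rw [this, abs_neg, abs_div, abs_mul, hy', abs_of_pos Real.pi_pos,
      abs_of_pos (by positivity : (0 : ℝ) < 2 ^ (l ^ 2)), he]
    field_simp
    ring
  have h5 : Real.pi / (2 ^ l * 2 ^ e) ≤ 4 / 2 ^ l := by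
    have h6 : (1 : ℝ) ≤ 2 ^ e := one_le_pow₀ (by norm_num)
    have h7 : (0 : ℝ) < 2 ^ l := by positivity
    apply div_le_div₀ (by norm_num) Real.pi_le_four h7
    nlinarith
  have h8 : (1 - Real.cos (Real.pi * ((x + y : ℤ) : ℝ) / 2 ^ (l ^ 2))) / 2
      - (1 - Real.cos (Real.pi * x / 2 ^ (l ^ 2))) / 2
      = (Real.cos (Real.pi * x / 2 ^ (l ^ 2))
        - Real.cos (Real.pi * ((x + y : ℤ) : ℝ) / 2 ^ (l ^ 2))) / 2 := by ring
  rw [h8, abs_div, abs_two]
  have h9 : (4 : ℝ) / 2 ^ l = 2 * (2 / 2 ^ l) := by ring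
  linarith

lemma norm_w_le {z : ℂ} {t : ℝ} (h0 : 0 ≤ t) (h1 : t ≤ 1) :
    ‖w z t‖ ≤ 1 - t * (1 - ‖z‖) := by
  have : w z t = ((1 - t : ℝ) : ℂ) + (t : ℂ) * z := by unfold w; push_cast; ring
  rw [this]
  refine le_trans (norm_add_le _ _) ?_
  rw [norm_mul, Complex.norm_real, Complex.norm_real, Real.norm_of_nonneg h0,
    Real.norm_of_nonneg (by linarith)]
  apply le_of_eq; ring

lemma norm_w_le_one {z : ℂ} (hz : ‖z‖ ≤ 1) {t : ℝ} (h0 : 0 ≤ t) (h1 : t ≤ 1) : ‖w z t‖ ≤ 1 := by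
  have := norm_w_le (z := z) h0 h1
  nlinarith

lemma norm_w_sub {z : ℂ} (hz : ‖z‖ ≤ 1) (t u : ℝ) : ‖w z t - w z u‖ ≤ 2 * |t - u| := by
  have : w z t - w z u = -(((t - u : ℝ) : ℂ) * (1 - z)) := by unfold w; push_cast; ring
  rw [this, norm_neg, norm_mul, Complex.norm_real, Real.norm_eq_abs, mul_comm]
  apply mul_le_mul_of_nonneg_right _ (abs_nonneg _)
  refine le_trans (norm_sub_le _ _) ?_
  rw [norm_one]; linarith

lemma norm_w_flip {z : ℂ} (hz : ‖z‖ ≤ 1) {t : ℝ} (h0 : 0 ≤ t) :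
    ‖w z (1 - t) - z * w z t‖ ≤ 2 * t := by
  have : w z (1 - t) - z * w z t = (t : ℂ) * (1 - z ^ 2) := by unfold w; push_cast; ring
  rw [this, norm_mul, Complex.norm_real, Real.norm_of_nonneg h0, mul_comm]
  apply mul_le_mul_of_nonneg_right _ h0
  refine le_trans (norm_sub_le _ _) ?_
  rw [norm_one, norm_pow]
  nlinarith [norm_nonneg z]

lemma norm_prod_sub_prod {ι : Type*} (B : Finset ι) (u v : ι → ℂ) (hu : ∀ i ∈ B, ‖u i‖ ≤ 1)
    (hv : ∀ i ∈ B, ‖v i‖ ≤ 1) : ‖∏ i ∈ B, u i - ∏ i ∈ B, v i‖ ≤ ∑ i ∈ B, ‖u i - v i‖ := by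
  classical
  induction B using Finset.induction_on with
  | empty => simp
  | insert a B ha ih =>
    rw [prod_insert ha, prod_insert ha, sum_insert ha]
    have ih' := ih (fun i hi => hu i (mem_insert_of_mem hi)) (fun i hi => hv i (mem_insert_of_mem hi))
    have h1 : u a * ∏ i ∈ B, u i - v a * ∏ i ∈ B, v i
        = (u a - v a) * ∏ i ∈ B, v i + u a * (∏ i ∈ B, u i - ∏ i ∈ B, v i) := by ring
    rw [h1]
    refine le_trans (norm_add_le _ _) (add_le_add ?_ ?_)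
    · rw [norm_mul]
      apply mul_le_of_le_one_right (norm_nonneg _)
      rw [norm_prod]
      exact prod_le_one (fun i _ => norm_nonneg _) (fun i hi => hv i (mem_insert_of_mem hi))
    · rw [norm_mul]
      exact le_trans (mul_le_of_le_one_left (norm_nonneg _) (hu a (mem_insert_self _ _))) ih'

lemma one_failure {ι : Type*} [DecidableEq ι] (B : Finset ι) (r : ι → ℝ) (h0 : ∀ i ∈ B, 0 ≤ r i)
    (h1 : ∀ i ∈ B, r i ≤ 1) : ∑ k ∈ B, (1 - r k) * ∏ l ∈ B.erase k, r l ≤ 1 := by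
  induction B using Finset.induction_on with
  | empty => simp
  | insert a B ha ih =>
    have ih' := ih (fun i hi => h0 i (mem_insert_of_mem hi)) (fun i hi => h1 i (mem_insert_of_mem hi))
    rw [sum_insert ha, erase_insert ha]
    have h2 : ∑ k ∈ B, (1 - r k) * ∏ l ∈ (insert a B).erase k, r l
        = r a * ∑ k ∈ B, (1 - r k) * ∏ l ∈ B.erase k, r l := by
      rw [mul_sum]
      apply sum_congr rfl
      intro k hk
      have hak : a ≠ k := fun h => ha (h ▸ hk)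
      rw [erase_insert_of_ne hak, prod_insert (fun h => ha (mem_of_mem_erase h))]
      ring
    rw [h2]
    have h3 : ∏ l ∈ B, r l ≤ 1 :=
      prod_le_one (fun i hi => h0 i (mem_insert_of_mem hi)) (fun i hi => h1 i (mem_insert_of_mem hi))
    have ha0 := h0 a (mem_insert_self _ _)
    have ha1 := h1 a (mem_insert_self _ _)
    nlinarith

/-- The test function attached to a block of generators. -/
noncomputable def F (z : ℂ) (B : Finset ℕ) (x : ℤ) : ℂ := ∏ l ∈ B, w z (s l x)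

lemma F_zero (z : ℂ) (B : Finset ℕ) : F z B 0 = 1 := by
  simp [F, s_zero, w]

lemma norm_F_le {z : ℂ} (hz : ‖z‖ ≤ 1) (B : Finset ℕ) (x : ℤ) : ‖F z B x‖ ≤ 1 := by
  unfold F
  rw [norm_prod]
  exact prod_le_one (fun i _ => norm_nonneg _)
    (fun i _ => norm_w_le_one hz (s_nonneg _ _) (s_le_one _ _))

/-- The shift estimate. -/
lemma F_shift {z : ℂ} (hz : ‖z‖ < 1) (B : Finset ℕ) (D : ℕ) (hB : ∀ l ∈ B, D ≤ l) (k : ℕ)
    (x y : ℤ) (hy : y = g k ∨ y = -g k) :
    ‖F z B (x + y) - (if k ∈ B then z else 1) * F z B x‖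
      ≤ B.card * (4 / 2 ^ D) + if k ∈ B then
        2 / (1 - ‖z‖) * ((1 - ‖w z (s k x)‖) * ∏ l ∈ B.erase k, ‖w z (s l x)‖) else 0 := by
  set t : ℕ → ℝ := fun l => if l = k then 1 - s l x else s l x with ht
  have ht0 : ∀ l, 0 ≤ t l := by
    intro l; simp only [ht]; split_ifs
    · linarith [s_le_one l x]
    · exact s_nonneg l x
  have ht1 : ∀ l, t l ≤ 1 := by
    intro l; simp only [ht]; split_ifs
    · linarith [s_nonneg l x]
    · exact s_le_one l x
  have h1 : ‖F z B (x + y) - ∏ l ∈ B, w z (t l)‖ ≤ B.card * (4 / 2 ^ D) := by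
    unfold F
    refine le_trans (norm_prod_sub_prod B _ _
      (fun i _ => norm_w_le_one hz.le (s_nonneg _ _) (s_le_one _ _))
      (fun i _ => norm_w_le_one hz.le (ht0 _) (ht1 _))) ?_
    rw [← nsmul_eq_mul]
    apply sum_le_card_nsmul
    intro l hl
    refine le_trans (norm_w_sub hz.le _ _) ?_
    have hD : (2 : ℝ) / 2 ^ l ≤ 2 / 2 ^ D := by
      apply div_le_div_of_nonneg_left (by norm_num) (by positivity)
      exact pow_le_pow_right₀ (by norm_num) (hB l hl)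
    have hpos : (0 : ℝ) ≤ 4 / 2 ^ D := by positivity
    rcases lt_trichotomy l k with h | h | h
    · rw [s_shift_lt h x y hy]
      simp [ht, h.ne, hpos]
    · subst h
      rw [s_shift_eq l x y hy]
      simp [ht, hpos]
    · have := s_shift_gt h x y hy
      simp only [ht, h.ne', if_false]
      have h9 : (4 : ℝ) / 2 ^ D = 2 * (2 / 2 ^ D) := by ring
      linarith
  have h2 : ‖∏ l ∈ B, w z (t l) - (if k ∈ B then z else 1) * F z B x‖ ≤ if k ∈ B then
        2 / (1 - ‖z‖) * ((1 - ‖w z (s k x)‖) * ∏ l ∈ B.erase k, ‖w z (s l x)‖) else 0 := by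
    split_ifs with hk
    · unfold F
      rw [← mul_prod_erase B _ hk, ← mul_prod_erase B (fun l => w z (s l x)) hk]
      have h3 : ∏ l ∈ B.erase k, w z (t l) = ∏ l ∈ B.erase k, w z (s l x) := by
        apply prod_congr rfl
        intro l hl
        simp [ht, ne_of_mem_erase hl]
      have h4 : t k = 1 - s k x := by simp [ht]
      rw [h3, h4, ← mul_assoc, ← sub_mul, norm_mul, norm_prod, ← mul_assoc]
      apply mul_le_mul_of_nonneg_right _ (prod_nonneg (fun i _ => norm_nonneg _))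
      refine le_trans (norm_w_flip hz.le (s_nonneg _ _)) ?_
      have h5 := norm_w_le (z := z) (s_nonneg k x) (s_le_one k x)
      have h6 : 0 < 1 - ‖z‖ := by linarith
      rw [div_mul_eq_mul_div, le_div_iff₀ h6]
      nlinarith
    · have h3 : ∏ l ∈ B, w z (t l) = F z B x := by
        unfold F
        apply prod_congr rfl
        intro l hl
        have : l ≠ k := fun h => hk (h ▸ hl)
        simp [ht, this]
      simp [h3]
  calc _ = ‖(F z B (x + y) - ∏ l ∈ B, w z (t l))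
        + (∏ l ∈ B, w z (t l) - (if k ∈ B then z else 1) * F z B x)‖ := by congr 1; ring
    _ ≤ _ := norm_add_le _ _
    _ ≤ _ := add_le_add h1 h2

end Pool.Agent.H615Z.Ritt
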