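import Mathlib
import Pool.Agent.H615Z.RittConv
import Pool.Agent.H615Z.RittTest

set_option autoImplicit false

namespace Pool.Agent.H615Z.Ritt

open Finset

lemma HasSum.congr_fun' {ι : Type*} {f f' : ι → ℂ} {a : ℂ} (h : HasSum f a)
    (e : ∀ i, f' i = f i) : HasSum f' a := by
  have : f' = f := funext e
  rw [this]; exact h

/-- Push forward of a weight sequence along a map to the integers. -/
noncomputable def push (c : ℕ → ℝ) (G : ℕ → ℤ) (y : ℤ) : ℝ := ∑' b : G ⁻¹' {y}, c b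

lemma push_nonneg {c : ℕ → ℝ} (hc0 : ∀ k, 0 ≤ c k) (G : ℕ → ℤ) (y : ℤ) : 0 ≤ push c G y :=
  tsum_nonneg (fun b => hc0 b)

lemma summable_cF {c : ℕ → ℝ} (hc0 : ∀ k, 0 ≤ c k) (hc : Summable c) (H : ℕ → ℂ)
    (hH : ∀ k, ‖H k‖ ≤ 1) : Summable (fun k => (c k : ℂ) * H k) := by
  apply Summable.of_norm_bounded hc
  intro k
  rw [norm_mul, Complex.norm_real, Real.norm_of_nonneg (hc0 _)]
  exact mul_le_of_le_one_right (hc0 _) (hH _)

lemma push_hasSum {c : ℕ → ℝ} (hc0 : ∀ k, 0 ≤ c k) (hc : Summable c) (G : ℕ → ℤ) (H : ℤ → ℂ)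
    (hH : ∀ x, ‖H x‖ ≤ 1) :
    HasSum (fun y => (push c G y : ℂ) * H y) (∑' k, (c k : ℂ) * H (G k)) := by
  have h1 := (summable_cF hc0 hc (fun k => H (G k)) (fun k => hH _)).hasSum.tsum_fiberwise G
  refine HasSum.congr_fun' h1 ?_
  intro y
  unfold push
  rw [Complex.ofReal_tsum, ← tsum_mul_right]
  apply tsum_congr
  rintro ⟨b, hb⟩
  have : G b = y := hb
  simp [this]

/-- The lazy symmetric measure built from weights `c`. -/
noncomputable def mu (c : ℕ → ℝ) (y : ℤ) : ℝ :=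
  push c (fun _ => 0) y / 2 + push c g y / 4 + push c (fun k => -g k) y / 4

lemma mu_nonneg {c : ℕ → ℝ} (hc0 : ∀ k, 0 ≤ c k) (y : ℤ) : 0 ≤ mu c y := by
  unfold mu
  have h1 := push_nonneg hc0 (fun _ => 0) y
  have h2 := push_nonneg hc0 g y
  have h3 := push_nonneg hc0 (fun k => -g k) y
  positivity

lemma mu_hasSum {c : ℕ → ℝ} (hc0 : ∀ k, 0 ≤ c k) (hc : Summable c) (H : ℤ → ℂ)
    (hH : ∀ x, ‖H x‖ ≤ 1) :
    HasSum (fun y => (mu c y : ℂ) * H y)
      (∑' k, (c k : ℂ) * (H 0 / 2 + H (g k) / 4 + H (-g k) / 4)) := by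
  have h1 := (push_hasSum hc0 hc (fun _ => 0) H hH).div_const 2
  have h2 := (push_hasSum hc0 hc g H hH).div_const 4
  have h3 := (push_hasSum hc0 hc (fun k => -g k) H hH).div_const 4
  have s1 := (summable_cF hc0 hc (fun _ => H 0) (fun k => hH _)).hasSum.div_const 2
  have s2 := (summable_cF hc0 hc (fun k => H (g k)) (fun k => hH _)).hasSum.div_const 4
  have s3 := (summable_cF hc0 hc (fun k => H (-g k)) (fun k => hH _)).hasSum.div_const 4
  have h4 := (h1.add h2).add h3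
  have s4 := (s1.add s2).add s3
  have e1 : (∑' k, (c k : ℂ) * (H 0 / 2 + H (g k) / 4 + H (-g k) / 4))
      = (∑' k, (c k : ℂ) * H 0) / 2 + (∑' k, (c k : ℂ) * H (g k)) / 4
        + (∑' k, (c k : ℂ) * H (-g k)) / 4 := by
    rw [← s4.tsum_eq]
    apply tsum_congr
    intro k
    ring
  rw [e1]
  refine HasSum.congr_fun' h4 ?_
  intro y
  unfold mu
  push_cast
  ring

lemma mu_hasSum_one {c : ℕ → ℝ} (hc0 : ∀ k, 0 ≤ c k) (hc : HasSum c 1) : HasSum (mu c) 1 := by
  have h1 := mu_hasSum hc0 hc.summable (fun _ => 1) (by simp)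
  have h2 : (∑' k, (c k : ℂ) * ((1 : ℂ) / 2 + 1 / 4 + 1 / 4)) = ((1 : ℝ) : ℂ) := by
    rw [← hc.tsum_eq, Complex.ofReal_tsum]
    apply tsum_congr
    intro k
    ring
  simp only [mul_one] at h1
  rw [h2] at h1
  exact Complex.hasSum_ofReal.1 h1

lemma mu_fourier {c : ℕ → ℝ} (hc0 : ∀ k, 0 ≤ c k) (hc : HasSum c 1) (hpos : 0 < c 0) (t : ℝ)
    (ht : t ∈ Set.Ioo 0 (2 * Real.pi)) :
    ∃ r : ℝ, 0 ≤ r ∧ r < 1 ∧
      ∑' n : ℤ, (mu c n : ℂ) * Complex.exp (Complex.I * (t : ℂ) * (n : ℂ)) = r := by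
  have hH : ∀ x : ℤ, ‖Complex.exp (Complex.I * (t : ℂ) * (x : ℂ))‖ ≤ 1 := by
    intro x
    have : Complex.I * (t : ℂ) * (x : ℂ) = ((t * x : ℝ) : ℂ) * Complex.I := by push_cast; ring
    rw [this, Complex.norm_exp_ofReal_mul_I]
  have h1 := mu_hasSum hc0 hc.summable (fun x => Complex.exp (Complex.I * (t : ℂ) * (x : ℂ))) hH
  have hb0 : ∀ k, 0 ≤ (1 + Real.cos (t * g k)) / 2 := fun k => by
    linarith [Real.neg_one_le_cos (t * g k)]
  have hb1 : ∀ k, (1 + Real.cos (t * g k)) / 2 ≤ 1 := fun k => by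
    linarith [Real.cos_le_one (t * g k)]
  have hle : ∀ k, c k * ((1 + Real.cos (t * g k)) / 2) ≤ c k := fun k =>
    mul_le_of_le_one_right (hc0 k) (hb1 k)
  refine ⟨∑' k, c k * ((1 + Real.cos (t * g k)) / 2),
    tsum_nonneg (fun k => mul_nonneg (hc0 k) (hb0 k)), ?_, ?_⟩
  · refine lt_of_lt_of_eq ?_ hc.tsum_eq
    refine Summable.tsum_lt_tsum_of_nonneg (i := 0) (fun k => mul_nonneg (hc0 k) (hb0 k)) hle ?_
      hc.summable
    have h2 : Real.cos t ≠ 1 := by
      intro h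
      have := (Real.cos_eq_one_iff_of_lt_of_lt (by linarith [ht.1, Real.pi_pos]) ht.2).1 h
      linarith [ht.1]
    have h3 : Real.cos t < 1 := lt_of_le_of_ne (Real.cos_le_one t) h2
    have h4 : (g 0 : ℝ) = 1 := by simp [g]
    rw [h4, mul_one]
    nlinarith
  · rw [h1.tsum_eq, Complex.ofReal_tsum]
    apply tsum_congr
    intro k
    push_cast
    rw [Complex.cos]
    have e1 : Complex.I * (t : ℂ) * (g k : ℂ) = (t : ℂ) * (g k : ℂ) * Complex.I := by ring
    have e2 : Complex.I * (t : ℂ) * (-(g k : ℂ)) = -((t : ℂ) * (g k : ℂ)) * Complex.I := by ring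
    rw [e1, e2]
    simp
    left
    ring

/-- The test function is an approximate eigenfunction. -/
lemma approx_eigen {c : ℕ → ℝ} (hc0 : ∀ k, 0 ≤ c k) (hc : HasSum c 1) {z : ℂ} (hz : ‖z‖ < 1)
    (B : Finset ℕ) (D : ℕ) (hB : ∀ l ∈ B, D ≤ l) (cmax : ℝ) (hcm0 : 0 ≤ cmax)
    (hcm : ∀ k ∈ B, c k ≤ cmax) (x : ℤ) :
    ‖T (mu c) (F z B) x - (1 - (((∑ k ∈ B, c k) / 2 : ℝ) : ℂ) * (1 - z)) * F z B x‖
      ≤ B.card * (2 / 2 ^ D) + cmax / (1 - ‖z‖) := by
  have hF := norm_F_le hz.le B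
  have h1 := mu_hasSum hc0 hc.summable (fun y => F z B (x + y)) (fun y => hF _)
  have hs1 : Summable (fun k => (c k : ℂ) *
      (F z B (x + 0) / 2 + F z B (x + g k) / 4 + F z B (x + -g k) / 4)) := by
    apply summable_cF hc0 hc.summable
    intro k
    refine le_trans (norm_add_le _ _) ?_
    refine le_trans (add_le_add_left (norm_add_le _ _) _) ?_
    simp only [norm_div, Complex.norm_ofNat]
    linarith [hF (x + 0), hF (x + g k), hF (x + -g k)]
  have hT : T (mu c) (F z B) x = ∑' k, (c k : ℂ) *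
      (F z B (x + 0) / 2 + F z B (x + g k) / 4 + F z B (x + -g k) / 4) := h1.tsum_eq
  have h2 : HasSum (fun k => if k ∈ B then (c k : ℂ) else 0) (∑ k ∈ B, (c k : ℂ)) := by
    have := hasSum_sum_of_ne_finset_zero (f := fun k => if k ∈ B then (c k : ℂ) else 0) (s := B)
      (L := SummationFilter.unconditional ℕ) (fun b hb => by simp [hb])
    convert this using 1
    apply sum_congr rfl
    intro k hk
    simp [hk]
  have h3 : HasSum (fun k => (c k : ℂ)) 1 := by
    have := Complex.hasSum_ofReal.2 hc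
    simpa using this
  have h4 := (h3.sub ((h2.div_const 2).mul_right (1 - z))).mul_right (F z B x)
  have h5 := hs1.hasSum.sub h4
  rw [← hT] at h5
  have e1 : (((∑ k ∈ B, c k) / 2 : ℝ) : ℂ) = (∑ k ∈ B, (c k : ℂ)) / 2 := by push_cast; ring
  rw [e1, ← h5.tsum_eq]
  set q : ℕ → ℝ := fun k => (1 - ‖w z (s k x)‖) * ∏ l ∈ B.erase k, ‖w z (s l x)‖ with hq
  have hq0 : ∀ k, 0 ≤ q k := fun k => mul_nonneg
    (by linarith [norm_w_le_one hz.le (s_nonneg k x) (s_le_one k x)])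
    (prod_nonneg (fun i _ => norm_nonneg _))
  have hz1 : 0 < 1 - ‖z‖ := by linarith
  have h6 : HasSum (fun k => if k ∈ B then cmax / (1 - ‖z‖) * q k else 0)
      (∑ k ∈ B, cmax / (1 - ‖z‖) * q k) := by
    have := hasSum_sum_of_ne_finset_zero
      (f := fun k => if k ∈ B then cmax / (1 - ‖z‖) * q k else 0) (s := B)
      (L := SummationFilter.unconditional ℕ) (fun b hb => by simp [hb])
    convert this using 1
    apply sum_congr rfl
    intro k hk
    simp [hk]
  have h7 := (hc.mul_right ((B.card : ℝ) * (2 / 2 ^ D))).add h6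
  refine le_trans (tsum_of_norm_bounded h7 ?_) ?_
  · intro k
    have a1 := F_shift hz B D hB k x (g k) (Or.inl rfl)
    have a2 := F_shift hz B D hB k x (-g k) (Or.inr rfl)
    have e2 : (c k : ℂ) * (F z B (x + 0) / 2 + F z B (x + g k) / 4 + F z B (x + -g k) / 4)
        - ((c k : ℂ) - (if k ∈ B then (c k : ℂ) else 0) / 2 * (1 - z)) * F z B x
        = (c k : ℂ) * ((F z B (x + g k) - (if k ∈ B then z else 1) * F z B x) / 4
          + (F z B (x + -g k) - (if k ∈ B then z else 1) * F z B x) / 4) := by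
      rw [add_zero]
      split_ifs <;> ring
    rw [e2, norm_mul, Complex.norm_real, Real.norm_of_nonneg (hc0 k)]
    have a3 : ‖(F z B (x + g k) - (if k ∈ B then z else 1) * F z B x) / 4
          + (F z B (x + -g k) - (if k ∈ B then z else 1) * F z B x) / 4‖
        ≤ B.card * (2 / 2 ^ D) + if k ∈ B then 1 / (1 - ‖z‖) * q k else 0 := by
      refine le_trans (norm_add_le _ _) ?_
      simp only [norm_div, Complex.norm_ofNat]
      have e3 : (4 : ℝ) / 2 ^ D = 2 * (2 / 2 ^ D) := by ring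
      have e4 : (2 : ℝ) / (1 - ‖z‖) = 2 * (1 / (1 - ‖z‖)) := by ring
      rw [e3, e4] at a1 a2
      split_ifs at a1 a2 ⊢ with hk
      · simp only [hq]
        linarith
      · linarith
    refine le_trans (mul_le_mul_of_nonneg_left a3 (hc0 k)) ?_
    rw [mul_add]
    apply add_le_add_right
    split_ifs with hk
    · have := hcm k hk
      have e5 : cmax / (1 - ‖z‖) * q k = cmax * (1 / (1 - ‖z‖) * q k) := by ring
      rw [e5]
      apply mul_le_mul_of_nonneg_right this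
      exact mul_nonneg (by positivity) (hq0 k)
    · simp
  · rw [one_mul, ← mul_sum]
    apply add_le_add_right
    apply mul_le_of_le_one_right (by positivity)
    exact one_failure B (fun l => ‖w z (s l x)‖) (fun i _ => norm_nonneg _)
      (fun i _ => norm_w_le_one hz.le (s_nonneg _ _) (s_le_one _ _))

end Pool.Agent.H615Z.Ritt
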