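import Mathlib
import Pool.Agent.H615Z.RittMeasure

set_option autoImplicit false

namespace Pool.Agent.H615Z.Ritt

open Finset Filter Topology

/-- Unnormalised weights. -/
noncomputable def a (k : ℕ) : ℝ := ((k : ℝ) + 1) ^ (-(5 / 4) : ℝ)

lemma a_pos (k : ℕ) : 0 < a k := by unfold a; positivity

lemma a_summable : Summable a := by
  have h1 : Summable (fun n : ℕ => (n : ℝ) ^ (-(5 / 4) : ℝ)) :=
    Real.summable_nat_rpow.2 (by norm_num)
  have h2 := (summable_nat_add_iff 1).2 h1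
  refine h2.congr ?_
  intro k
  simp [a]

lemma pow_four_rpow {x : ℝ} (hx : 0 < x) : (x ^ 4) ^ (-(5 / 4) : ℝ) = 1 / x ^ 5 := by
  rw [← Real.rpow_natCast x 4, ← Real.rpow_mul hx.le]
  have : ((4 : ℕ) : ℝ) * (-(5 / 4) : ℝ) = -((5 : ℕ) : ℝ) := by norm_num
  rw [this, Real.rpow_neg hx.le, Real.rpow_natCast, one_div]

lemma a_upper {m k : ℕ} (hm : 1 ≤ m) (hk : m ^ 4 ≤ k) : a k ≤ 1 / (m : ℝ) ^ 5 := by
  have hm0 : (0 : ℝ) < m := by exact_mod_cast hm
  rw [← pow_four_rpow hm0]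
  unfold a
  apply Real.rpow_le_rpow_of_nonpos (by positivity) _ (by norm_num)
  have : ((m ^ 4 : ℕ) : ℝ) ≤ k := by exact_mod_cast hk
  push_cast at this
  linarith

lemma a_lower {m k : ℕ} (hm : 1 ≤ m) (hk : k < 2 * m ^ 4) : 1 / (2 * (m : ℝ)) ^ 5 ≤ a k := by
  have hm0 : (0 : ℝ) < m := by exact_mod_cast hm
  rw [← pow_four_rpow (by positivity)]
  unfold a
  apply Real.rpow_le_rpow_of_nonpos (by positivity) _ (by norm_num)
  have : ((k + 1 : ℕ) : ℝ) ≤ ((2 * m ^ 4 : ℕ) : ℝ) := by exact_mod_cast hk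
  push_cast at this
  have h4 : (0 : ℝ) ≤ (m : ℝ) ^ 4 := by positivity
  nlinarith

/-- Total weight. -/
noncomputable def A : ℝ := ∑' k, a k

lemma A_pos : 0 < A :=
  a_summable.tsum_pos (fun k => (a_pos k).le) 0 (a_pos 0)

/-- Normalised weights. -/
noncomputable def c (k : ℕ) : ℝ := a k / A

lemma c_pos (k : ℕ) : 0 < c k := div_pos (a_pos k) A_pos

lemma c_hasSum : HasSum c 1 := by
  have h := a_summable.hasSum.div_const A
  have : (∑' k, a k) / A = 1 := div_self A_pos.ne'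
  rw [this] at h
  exact h

lemma exists_m (Q1 Q2 : ℝ) : ∃ m : ℕ, 1 ≤ m ∧
    Q1 * (((m ^ 4 : ℕ) : ℝ) ^ 2 / 2 ^ (m ^ 4)) + Q2 / (m : ℝ) ^ 3 < 1 := by
  have h1 : Tendsto (fun n : ℕ => (n : ℝ) ^ 2 / 2 ^ n) atTop (𝓝 0) :=
    tendsto_pow_const_div_const_pow_of_one_lt 2 (by norm_num)
  have h2 : Tendsto (fun m : ℕ => m ^ 4) atTop atTop := tendsto_pow_atTop (by norm_num)
  have h3 := (h1.comp h2).const_mul Q1
  have h4 : Tendsto (fun m : ℕ => (m : ℝ) ^ 3) atTop atTop :=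
    (tendsto_pow_atTop (by norm_num)).comp tendsto_natCast_atTop_atTop
  have h5 : Tendsto (fun m : ℕ => Q2 / (m : ℝ) ^ 3) atTop (𝓝 0) := h4.const_div_atTop Q2
  have h6 := h3.add h5
  simp only [mul_zero, add_zero] at h6
  have h7 := h6.eventually (gt_mem_nhds (by norm_num : (0 : ℝ) < 1))
  obtain ⟨m, hm1, hm2⟩ := (h7.and (eventually_ge_atTop 1)).exists
  exact ⟨m, hm2, hm1⟩

theorem not_ritt (C : ℝ) : ∃ n : ℕ, C < (n : ℝ) * ∑' k, |P (mu c) n k - P (mu c) (n + 1) k| := by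
  have hc0 : ∀ k, 0 ≤ c k := fun k => (c_pos k).le
  have hp0 := mu_nonneg hc0
  have hp := mu_hasSum_one hc0 c_hasSum
  set K : ℝ := 8 * (|C| + 1) with hK
  have hK2 : 2 ≤ K := by have := abs_nonneg C; linarith
  have hK0 : 0 < K := by linarith
  set z : ℂ := ⟨1 - 1 / K ^ 2, 1 / K⟩ with hz
  have hz1 : ‖z‖ < 1 := by
    have h1 : ‖z‖ ^ 2 = (1 - 1 / K ^ 2) ^ 2 + (1 / K) ^ 2 := by
      rw [Complex.sq_norm, Complex.normSq_mk]; ring
    have h2 : 1 / K ^ 2 < 1 := by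
      rw [div_lt_one (by positivity)]; nlinarith
    have h3 : 0 < 1 / K ^ 2 := by positivity
    have h4 : (1 / K) ^ 2 = 1 / K ^ 2 := by ring
    have h5 : ‖z‖ ^ 2 < 1 := by rw [h1, h4]; nlinarith
    exact (sq_lt_one_iff₀ (norm_nonneg z)).1 h5
  have hA := A_pos
  set R : ℝ := 1 / (1 - ‖z‖) with hR
  have hR0 : 0 < R := by
    have : 0 < 1 - ‖z‖ := by linarith
    positivity
  obtain ⟨m, hm1, hm⟩ := exists_m (3 * (32 * A * K ^ 2) ^ 2 * 2) (3 * (32 * A * K ^ 2) ^ 2 * (R / A))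
  have hm0 : (0 : ℝ) < m := by exact_mod_cast hm1
  have hm1' : (1 : ℝ) ≤ m := by exact_mod_cast hm1
  set D : ℕ := m ^ 4 with hD
  set B : Finset ℕ := Finset.Ico D (2 * D) with hB
  have hcard : B.card = D := by rw [hB, Nat.card_Ico]; omega
  have hBD : ∀ l ∈ B, D ≤ l := fun l hl => (Finset.mem_Ico.1 hl).1
  have hcm : ∀ k ∈ B, c k ≤ 1 / (m : ℝ) ^ 5 / A := fun k hk =>
    div_le_div_of_nonneg_right (a_upper hm1 (hBD k hk)) hA.le
  set b : ℝ := ∑ k ∈ B, c k with hb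
  have hb1 : b ≤ 1 := sum_le_hasSum B (fun k _ => hc0 k) c_hasSum
  have hb2 : 1 / (32 * A * m) ≤ b := by
    have h1 : ∀ k ∈ B, 1 / (2 * (m : ℝ)) ^ 5 / A ≤ c k := fun k hk =>
      div_le_div_of_nonneg_right (a_lower hm1 (Finset.mem_Ico.1 hk).2) hA.le
    have h2 := card_nsmul_le_sum B c _ h1
    rw [hcard, nsmul_eq_mul, hD] at h2
    refine le_trans (le_of_eq ?_) h2
    push_cast
    field_simp
    norm_num
  have hb0 : 0 < b := lt_of_lt_of_le (by positivity) hb2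
  set lam : ℂ := 1 - ((b / 2 : ℝ) : ℂ) * (1 - z) with hlam
  set η : ℝ := B.card * (2 / 2 ^ D) + 1 / (m : ℝ) ^ 5 / A / (1 - ‖z‖) with hη
  have hη0 : 0 ≤ η := by
    have : 0 < 1 - ‖z‖ := by linarith
    positivity
  have happ : ∀ x, ‖T (mu c) (F z B) x - lam * F z B x‖ ≤ η := fun x =>
    approx_eigen hc0 c_hasSum hz1 B D hBD _ (by positivity) hcm x
  have hlam1 : ‖lam‖ ≤ 1 := norm_w_le_one (t := b / 2) hz1.le (by linarith) (by linarith)
  set N : ℝ := K ^ 2 / b with hN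
  have hN0 : 0 ≤ N := by positivity
  set n : ℕ := ⌊N⌋₊ with hn
  have hnN : (n : ℝ) ≤ N := Nat.floor_le hN0
  have hnN' : N < n + 1 := Nat.lt_floor_add_one N
  have hNb : N * b = K ^ 2 := by rw [hN]; field_simp
  have hN1 : 1 ≤ N := by
    rw [hN, le_div_iff₀ hb0]; nlinarith
  have hN2 : N ≤ 32 * A * K ^ 2 * m := by
    rw [hN, div_le_iff₀ hb0]
    rw [div_le_iff₀ (by positivity)] at hb2
    nlinarith [sq_nonneg K]
  refine ⟨n, ?_⟩
  have h1 := tv_lower hp0 hp.summable hp.tsum_eq (F z B) (norm_F_le hz1.le B) (F_zero z B) lam hlam1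
    η happ n
  have hn0 : (0 : ℝ) ≤ n := Nat.cast_nonneg n
  refine lt_of_lt_of_le ?_ (mul_le_mul_of_nonneg_left h1 hn0)
  have hre : 1 - b / 2 / K ^ 2 ≤ ‖lam‖ := by
    refine le_trans (le_of_eq ?_) (Complex.re_le_norm lam)
    simp [hlam, hz]
    ring
  have hx1 : b / 2 / K ^ 2 ≤ 1 := by
    rw [div_le_one (by positivity)]; nlinarith
  have hpow : 1 / 2 ≤ ‖lam‖ ^ n := by
    have h2 : (1 - b / 2 / K ^ 2) ^ n ≤ ‖lam‖ ^ n := pow_le_pow_left₀ (by linarith) hre n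
    have h3 := one_add_mul_le_pow (a := -(b / 2 / K ^ 2)) (by linarith) n
    have h4 : (n : ℝ) * (b / 2 / K ^ 2) ≤ 1 / 2 := by
      have : (n : ℝ) * (b / 2 / K ^ 2) = n * b / (2 * K ^ 2) := by ring
      rw [this, div_le_iff₀ (by positivity)]
      nlinarith
    have h5 : 1 + -(b / 2 / K ^ 2) = 1 - b / 2 / K ^ 2 := by ring
    rw [h5] at h3
    linarith
  have him : b / 2 / K ≤ ‖1 - lam‖ := by
    refine le_trans (le_of_eq ?_) (le_trans (neg_le_abs _) (Complex.abs_im_le_norm (1 - lam)))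
    simp [hlam, hz]
    ring
  have hmain : K / 8 ≤ n * (‖lam‖ ^ n * ‖1 - lam‖) := by
    have h2 : 1 / 2 * (b / 2 / K) ≤ ‖lam‖ ^ n * ‖1 - lam‖ :=
      mul_le_mul hpow him (by positivity) (by positivity)
    refine le_trans ?_ (mul_le_mul_of_nonneg_left h2 hn0)
    have h3 : (n : ℝ) * (1 / 2 * (b / 2 / K)) = n * b / (4 * K) := by ring
    rw [h3, le_div_iff₀ (by positivity)]
    nlinarith
  have herr : n * ((2 * n + 1) * η) < 1 := by
    refine lt_of_le_of_lt ?_ hm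
    have h2 : (n : ℝ) * (2 * n + 1) ≤ 3 * (32 * A * K ^ 2 * m) ^ 2 := by
      have h3 : (n : ℝ) * (2 * n + 1) ≤ 3 * N ^ 2 := by nlinarith
      have h4 : N ^ 2 ≤ (32 * A * K ^ 2 * m) ^ 2 := pow_le_pow_left₀ hN0 hN2 2
      linarith
    rw [← mul_assoc]
    refine le_trans (mul_le_mul_of_nonneg_right h2 hη0) ?_
    rw [hη, hcard, mul_add]
    apply add_le_add
    · have h5 : (m : ℝ) ^ 2 ≤ (D : ℝ) := by
        rw [hD]; push_cast
        exact pow_le_pow_right₀ hm1' (by norm_num)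
      have h6 : 3 * (32 * A * K ^ 2 * m) ^ 2 * ((D : ℝ) * (2 / 2 ^ D))
          = 3 * (32 * A * K ^ 2) ^ 2 * 2 * ((m : ℝ) ^ 2 * D / 2 ^ D) := by ring
      rw [h6]
      apply mul_le_mul_of_nonneg_left _ (by positivity)
      apply div_le_div_of_nonneg_right _ (by positivity)
      rw [sq (D : ℝ)]
      exact mul_le_mul_of_nonneg_right h5 (Nat.cast_nonneg D)
    · apply le_of_eq
      rw [hR]
      have : 1 - ‖z‖ ≠ 0 := by linarith
      field_simp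
  have hC : C ≤ |C| := le_abs_self C
  rw [mul_sub]
  linarith

end Pool.Agent.H615Z.Ritt
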